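import Mathlib

set_option autoImplicit false

namespace Pool.Agent.H124R3.Apery

open Filter

/-- `(4a)! ≤ 256^a (a!)^4` -/
theorem fact4 (a : ℕ) : (4 * a).factorial ≤ 256 ^ a * a.factorial ^ 4 := by
  induction a with
  | zero => simp
  | succ a ih =>
    have h1 : (4 * (a + 1)).factorial =
        (4 * a + 4) * ((4 * a + 3) * ((4 * a + 2) * ((4 * a + 1) * (4 * a).factorial))) := by
      rw [show 4 * (a + 1) = 4 * a + 3 + 1 by ring, Nat.factorial_succ, Nat.factorial_succ,
        Nat.factorial_succ, Nat.factorial_succ]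
    rw [h1, Nat.factorial_succ]
    have h2 : (4 * a + 4) * ((4 * a + 3) * ((4 * a + 2) * (4 * a + 1))) ≤ 256 * (a + 1) ^ 4 := by
      have e1 : 4 * a + 4 ≤ 4 * (a + 1) := by omega
      have e2 : 4 * a + 3 ≤ 4 * (a + 1) := by omega
      have e3 : 4 * a + 2 ≤ 4 * (a + 1) := by omega
      have e4 : 4 * a + 1 ≤ 4 * (a + 1) := by omega
      calc (4 * a + 4) * ((4 * a + 3) * ((4 * a + 2) * (4 * a + 1)))
          ≤ (4 * (a + 1)) * ((4 * (a + 1)) * ((4 * (a + 1)) * (4 * (a + 1)))) :=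
            Nat.mul_le_mul e1 (Nat.mul_le_mul e2 (Nat.mul_le_mul e3 e4))
        _ = 256 * (a + 1) ^ 4 := by ring
    calc (4 * a + 4) * ((4 * a + 3) * ((4 * a + 2) * ((4 * a + 1) * (4 * a).factorial)))
        = ((4 * a + 4) * ((4 * a + 3) * ((4 * a + 2) * (4 * a + 1)))) * (4 * a).factorial := by ring
      _ ≤ (256 * (a + 1) ^ 4) * (256 ^ a * a.factorial ^ 4) := Nat.mul_le_mul h2 ih
      _ = 256 ^ (a + 1) * ((a + 1) * a.factorial) ^ 4 := by ring

/-- `20^M (M!)^3 ≤ 5 (3M)!` for `M ≥ 3` -/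
theorem fact3 (M : ℕ) (hM : 3 ≤ M) : 20 ^ M * M.factorial ^ 3 ≤ 5 * (3 * M).factorial := by
  induction M, hM using Nat.le_induction with
  | base => decide
  | succ M hM ih =>
    have h1 : (3 * (M + 1)).factorial =
        (3 * M + 3) * ((3 * M + 2) * ((3 * M + 1) * (3 * M).factorial)) := by
      rw [show 3 * (M + 1) = 3 * M + 2 + 1 by ring, Nat.factorial_succ, Nat.factorial_succ,
        Nat.factorial_succ]
    rw [h1, Nat.factorial_succ]
    have h2 : 20 * (M + 1) ^ 3 ≤ (3 * M + 3) * ((3 * M + 2) * (3 * M + 1)) := by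
      obtain ⟨t, rfl⟩ := Nat.exists_eq_add_of_le hM
      ring_nf
      nlinarith [Nat.zero_le t, Nat.zero_le (t^2), Nat.zero_le (t^3)]
    calc 20 ^ (M + 1) * ((M + 1) * M.factorial) ^ 3
        = (20 * (M + 1) ^ 3) * (20 ^ M * M.factorial ^ 3) := by ring
      _ ≤ ((3 * M + 3) * ((3 * M + 2) * (3 * M + 1))) * (5 * (3 * M).factorial) :=
          Nat.mul_le_mul h2 ih
      _ = 5 * ((3 * M + 3) * ((3 * M + 2) * ((3 * M + 1) * (3 * M).factorial))) := by ring

/-- the quantum period coefficient -/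
noncomputable def gg (M a : ℕ) : ℝ :=
  if 3 * a ≤ M - a then
    1 / ((a.factorial : ℝ) ^ 5 * (M - a).factorial * (M - a - 3 * a).factorial) else 0

noncomputable def GG (M : ℕ) : ℝ := ∑ a ∈ Finset.range (M + 1), gg M a

theorem gg_nonneg (M a : ℕ) : 0 ≤ gg M a := by
  unfold gg
  split_ifs <;> positivity

theorem GG_pos (M : ℕ) : 0 < GG M := by
  unfold GG
  refine Finset.sum_pos' (fun a _ => gg_nonneg M a) ⟨0, by simp, ?_⟩
  unfold gg
  simp
  positivity

theorem gg_le (M a : ℕ) (ha : a ≤ M) :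
    gg M a * (M.factorial : ℝ) ^ 2 ≤ (2 : ℝ) ^ M * (if 4 * a ≤ M then (M.choose (4 * a) : ℝ) * 4 ^ (4 * a) else 0) := by
  unfold gg
  by_cases h : 3 * a ≤ M - a
  · have h4 : 4 * a ≤ M := by omega
    rw [if_pos h, if_pos h4]
    have e1 : M - a - 3 * a = M - 4 * a := by omega
    rw [e1]
    have c1 : (M.choose a : ℝ) * (a.factorial : ℝ) * ((M - a).factorial : ℝ) = (M.factorial : ℝ) := by
      exact_mod_cast Nat.choose_mul_factorial_mul_factorial ha
    have c2 : (M.choose (4 * a) : ℝ) * ((4 * a).factorial : ℝ) * ((M - 4 * a).factorial : ℝ) = (M.factorial : ℝ) := by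
      exact_mod_cast Nat.choose_mul_factorial_mul_factorial h4
    have c3 : (M.choose a : ℝ) ≤ 2 ^ M := by exact_mod_cast Nat.choose_le_two_pow M a
    have c4 : ((4 * a).factorial : ℝ) ≤ 4 ^ (4 * a) * (a.factorial : ℝ) ^ 4 := by
      have := fact4 a
      have h256 : (4 : ℝ) ^ (4 * a) = 256 ^ a := by rw [pow_mul]; norm_num
      rw [h256]
      exact_mod_cast this
    have p1 : (0 : ℝ) < a.factorial := by positivity
    have p2 : (0 : ℝ) < (M - a).factorial := by positivity
    have p3 : (0 : ℝ) < (M - 4 * a).factorial := by positivity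
    have key : 1 / ((a.factorial : ℝ) ^ 5 * (M - a).factorial * (M - 4 * a).factorial) * (M.factorial : ℝ) ^ 2
        = (M.choose a : ℝ) * ((M.choose (4 * a) : ℝ) * (((4 * a).factorial : ℝ) / (a.factorial : ℝ) ^ 4)) := by
      rw [pow_two]
      nth_rewrite 1 [← c1]
      rw [← c2]
      field_simp
    rw [key]
    have c5 : ((4 * a).factorial : ℝ) / (a.factorial : ℝ) ^ 4 ≤ 4 ^ (4 * a) := by
      rw [div_le_iff₀ (by positivity)]
      exact c4
    exact mul_le_mul c3 (mul_le_mul_of_nonneg_left c5 (by positivity)) (by positivity) (by positivity)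
  · rw [if_neg h, zero_mul]
    split_ifs <;> positivity

theorem GG_le (M : ℕ) : GG M * (M.factorial : ℝ) ^ 2 ≤ 10 ^ M := by
  unfold GG
  rw [Finset.sum_mul]
  have h1 : ∑ a ∈ Finset.range (M + 1), gg M a * (M.factorial : ℝ) ^ 2 ≤
      ∑ a ∈ Finset.range (M + 1), (2 : ℝ) ^ M *
        (if 4 * a ≤ M then (M.choose (4 * a) : ℝ) * 4 ^ (4 * a) else 0) :=
    Finset.sum_le_sum fun a ha => gg_le M a (by simpa [Nat.lt_succ_iff] using ha)
  refine h1.trans ?_
  rw [← Finset.mul_sum]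
  have h2 : ∑ a ∈ Finset.range (M + 1),
      (if 4 * a ≤ M then (M.choose (4 * a) : ℝ) * 4 ^ (4 * a) else 0) ≤ 5 ^ M := by
    have h3 : (5 : ℝ) ^ M = ∑ j ∈ Finset.range (M + 1), (M.choose j : ℝ) * 4 ^ j := by
      have := add_pow (4 : ℝ) 1 M
      rw [show (5 : ℝ) = 4 + 1 by norm_num, this]
      refine Finset.sum_congr rfl fun j _ => ?_
      rw [one_pow, mul_one, mul_comm]
    rw [h3, ← Finset.sum_filter]
    rw [← Finset.sum_image (s := (Finset.range (M + 1)).filter (fun a => 4 * a ≤ M))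
      (g := fun a => 4 * a) (f := fun j => (M.choose j : ℝ) * 4 ^ j)]
    · apply Finset.sum_le_sum_of_subset_of_nonneg
      · intro j hj
        simp only [Finset.mem_image, Finset.mem_filter, Finset.mem_range] at hj ⊢
        omega
      · intro j _ _
        positivity
    · intro a _ b _ hab
      simp only at hab
      omega
  calc (2 : ℝ) ^ M * _ ≤ 2 ^ M * 5 ^ M := mul_le_mul_of_nonneg_left h2 (by positivity)
    _ = 10 ^ M := by rw [← mul_pow]; norm_num

end Pool.Agent.H124R3.Apery
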