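import Pool.Agent.H124R3.Apery1

set_option autoImplicit false

namespace Pool.Agent.H124R3.Apery

open MvPolynomial Filter

/-- The cohomology ring `H^*(X; ℂ)` of the `ℙ¹`-bundle `X = P(O ⊕ O(k))` over `ℙ^s`:
generated by the hyperplane class `h` of the base (`X 0`) and the class `ξ` of the positive section
(`X 1`), with relations `h^(s+1) = 0` and `ξ (ξ - k h) = 0`. -/
abbrev Coh (s k : ℕ) : Type :=
  MvPolynomial (Fin 2) ℂ ⧸
    (Ideal.span {X 0 ^ (s + 1), X 1 * (X 1 - C (k : ℂ) * X 0)} : Ideal (MvPolynomial (Fin 2) ℂ))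

/-- the class `h` -/
noncomputable def hh (s k : ℕ) : Coh s k := Ideal.Quotient.mk _ (X 0)

/-- the class `ξ` -/
noncomputable def xi (s k : ℕ) : Coh s k := Ideal.Quotient.mk _ (X 1)

/-- the class `ξ - k h` of the negative section -/
noncomputable def ee (s k : ℕ) : Coh s k := xi s k - (k : Coh s k) * hh s k

/-- Givental's factor `∏_{j ≤ 0} (D + j) / ∏_{j ≤ e} (D + j)` of a divisor class `D` having
intersection number `e` with the curve class. -/
noncomputable def fac {R : Type} [CommRing R] (D : R) (e : ℤ) : R :=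
  if 0 ≤ e then Ring.inverse (∏ j ∈ Finset.range e.toNat, (D + ((j : R) + 1)))
  else ∏ j ∈ Finset.range (-e).toNat, (D - (j : R))

/-- the contribution of the curve class `d` with `h·d = a`, `ξ·d = b` -/
noncomputable def term (s k a b : ℕ) : Coh s k :=
  fac (hh s k) a ^ (s + 1) * fac (xi s k) b * fac (ee s k) ((b : ℤ) - k * a)

/-- the coefficient `J_m` of `t^m` of the `J`-function -/
noncomputable def Jc (s k m : ℕ) : Coh s k :=
  ∑ a ∈ Finset.range (m + 1), ∑ b ∈ Finset.range (m + 1),
    if (s + 1 - k) * a + 2 * b = m then term s k a b else 0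

/-- the first Chern class -/
noncomputable def c1 (s k : ℕ) : Coh s k :=
  ((s + 1 - k : ℕ) : Coh s k) * hh s k + 2 * xi s k

/-- the pairing with the point class: the algebra map killing `h` and `ξ` -/
noncomputable def pt (s k : ℕ) : Coh s k →ₐ[ℂ] ℂ :=
  Ideal.Quotient.liftₐ _ (aeval (fun _ => (0 : ℂ))) (by
    intro x hx
    have h : Ideal.span {X 0 ^ (s + 1), X 1 * (X 1 - C (k : ℂ) * X 0)} ≤
        RingHom.ker (aeval (fun _ => (0 : ℂ)) : MvPolynomial (Fin 2) ℂ →ₐ[ℂ] ℂ) := by
      rw [Ideal.span_le]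
      rintro y (rfl | rfl)
      · simp [RingHom.mem_ker]
      · simp [RingHom.mem_ker]
    exact RingHom.mem_ker.1 (h hx))

/-- the dual number evaluation `h ↦ ε`, `ξ ↦ -ε` for `(s,k) = (4,3)` -/
noncomputable def dn : Coh 4 3 →ₐ[ℂ] DualNumber ℂ :=
  Ideal.Quotient.liftₐ _ (aeval (fun i : Fin 2 => if i = 0 then (DualNumber.eps : DualNumber ℂ)
    else -DualNumber.eps)) (by
    intro x hx
    have h : (Ideal.span {X 0 ^ (4 + 1), X 1 * (X 1 - C ((3 : ℕ) : ℂ) * X 0)} :
        Ideal (MvPolynomial (Fin 2) ℂ)) ≤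
        RingHom.ker (aeval (fun i : Fin 2 => if i = 0 then (DualNumber.eps : DualNumber ℂ)
          else -DualNumber.eps) : MvPolynomial (Fin 2) ℂ →ₐ[ℂ] DualNumber ℂ) := by
      rw [Ideal.span_le]
      have he : (DualNumber.eps : DualNumber ℂ) * DualNumber.eps = 0 := DualNumber.eps_mul_eps
      rintro y (rfl | rfl)
      · simp only [SetLike.mem_coe, RingHom.mem_ker, map_pow, aeval_X, if_true]
        rw [pow_succ, pow_succ, mul_assoc, he, mul_zero]
      · simp only [SetLike.mem_coe, RingHom.mem_ker, map_mul, map_sub, aeval_X, if_true,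
          one_ne_zero, if_false, aeval_C]
        rw [mul_sub, neg_mul_neg, he, ← mul_assoc, mul_comm (-DualNumber.eps) _, mul_assoc, neg_mul,
          he]
        simp
    exact RingHom.mem_ker.1 (h hx))

theorem dn_hh : dn (hh 4 3) = DualNumber.eps := by
  change (aeval (fun i : Fin 2 => if i = 0 then (DualNumber.eps : DualNumber ℂ)
    else -DualNumber.eps)) (X 0 : MvPolynomial (Fin 2) ℂ) = DualNumber.eps
  simp

theorem dn_xi : dn (xi 4 3) = -DualNumber.eps := by
  change (aeval (fun i : Fin 2 => if i = 0 then (DualNumber.eps : DualNumber ℂ)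
    else -DualNumber.eps)) (X 1 : MvPolynomial (Fin 2) ℂ) = -DualNumber.eps
  simp

theorem dn_ee : dn (ee 4 3) = (-4 : ℂ) • DualNumber.eps := by
  unfold ee
  rw [map_sub, map_mul, dn_hh, dn_xi, map_natCast, Algebra.smul_def, map_neg, map_ofNat]
  push_cast
  ring

theorem dn_c1 (x : Coh 4 3) : dn (c1 4 3 * x) = 0 := by
  unfold c1
  rw [map_mul, map_add, map_mul, map_mul, dn_hh, dn_xi, map_natCast, map_ofNat]
  have : ((4 + 1 - 3 : ℕ) : DualNumber ℂ) = 2 := by norm_num
  rw [this, mul_neg, add_neg_cancel, zero_mul]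

theorem hh_nil (s k : ℕ) : IsNilpotent (hh s k) := by
  refine ⟨s + 1, ?_⟩
  unfold hh
  rw [← map_pow, Ideal.Quotient.eq_zero_iff_mem]
  exact Ideal.subset_span (by simp)

theorem xi_rel (s k : ℕ) : xi s k * ee s k = 0 := by
  have h1 : xi s k * ee s k = Ideal.Quotient.mk _ (X 1 * (X 1 - C (k : ℂ) * X 0)) := by
    unfold ee xi hh
    rw [map_mul, map_sub, map_mul]
    simp
  rw [h1, Ideal.Quotient.eq_zero_iff_mem]
  exact Ideal.subset_span (by simp)

theorem xi_nil (s k : ℕ) : IsNilpotent (xi s k) := by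
  have h1 : xi s k * xi s k = (k : Coh s k) * hh s k * xi s k := by
    have := xi_rel s k
    unfold ee at this
    rw [mul_sub, sub_eq_zero] at this
    rw [this]
    ring
  have h2 : ∀ n : ℕ, xi s k ^ (n + 1) = ((k : Coh s k) * hh s k) ^ n * xi s k := by
    intro n
    induction n with
    | zero => simp
    | succ n ih =>
      rw [pow_succ, ih, mul_assoc, h1]
      ring
  refine ⟨s + 1 + 1, ?_⟩
  rw [h2, mul_pow]
  have : hh s k ^ (s + 1) = 0 := by
    unfold hh
    rw [← map_pow, Ideal.Quotient.eq_zero_iff_mem]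
    exact Ideal.subset_span (by simp)
  rw [this, mul_zero, zero_mul]

theorem ee_nil (s k : ℕ) : IsNilpotent (ee s k) := by
  unfold ee
  exact (Commute.all _ _).isNilpotent_sub (xi_nil s k)
    ((Commute.all _ _).isNilpotent_mul_left (hh_nil s k))

theorem isUnit_prod {s k : ℕ} (D : Coh s k) (hD : IsNilpotent D) (n : ℕ) :
    IsUnit (∏ j ∈ Finset.range n, (D + ((j : Coh s k) + 1))) := by
  induction n with
  | zero => simp
  | succ n ih =>
    rw [Finset.prod_range_succ]
    refine ih.mul ?_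
    have h1 : IsUnit ((n : Coh s k) + 1) := by
      have h2 : ((n : Coh s k) + 1) = algebraMap ℂ (Coh s k) ((n : ℂ) + 1) := by
        simp
      rw [h2]
      exact (isUnit_iff_ne_zero.2 (Nat.cast_add_one_ne_zero n)).map _
    exact hD.isUnit_add_right_of_commute h1 (Commute.all _ _)

theorem map_fac {s k : ℕ} {R : Type} [CommRing R] (φ : Coh s k →+* R) (D : Coh s k)
    (hD : IsNilpotent D) (e : ℤ) : φ (fac D e) = fac (φ D) e := by
  unfold fac
  split_ifs with h
  · have hu := isUnit_prod D hD e.toNat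
    have h1 : φ (∏ j ∈ Finset.range e.toNat, (D + ((j : Coh s k) + 1))) =
        ∏ j ∈ Finset.range e.toNat, (φ D + ((j : R) + 1)) := by
      rw [map_prod]
      refine Finset.prod_congr rfl fun j _ => ?_
      simp
    rw [← h1]
    have hu2 : IsUnit (φ (∏ j ∈ Finset.range e.toNat, (D + ((j : Coh s k) + 1)))) := hu.map φ
    apply hu2.mul_left_cancel
    rw [Ring.mul_inverse_cancel _ hu2, ← map_mul, Ring.mul_inverse_cancel _ hu, map_one]
  · rw [map_prod]
    refine Finset.prod_congr rfl fun j _ => ?_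
    simp

end Pool.Agent.H124R3.Apery
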