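import Pool.Agent.H124R3.Apery2

set_option autoImplicit false

namespace Pool.Agent.H124R3.Apery

open MvPolynomial Filter

noncomputable def harm (n : ℕ) : ℝ := ∑ j ∈ Finset.range n, 1 / ((j : ℝ) + 1)

theorem harm_nonneg (n : ℕ) : 0 ≤ harm n := Finset.sum_nonneg fun j _ => by positivity

theorem harm_le (n : ℕ) : harm n ≤ n := by
  unfold harm
  calc ∑ j ∈ Finset.range n, 1 / ((j : ℝ) + 1) ≤ ∑ j ∈ Finset.range n, (1 : ℝ) := by
        apply Finset.sum_le_sum
        intro j _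
        rw [div_le_one (by positivity)]
        have : (0 : ℝ) ≤ j := Nat.cast_nonneg j
        linarith
    _ = n := by simp

/-- the dual number `x (1 + y ε)` -/
noncomputable def U (x y : ℂ) : DualNumber ℂ := TrivSqZeroExt.inl x + TrivSqZeroExt.inr (x * y)

theorem U_mul (x y x' y' : ℂ) : U x y * U x' y' = U (x * x') (y + y') := by
  unfold U
  ext
  · simp
  · simp
    ring

theorem U_one : U 1 0 = 1 := by
  unfold U
  ext <;> simp

theorem U_pow (x y : ℂ) (n : ℕ) : U x y ^ n = U (x ^ n) (n * y) := by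
  induction n with
  | zero => simp [U_one]
  | succ n ih =>
    rw [pow_succ, ih, U_mul, pow_succ]
    congr 1
    push_cast
    ring

theorem U_mul_inr (x y z : ℂ) : U x y * TrivSqZeroExt.inr z = TrivSqZeroExt.inr (x * z) := by
  unfold U
  ext
  · simp
  · simp [mul_comm]

theorem lin_eq (c : ℂ) (j : ℕ) : (c • DualNumber.eps + ((j : DualNumber ℂ) + 1)) =
    U ((j : ℂ) + 1) (c / ((j : ℂ) + 1)) := by
  have h : ((j : ℂ) + 1) ≠ 0 := Nat.cast_add_one_ne_zero j
  have h2 : ((j : DualNumber ℂ) + 1) = TrivSqZeroExt.inl ((j : ℂ) + 1) := by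
    ext <;> simp
  rw [h2]
  unfold U
  ext
  · simp
  · simp only [TrivSqZeroExt.snd_add, TrivSqZeroExt.snd_smul, DualNumber.snd_eps,
      TrivSqZeroExt.snd_inl, TrivSqZeroExt.snd_inr, smul_eq_mul, mul_one, add_zero, zero_add]
    field_simp

theorem prod_pos (c : ℂ) (n : ℕ) :
    ∏ j ∈ Finset.range n, (c • DualNumber.eps + ((j : DualNumber ℂ) + 1)) =
      U (n.factorial : ℂ) (c * (harm n : ℂ)) := by
  induction n with
  | zero => simp [U_one, harm]
  | succ n ih =>
    rw [Finset.prod_range_succ, ih, lin_eq, U_mul, Nat.factorial_succ]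
    congr 1
    · push_cast
      ring
    · unfold harm
      rw [Finset.sum_range_succ]
      push_cast
      ring

theorem fac_pos (c : ℂ) (n : ℕ) : fac (c • (DualNumber.eps : DualNumber ℂ)) (n : ℤ) =
    U (1 / (n.factorial : ℂ)) (-c * (harm n : ℂ)) := by
  unfold fac
  rw [if_pos (Int.natCast_nonneg n), Int.toNat_natCast, prod_pos]
  have h0 : (n.factorial : ℂ) ≠ 0 := by exact_mod_cast n.factorial_ne_zero
  have h1 : U (n.factorial : ℂ) (c * (harm n : ℂ)) * U (1 / (n.factorial : ℂ)) (-c * (harm n : ℂ)) = 1 := by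
    rw [U_mul, ← U_one]
    congr 1
    · field_simp
    · ring
  have hu : IsUnit (U (n.factorial : ℂ) (c * (harm n : ℂ))) := IsUnit.of_mul_eq_one _ h1
  apply hu.mul_left_cancel
  rw [Ring.mul_inverse_cancel _ hu, h1]

theorem prod_neg_fst (c : ℂ) (n : ℕ) :
    (∏ j ∈ Finset.range n, (c • DualNumber.eps - ((j + 1 : ℕ) : DualNumber ℂ))).fst =
      (-1) ^ n * (n.factorial : ℂ) := by
  induction n with
  | zero => simp
  | succ n ih =>
    rw [Finset.prod_range_succ, TrivSqZeroExt.fst_mul, ih, Nat.factorial_succ]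
    simp only [TrivSqZeroExt.fst_sub, TrivSqZeroExt.fst_smul, DualNumber.fst_eps, smul_zero,
      TrivSqZeroExt.fst_natCast, zero_sub]
    push_cast
    ring

theorem fac_neg (c : ℂ) (n : ℕ) : fac (c • (DualNumber.eps : DualNumber ℂ)) (-((n : ℤ) + 1)) =
    TrivSqZeroExt.inr (c * ((-1) ^ n * (n.factorial : ℂ))) := by
  unfold fac
  have h1 : ¬ (0 ≤ -((n : ℤ) + 1)) := by omega
  have h2 : (-(-((n : ℤ) + 1))).toNat = n + 1 := by omega
  rw [if_neg h1, h2, Finset.prod_range_succ', Nat.cast_zero, sub_zero]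
  ext
  · simp
  · rw [TrivSqZeroExt.snd_mul, prod_neg_fst]
    simp
    ring

/-- real coefficient of `ε` -/
noncomputable def tt (M a : ℕ) : ℝ :=
  if 3 * a ≤ M - a then
    gg M a * (-(5 * harm a) + harm (M - a) + 4 * harm (M - a - 3 * a))
  else 4 * (-1) ^ M * (((3 * a - (M - a) - 1).factorial : ℝ) /
    ((a.factorial : ℝ) ^ 5 * (M - a).factorial))

theorem dn_term (M a : ℕ) (ha : a ≤ M) :
    dn (term 4 3 a (M - a)) = TrivSqZeroExt.inl ((gg M a : ℝ) : ℂ) +
      TrivSqZeroExt.inr ((tt M a : ℝ) : ℂ) := by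
  have e1 : (DualNumber.eps : DualNumber ℂ) = (1 : ℂ) • DualNumber.eps := by simp
  have e2 : -(DualNumber.eps : DualNumber ℂ) = (-1 : ℂ) • DualNumber.eps := by simp
  have m1 := map_fac (dn : Coh 4 3 →+* DualNumber ℂ) (hh 4 3) (hh_nil 4 3) (a : ℤ)
  have m2 := map_fac (dn : Coh 4 3 →+* DualNumber ℂ) (xi 4 3) (xi_nil 4 3) ((M - a : ℕ) : ℤ)
  have m3 := map_fac (dn : Coh 4 3 →+* DualNumber ℂ) (ee 4 3) (ee_nil 4 3)
    (((M - a : ℕ) : ℤ) - (3 : ℕ) * a)
  simp only [RingHom.coe_coe] at m1 m2 m3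
  rw [dn_hh, e1, fac_pos] at m1
  rw [dn_xi, e2, fac_pos] at m2
  rw [dn_ee] at m3
  unfold term
  rw [map_mul, map_mul, map_pow, m1, m2, m3, U_pow, U_mul]
  unfold gg tt
  by_cases h : 3 * a ≤ M - a
  · rw [if_pos h, if_pos h]
    have h2 : (((M - a : ℕ) : ℤ) - (3 : ℕ) * a) = ((M - a - 3 * a : ℕ) : ℤ) := by
      omega
    rw [h2, fac_pos, U_mul]
    unfold U gg
    rw [if_pos h]
    congr 1
    · congr 1
      push_cast
      field_simp
    · congr 1
      push_cast
      field_simp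
  · rw [if_neg h, if_neg h]
    obtain ⟨n, hn⟩ : ∃ n, 3 * a = M - a + (n + 1) := ⟨3 * a - (M - a) - 1, by omega⟩
    have h2 : (((M - a : ℕ) : ℤ) - (3 : ℕ) * a) = -((n : ℤ) + 1) := by omega
    rw [h2, fac_neg, U_mul_inr]
    have h3 : 3 * a - (M - a) - 1 = n := by omega
    rw [h3]
    have h4 : (-1 : ℂ) ^ n = -(-1) ^ M := by
      have h5 : (-1 : ℂ) ^ (n + 1 + M) = 1 := by
        have : n + 1 + M = 2 * (2 * a) := by omega
        rw [this, pow_mul]
        simp
      have h6 : (-1 : ℂ) ^ M * (-1) ^ M = 1 := by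
        rw [← pow_add, ← two_mul, pow_mul]
        simp
      have h7 : (-1 : ℂ) ^ n * (-1) ^ M = -1 := by
        rw [show n + 1 + M = n + M + 1 by ring, pow_succ, pow_add] at h5
        linear_combination -h5
      calc (-1 : ℂ) ^ n = (-1) ^ n * ((-1) ^ M * (-1) ^ M) := by rw [h6, mul_one]
        _ = ((-1) ^ n * (-1) ^ M) * (-1) ^ M := by ring
        _ = -(-1) ^ M := by rw [h7]; ring
    rw [h4]
    rw [Complex.ofReal_zero, TrivSqZeroExt.inl_zero, zero_add]
    congr 1
    push_cast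
    field_simp

theorem dn_J (M : ℕ) : dn (Jc 4 3 (2 * M)) =
    TrivSqZeroExt.inl ((GG M : ℝ) : ℂ) +
      TrivSqZeroExt.inr (((∑ a ∈ Finset.range (M + 1), tt M a : ℝ)) : ℂ) := by
  have h1 : Jc 4 3 (2 * M) = ∑ a ∈ Finset.range (M + 1), term 4 3 a (M - a) := by
    unfold Jc
    have h2 : ∀ a ∈ Finset.range (2 * M + 1), (∑ b ∈ Finset.range (2 * M + 1),
        if (4 + 1 - 3) * a + 2 * b = 2 * M then term 4 3 a b else 0) =
        if a ≤ M then term 4 3 a (M - a) else 0 := by
      intro a _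
      by_cases h : a ≤ M
      · rw [if_pos h, Finset.sum_eq_single (M - a)]
        · rw [if_pos (by omega)]
        · intro b _ hb
          rw [if_neg (by omega)]
        · intro hb
          exact absurd (Finset.mem_range.2 (by omega)) hb
      · rw [if_neg h]
        apply Finset.sum_eq_zero
        intro b _
        rw [if_neg (by omega)]
    rw [Finset.sum_congr rfl h2, ← Finset.sum_filter]
    apply Finset.sum_congr
    · ext a
      simp only [Finset.mem_filter, Finset.mem_range]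
      omega
    · intros; rfl
  rw [h1, map_sum]
  have h3 : ∀ a ∈ Finset.range (M + 1), dn (term 4 3 a (M - a)) =
      TrivSqZeroExt.inl ((gg M a : ℝ) : ℂ) + TrivSqZeroExt.inr ((tt M a : ℝ) : ℂ) := by
    intro a ha
    exact dn_term M a (by simpa [Nat.lt_succ_iff] using ha)
  rw [Finset.sum_congr rfl h3, Finset.sum_add_distrib]
  congr 1
  · unfold GG
    rw [Complex.ofReal_sum, ← TrivSqZeroExt.inl_sum]
  · rw [Complex.ofReal_sum, ← TrivSqZeroExt.inr_sum]

end Pool.Agent.H124R3.Apery
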