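import Pool.Agent.H124R3.Apery3

set_option autoImplicit false

namespace Pool.Agent.H124R3.Apery

open MvPolynomial Filter

theorem pt_eq (x : Coh 4 3) : pt 4 3 x = (dn x).fst := by
  have h : pt 4 3 = (TrivSqZeroExt.fstHom ℂ ℂ ℂ).comp dn := by
    apply Ideal.Quotient.algHom_ext
    apply MvPolynomial.algHom_ext
    intro i
    fin_cases i
    · change (aeval (fun _ => (0 : ℂ))) (X 0 : MvPolynomial (Fin 2) ℂ) = (dn (hh 4 3)).fst
      rw [dn_hh]
      simp
    · change (aeval (fun _ => (0 : ℂ))) (X 1 : MvPolynomial (Fin 2) ℂ) = (dn (xi 4 3)).fst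
      rw [dn_xi]
      simp
  rw [h]
  rfl

/-- the primitive functional: `h ↦ 1`, `ξ ↦ -1`, zero in degrees other than one -/
noncomputable def prim : Coh 4 3 →ₗ[ℂ] ℂ :=
  (TrivSqZeroExt.sndHom ℂ ℂ).comp dn.toLinearMap

theorem prim_apply (x : Coh 4 3) : prim x = (dn x).snd := rfl

theorem prim_c1 (x : Coh 4 3) : prim (c1 4 3 * x) = 0 := by
  rw [prim_apply, dn_c1]
  simp

theorem tt_lower (M a : ℕ) (ha : a ≤ M) : -(10 * M * gg M a) ≤ (-1) ^ M * tt M a := by
  have hg := gg_nonneg M a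
  have hs : ((-1 : ℝ) ^ M) = 1 ∨ ((-1 : ℝ) ^ M) = -1 := neg_one_pow_eq_or ℝ M
  unfold tt
  split_ifs with h
  · have h1 := harm_nonneg a
    have h2 := harm_nonneg (M - a)
    have h3 := harm_nonneg (M - a - 3 * a)
    have k1 := harm_le a
    have k2 := harm_le (M - a)
    have k3 := harm_le (M - a - 3 * a)
    have c1 : (a : ℝ) ≤ M := by exact_mod_cast ha
    have c2 : ((M - a : ℕ) : ℝ) ≤ M := by exact_mod_cast Nat.sub_le M a
    have c3 : ((M - a - 3 * a : ℕ) : ℝ) ≤ M := by
      exact_mod_cast (Nat.sub_le _ _).trans (Nat.sub_le M a)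
    have hb : |-(5 * harm a) + harm (M - a) + 4 * harm (M - a - 3 * a)| ≤ 10 * M := by
      rw [abs_le]
      constructor <;> linarith
    have : |(-1 : ℝ) ^ M * (gg M a * (-(5 * harm a) + harm (M - a) + 4 * harm (M - a - 3 * a)))| ≤
        10 * M * gg M a := by
      rw [abs_mul, abs_mul, abs_pow, abs_neg, abs_one, one_pow, one_mul, abs_of_nonneg hg, mul_comm]
      exact mul_le_mul_of_nonneg_right hb hg
    exact (abs_le.1 this).1
  · have hz : gg M a = 0 := by unfold gg; rw [if_neg h]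
    rw [hz, mul_zero, neg_zero]
    have : (-1 : ℝ) ^ M * (4 * (-1) ^ M * (((3 * a - (M - a) - 1).factorial : ℝ) /
        ((a.factorial : ℝ) ^ 5 * (M - a).factorial))) =
        4 * (((3 * a - (M - a) - 1).factorial : ℝ) / ((a.factorial : ℝ) ^ 5 * (M - a).factorial)) := by
      rcases hs with hs | hs <;> rw [hs] <;> ring
    rw [this]
    positivity

theorem tt_top (M : ℕ) (hM : 1 ≤ M) :
    (-1) ^ M * tt M M = 4 * ((3 * M - 1).factorial : ℝ) / (M.factorial : ℝ) ^ 5 := by
  unfold tt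
  have hs : ((-1 : ℝ) ^ M) = 1 ∨ ((-1 : ℝ) ^ M) = -1 := neg_one_pow_eq_or ℝ M
  rw [if_neg (by omega), Nat.sub_self]
  simp only [Nat.sub_zero, Nat.factorial_zero, Nat.cast_one, mul_one]
  rcases hs with hs | hs <;> rw [hs] <;> ring

theorem sum_lower (M : ℕ) (hM : 1 ≤ M) :
    4 * ((3 * M - 1).factorial : ℝ) / (M.factorial : ℝ) ^ 5 - 10 * M * GG M ≤
      |∑ a ∈ Finset.range (M + 1), tt M a| := by
  have h1 : |∑ a ∈ Finset.range (M + 1), tt M a| =
      |(-1) ^ M * ∑ a ∈ Finset.range (M + 1), tt M a| := by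
    rw [abs_mul, abs_pow, abs_neg, abs_one, one_pow, one_mul]
  rw [h1]
  refine le_trans ?_ (le_abs_self _)
  rw [Finset.mul_sum, Finset.sum_range_succ, tt_top M hM]
  have h2 : -(10 * M * GG M) ≤ ∑ a ∈ Finset.range M, (-1) ^ M * tt M a := by
    have h3 : ∑ a ∈ Finset.range M, -(10 * M * gg M a) ≤
        ∑ a ∈ Finset.range M, (-1) ^ M * tt M a := by
      apply Finset.sum_le_sum
      intro a ha
      exact tt_lower M a (Finset.mem_range.1 ha).le
    refine le_trans ?_ h3
    rw [Finset.sum_neg_distrib, ← Finset.mul_sum, neg_le_neg_iff]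
    apply mul_le_mul_of_nonneg_left _ (by positivity)
    unfold GG
    rw [Finset.sum_range_succ]
    linarith [gg_nonneg M M]
  linarith

theorem ratio_lower (M : ℕ) (hM : 13 ≤ M) :
    (M : ℝ) ≤ |∑ a ∈ Finset.range (M + 1), tt M a| / GG M := by
  have hG := GG_pos M
  rw [le_div_iff₀ hG]
  refine le_trans ?_ (sum_lower M (by omega))
  have hG2 := GG_le M
  have hf : (0 : ℝ) < M.factorial := by positivity
  have hMp : (0 : ℝ) < M := by positivity
  -- lower bound for `(3M-1)!`
  have h3 : (20 : ℝ) ^ M * (M.factorial : ℝ) ^ 3 ≤ 15 * M * ((3 * M - 1).factorial : ℝ) := by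
    have := fact3 M (by omega)
    have h4 : (3 * M).factorial = (3 * M) * (3 * M - 1).factorial := by
      rw [← Nat.mul_factorial_pred (by omega)]
    rw [h4] at this
    have h5 : (20 : ℝ) ^ M * (M.factorial : ℝ) ^ 3 ≤ 5 * (3 * M * ((3 * M - 1).factorial : ℝ)) := by
      exact_mod_cast this
    linarith
  -- `2^M ≥ 42 M^2`
  have h2 : (42 : ℝ) * M ^ 2 ≤ 2 ^ M := by
    have : 42 * M ^ 2 ≤ 2 ^ M := by
      induction M, hM using Nat.le_induction with
      | base => decide
      | succ M hM ih =>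
        have ih' := ih (GG_pos M) (GG_le M) (by positivity) (by positivity)
          (by
            have := fact3 M (by omega)
            have h4 : (3 * M).factorial = (3 * M) * (3 * M - 1).factorial := by
              rw [← Nat.mul_factorial_pred (by omega)]
            rw [h4] at this
            have h5 : (20 : ℝ) ^ M * (M.factorial : ℝ) ^ 3 ≤ 5 * (3 * M * ((3 * M - 1).factorial : ℝ)) := by
              exact_mod_cast this
            linarith)
        have : (M + 1) ^ 2 ≤ 2 * M ^ 2 := by nlinarith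
        calc 42 * (M + 1) ^ 2 ≤ 2 * (42 * M ^ 2) := by linarith
          _ ≤ 2 * 2 ^ M := by linarith
          _ = 2 ^ (M + 1) := by ring
    exact_mod_cast this
  -- combine
  have key : 11 * M * GG M ≤ 4 * ((3 * M - 1).factorial : ℝ) / (M.factorial : ℝ) ^ 5 := by
    rw [le_div_iff₀ (by positivity)]
    have e1 : 11 * M * GG M * (M.factorial : ℝ) ^ 5 =
        11 * M * (GG M * (M.factorial : ℝ) ^ 2) * (M.factorial : ℝ) ^ 3 := by ring
    rw [e1]
    have e2 : 11 * M * (GG M * (M.factorial : ℝ) ^ 2) * (M.factorial : ℝ) ^ 3 ≤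
        11 * M * (10 ^ M) * (M.factorial : ℝ) ^ 3 := by
      apply mul_le_mul_of_nonneg_right _ (by positivity)
      exact mul_le_mul_of_nonneg_left hG2 (by positivity)
    refine e2.trans ?_
    have e3 : (20 : ℝ) ^ M = 10 ^ M * 2 ^ M := by rw [← mul_pow]; norm_num
    rw [e3] at h3
    have e4 : (10 : ℝ) ^ M * (42 * M ^ 2) * (M.factorial : ℝ) ^ 3 ≤
        15 * M * ((3 * M - 1).factorial : ℝ) := by
      refine le_trans ?_ h3
      apply mul_le_mul_of_nonneg_right _ (by positivity)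
      exact mul_le_mul_of_nonneg_left h2 (by positivity)
    have e5 : M * ((10 : ℝ) ^ M * (42 * M) * (M.factorial : ℝ) ^ 3) ≤
        M * (15 * ((3 * M - 1).factorial : ℝ)) := by
      calc M * ((10 : ℝ) ^ M * (42 * M) * (M.factorial : ℝ) ^ 3)
          = (10 : ℝ) ^ M * (42 * M ^ 2) * (M.factorial : ℝ) ^ 3 := by ring
        _ ≤ 15 * M * ((3 * M - 1).factorial : ℝ) := e4
        _ = M * (15 * ((3 * M - 1).factorial : ℝ)) := by ring
    have e6 := le_of_mul_le_mul_left e5 hMp
    have e7 : 11 * M * 10 ^ M * (M.factorial : ℝ) ^ 3 =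
        (11 / 42) * ((10 : ℝ) ^ M * (42 * M) * (M.factorial : ℝ) ^ 3) := by ring
    rw [e7]
    have hp : (0 : ℝ) ≤ ((3 * M - 1).factorial : ℝ) := by positivity
    linarith
  linarith

theorem diverge : Tendsto (fun n : ℕ => ‖prim (Jc 4 3 (2 * n)) / pt 4 3 (Jc 4 3 (2 * n))‖)
    atTop atTop := by
  have h1 : ∀ M : ℕ, ‖prim (Jc 4 3 (2 * M)) / pt 4 3 (Jc 4 3 (2 * M))‖ =
      |∑ a ∈ Finset.range (M + 1), tt M a| / GG M := by
    intro M
    rw [prim_apply, pt_eq, dn_J]
    simp only [TrivSqZeroExt.snd_add, TrivSqZeroExt.snd_inl, TrivSqZeroExt.snd_inr, zero_add,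
      TrivSqZeroExt.fst_add, TrivSqZeroExt.fst_inl, TrivSqZeroExt.fst_inr, add_zero]
    rw [norm_div, Complex.norm_real, Complex.norm_real, Real.norm_eq_abs, Real.norm_eq_abs,
      abs_of_pos (GG_pos M)]
  simp only [h1]
  refine tendsto_atTop_mono' _ ?_ tendsto_natCast_atTop_atTop
  filter_upwards [eventually_ge_atTop 13] with M hM
  exact ratio_lower M hM

end Pool.Agent.H124R3.Apery
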