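import Mathlib
import Pool.Agent.H96R3.BC.Stmts

set_option autoImplicit false

open Finset

namespace Pool.Agent.H124R3.BC

open Pool.Agent.H96R3.BC

/-- crude Taylor expansion -/
lemma taylor_aux (a b M : ℝ) (m : ℕ) : ∀ F : ℕ → ℝ → ℝ,
    (∀ i x, HasDerivAt (F i) (F (i + 1) x) x) →
    (∀ x, a ≤ x → x ≤ b → |F m x| ≤ M) →
    ∃ c : ℕ → ℝ, ∀ x, a ≤ x → x ≤ b → |F 0 x - ∑ i ∈ range m, c i * x ^ i| ≤ M * (x - a) ^ m := by
  induction m with
  | zero =>
    intro F _ h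
    exact ⟨0, fun x h1 h2 => by simpa using h x h1 h2⟩
  | succ m ih =>
    intro F hF h
    obtain ⟨c, hc⟩ := ih (fun i => F (i + 1)) (fun i x => hF (i + 1) x) h
    set G : ℝ → ℝ := fun x => ∑ i ∈ range m, c i / ((i : ℝ) + 1) * x ^ (i + 1) with hGdef
    have hG : ∀ x, HasDerivAt G (∑ i ∈ range m, c i * x ^ i) x := by
      intro x
      rw [hGdef]
      apply HasDerivAt.fun_sum
      intro i _
      have h1 := ((hasDerivAt_pow (i + 1) x).const_mul (c i / ((i : ℝ) + 1)))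
      have h2 : c i / ((i : ℝ) + 1) * (((i + 1 : ℕ) : ℝ) * x ^ (i + 1 - 1)) = c i * x ^ i := by
        have : (i : ℝ) + 1 ≠ 0 := by positivity
        push_cast
        field_simp
      rw [h2] at h1
      exact h1
    set c0 : ℝ := F 0 a - G a with hc0
    refine ⟨fun i => if i = 0 then c0 else c (i - 1) / (((i - 1 : ℕ) : ℝ) + 1), fun x h1 h2 => ?_⟩
    have hs : ∑ i ∈ range (m + 1), (if i = 0 then c0 else c (i - 1) / (((i - 1 : ℕ) : ℝ) + 1)) * x ^ i
        = c0 + G x := by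
      rw [Finset.sum_range_succ']
      simp [hGdef, add_comm]
    rw [hs]
    have hM : 0 ≤ M := le_trans (abs_nonneg _) (h x h1 h2)
    have hmv := Convex.norm_image_sub_le_of_norm_hasDerivWithin_le (f := fun y => F 0 y - G y)
      (f' := fun y => F 1 y - ∑ i ∈ range m, c i * y ^ i) (C := M * (x - a) ^ m)
      (s := Set.Icc a x) (x := a) (y := x)
      (fun y _ => ((hF 0 y).sub (hG y)).hasDerivWithinAt)
      (fun y hy => by
        rw [Real.norm_eq_abs]
        refine le_trans (hc y hy.1 (le_trans hy.2 h2)) ?_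
        apply mul_le_mul_of_nonneg_left _ hM
        exact pow_le_pow_left₀ (by linarith [hy.1]) (by linarith [hy.2]) m)
      (convex_Icc a x) (Set.left_mem_Icc.mpr h1) (Set.right_mem_Icc.mpr h1)
    rw [Real.norm_eq_abs, Real.norm_eq_abs, abs_of_nonneg (by linarith : 0 ≤ x - a)] at hmv
    have e1 : F 0 x - (c0 + G x) = F 0 x - G x - (F 0 a - G a) := by rw [hc0]; ring
    rw [e1, pow_succ, ← mul_assoc]
    exact hmv

lemma UU_eq (Q j₀ j : ℕ) (hQ : 1 ≤ Q) :
    UU j₀ j = (((j : ℝ) ^ (2 * Q)) / (j₀ : ℝ) ^ (2 * Q)) ^ (1 / (4 * (Q : ℝ))) := by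
  have hQ' : (Q : ℝ) ≠ 0 := by
    have : Q ≠ 0 := by omega
    exact_mod_cast this
  have h0 : 0 ≤ (j : ℝ) / j₀ := by positivity
  rw [UU, ← div_pow, ← Real.rpow_natCast, ← Real.rpow_mul h0, Real.sqrt_eq_rpow]
  congr 1
  push_cast
  field_simp
  ring

lemma node_mem {Q j₀ j n : ℕ} (hQ : 1 ≤ Q) (hn : n ∈ CC Q j) :
    UU j₀ j ≤ vv Q j₀ n ∧ vv Q j₀ n ≤ UU j₀ (j + 1) := by
  rw [CC, Finset.mem_Ioc] at hn
  have h1 : ((j : ℝ) ^ (2 * Q)) ≤ n := by exact_mod_cast hn.1.le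
  have h2 : (n : ℝ) ≤ ((j + 1 : ℕ) : ℝ) ^ (2 * Q) := by exact_mod_cast hn.2
  rw [UU_eq Q j₀ j hQ, UU_eq Q j₀ (j + 1) hQ, vv]
  constructor
  · apply Real.rpow_le_rpow (by positivity) _ (by positivity)
    gcongr
  · apply Real.rpow_le_rpow (by positivity) _ (by positivity)
    gcongr

theorem taskDef : TaskDef := by
  intro hk1 hk2 Q j₀ C a0 w hQ hj₀ W j hj u hu1 hu2 v hv
  have hj₀' : (1 : ℝ) ≤ j₀ := by exact_mod_cast hj₀
  have hjj : (j₀ : ℝ) ≤ j := by exact_mod_cast hj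
  have ha : 0 < UU j₀ j := by
    rw [UU]
    apply Real.sqrt_pos.mpr
    apply div_pos <;> linarith
  set a := UU j₀ j with hadef
  set b := UU j₀ (j + 1) with hbdef
  have hab : a ≤ b := le_trans hu1 hu2
  have hC : 0 ≤ C := le_trans (Finset.sum_nonneg fun _ _ => abs_nonneg _) (W.tot j hj u hu1 hu2)
  have gen : ∀ m : ℕ, 1 ≤ m → m ≤ 4 * Q + 4 → ∀ M : ℝ,
      (∀ ξ, a ≤ ξ → ξ ≤ b → |KK (4 * Q + 4 + m) ξ v| ≤ M) →
      |EE Q j₀ w j u v| ≤ (1 + C) * (M * (b - a) ^ m) := by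
    intro m hm hm2 M hM
    have hM0 : 0 ≤ M := le_trans (abs_nonneg _) (hM u hu1 hu2)
    obtain ⟨c, hc⟩ := taylor_aux a b M m (fun i x => (-1) ^ i * KK (4 * Q + 4 + i) x v)
      (fun i x => by
        have h1 := ((hk1 (4 * Q + 4 + i) (by omega)).1 x v).const_mul ((-1 : ℝ) ^ i)
        have h2 : (-1 : ℝ) ^ i * -(KK (4 * Q + 4 + i + 1) x v)
            = (-1) ^ (i + 1) * KK (4 * Q + 4 + (i + 1)) x v := by
          rw [pow_succ, ← add_assoc]; ring
        rw [h2] at h1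
        exact h1)
      (fun x h1 h2 => by
        rw [abs_mul, abs_pow, abs_neg, abs_one, one_pow, one_mul]
        exact hM x h1 h2)
    simp only [pow_zero, one_mul, add_zero] at hc
    set P : Polynomial ℝ := ∑ i ∈ range m, Polynomial.C (c i) * Polynomial.X ^ i with hP
    have hPe : ∀ x, P.eval x = ∑ i ∈ range m, c i * x ^ i := by
      intro x
      rw [hP, Polynomial.eval_finsetSum]
      simp
    have hPd : P.natDegree < 4 * Q + 4 := by
      refine lt_of_le_of_lt (Polynomial.natDegree_sum_le_of_forall_le _ _ (n := m - 1) ?_) (by omega)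
      intro i hi
      refine le_trans (Polynomial.natDegree_C_mul_X_pow_le _ _) ?_
      have := Finset.mem_range.mp hi
      omega
    have hmom := W.mom j hj u hu1 hu2 P hPd
    have hbd : ∀ x, a ≤ x → x ≤ b → |KK (4 * Q + 4) x v - P.eval x| ≤ M * (b - a) ^ m := by
      intro x h1 h2
      rw [hPe]
      refine le_trans (hc x h1 h2) ?_
      apply mul_le_mul_of_nonneg_left _ hM0
      exact pow_le_pow_left₀ (by linarith) (by linarith) m
    have hEE : EE Q j₀ w j u v = (KK (4 * Q + 4) u v - P.eval u)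
        - ∑ p ∈ CC Q j, w p u * (KK (4 * Q + 4) (vv Q j₀ p) v - P.eval (vv Q j₀ p)) := by
      simp only [mul_sub, Finset.sum_sub_distrib]
      rw [hmom, EE]; ring
    rw [hEE]
    have h1 : |∑ p ∈ CC Q j, w p u * (KK (4 * Q + 4) (vv Q j₀ p) v - P.eval (vv Q j₀ p))|
        ≤ C * (M * (b - a) ^ m) := by
      refine le_trans (Finset.abs_sum_le_sum_abs _ _) ?_
      have h2 : ∀ p ∈ CC Q j, |w p u * (KK (4 * Q + 4) (vv Q j₀ p) v - P.eval (vv Q j₀ p))|
          ≤ |w p u| * (M * (b - a) ^ m) := by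
        intro p hp
        rw [abs_mul]
        apply mul_le_mul_of_nonneg_left _ (abs_nonneg _)
        obtain ⟨n1, n2⟩ := node_mem (j₀ := j₀) hQ hp
        exact hbd _ n1 n2
      refine le_trans (Finset.sum_le_sum h2) ?_
      rw [← Finset.sum_mul]
      apply mul_le_mul_of_nonneg_right (W.tot j hj u hu1 hu2)
      apply mul_nonneg hM0
      exact pow_nonneg (by linarith) m
    have h3 := abs_sub (KK (4 * Q + 4) u v - P.eval u)
      (∑ p ∈ CC Q j, w p u * (KK (4 * Q + 4) (vv Q j₀ p) v - P.eval (vv Q j₀ p)))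
    have h4 := hbd u hu1 hu2
    calc _ ≤ |KK (4 * Q + 4) u v - P.eval u|
          + |∑ p ∈ CC Q j, w p u * (KK (4 * Q + 4) (vv Q j₀ p) v - P.eval (vv Q j₀ p))| := h3
      _ ≤ M * (b - a) ^ m + C * (M * (b - a) ^ m) := add_le_add h4 h1
      _ = (1 + C) * (M * (b - a) ^ m) := by ring
  constructor
  · have h1 := gen (2 * Q + 1) (by omega) (by omega) ((v / a) ^ (3 * Q + 2)) (by
      intro ξ h1 h2
      have hξ : 0 < ξ := lt_of_lt_of_le ha h1
      have h3 := (hk2 (4 * Q + 4 + (2 * Q + 1)) (by omega) ξ v hξ.le hv).2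
      have e1 : 4 * Q + 4 + (2 * Q + 1) - 1 = 2 * (3 * Q + 2) := by omega
      rw [e1] at h3
      have h4 : |KK (4 * Q + 4 + (2 * Q + 1)) ξ v| ≤ (v / ξ) ^ (3 * Q + 2) := by
        apply abs_le_of_sq_le_sq _ (by positivity)
        rw [← pow_mul, mul_comm (3 * Q + 2) 2, div_pow, le_div_iff₀ (by positivity)]
        exact h3
      refine le_trans h4 ?_
      apply pow_le_pow_left₀ (by positivity)
      exact div_le_div_of_nonneg_left hv ha h1)
    calc _ ≤ _ := h1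
      _ = _ := by ring
  · have h1 := gen (4 * Q + 4) (by omega) le_rfl (3 * v ^ (8 * Q + 7)) (by
      intro ξ h1 h2
      have hξ : 0 < ξ := lt_of_lt_of_le ha h1
      have h3 := (hk2 (4 * Q + 4 + (4 * Q + 4)) (by omega) ξ v hξ.le hv).1
      have e1 : 4 * Q + 4 + (4 * Q + 4) - 1 = 8 * Q + 7 := by omega
      rw [e1] at h3
      exact h3)
    calc _ ≤ _ := h1
      _ = _ := by ring

end Pool.Agent.H124R3.BC
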