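import Pool.Agent.H242R3.ES.StmtsK

/-!
H242-ES task K11: connectivity of the vertices and facets away from an edge.
-/

set_option autoImplicit false

open MeasureTheory Finset
open scoped Classical

namespace Pool.Agent.H124R3.ESK11

open Pool.Agent.H242R3.ES

/-- the linear form `x ↦ -B x w` -/
noncomputable def lf {D : ℕ} (w : LV D) : LV D →ₗ[ℝ] ℝ where
  toFun x := -B x w
  map_add' x y := by
    simp only [B, Pi.add_apply, add_mul, Finset.sum_add_distrib]
    ring
  map_smul' c x := by
    simp only [B, Pi.smul_apply, smul_eq_mul, RingHom.id_apply, mul_assoc, ← Finset.mul_sum]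
    ring

theorem face_empty {ι : Type} [Fintype ι] {V : ι → LV 3} (h : GQ 3 V) : Face V ∅ := by
  obtain ⟨w, _, hw⟩ := h.tw
  refine ⟨lf w, fun i => ?_, fun i => ?_⟩
  · change 0 ≤ -B (V i) w
    linarith [hw i]
  · constructor
    · intro hi
      exact absurd hi (Set.notMem_empty i)
    · intro hi
      have h1 : -B (V i) w = 0 := hi
      linarith [hw i]

theorem rk_mono {ι : Type} {V : ι → LV 3} {S T : Set ι} (h : S ⊆ T) : rk V S ≤ rk V T :=
  Submodule.finrank_mono (Submodule.span_mono (Set.image_mono h))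

theorem t : TaskK11 := by
  intro hG2 _ hE hC ι _ V hV o ho M M' h hex
  obtain ⟨hE1, -, -, -, hE5⟩ := hE ι V hV
  -- a facet has a vertex outside `o`
  have hout : ∀ F, Fc V F → ∃ i ∈ F, i ∉ o := by
    intro F hF
    by_contra hc
    push Not at hc
    have h1 := rk_mono (V := V) (show F ⊆ o from hc)
    have h2 := hF.2
    have h3 := ho.2
    omega
  have hM : ∃ i ∈ M, i ∉ o := by
    rcases hex with h1 | ⟨F, hF, hFc, hFo⟩
    · exact h1
    · obtain ⟨i, hi, hio⟩ := hout F hFc
      exact ⟨i, (h i F hFc hi hio hFo).2 hF, hio⟩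
  have hprop : ∀ i k, i ∈ M → i ∉ o → k ∉ o → k ≠ i → Face V {i, k} → k ∈ M := by
    intro i k hi hio hko hki hf
    have he : Ed V {i, k} := (hE1 {i, k}).2 ⟨i, k, hki.symm, rfl, hf⟩
    obtain ⟨F, G, hF, hG, -, heFG, -⟩ := hE5 {i, k} he
    have hiF : i ∈ F ∩ G := by rw [← heFG]; exact Set.mem_insert i {k}
    have hkF : k ∈ F ∩ G := by rw [← heFG]; exact Set.mem_insert_of_mem i rfl
    by_cases hoF : o ⊆ F
    · by_cases hoG : o ⊆ G
      · exfalso
        have h1 : o ⊆ {i, k} := by
          rw [heFG]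
          exact Set.subset_inter hoF hoG
        have h2 : o ⊂ {i, k} := by
          refine ⟨h1, fun h3 => hio (h3 (Set.mem_insert i {k}))⟩
        have h4 := (hG2 ι (LV 3) V o {i, k} ho.1 hf).2.1 h2
        have h5 := ho.2
        have h6 := he.2
        omega
      · exact (h k G hG hkF.2 hko hoG).2 ((h i G hG hiF.2 hio hoG).1 hi)
    · exact (h k F hF hkF.1 hko hoF).2 ((h i F hF hiF.1 hio hoF).1 hi)
  have hall := hC ι (LV 3) V hV.vert (face_empty hV) o ho.1 M hM hprop
  refine ⟨hall, fun F hF hFo => ?_⟩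
  obtain ⟨i, hi, hio⟩ := hout F hF
  exact (h i F hF hi hio hFo).1 (hall i hio)

end Pool.Agent.H124R3.ESK11
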