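import Pool.Agent.H124R3.Inert
import Pool.Agent.H639R3.Z.Layer

set_option autoImplicit false

/-!
Existence of Frobenius elements, elements of trace one.
-/

namespace Pool.Agent.H124R3.ZT

open Pool.Agent.H639R3

/-- existence of a Frobenius element at a valuation ring `w` -/
theorem exists_frob_at {K L A : Type} [Field K] [Field L] [Algebra K L] [IsGalois K L]
    [CommRing A] [IsDedekindDomain A] [Algebra A K] [IsFractionRing A K] [Algebra A L]
    [IsScalarTower A K L] (w : ValuationSubring L) (hA : ∀ a : A, algebraMap A L a ∈ w)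
    (hne : w.comap (algebraMap K L) ≠ ⊤) (p m : ℕ) [Fact p.Prime] [CharP L p]
    (hfix : ∀ a : A, w.valuation ((algebraMap A L a) ^ p ^ m - algebraMap A L a) < 1)
    (hfin : Finite (A ⧸ cent w hA)) :
    ∃ σ : L ≃ₐ[K] L, (∀ a, a ∈ w ↔ σ a ∈ w) ∧ ∀ a ∈ w, w.valuation (σ a - a ^ p ^ m) < 1 := by
  have hp : p.Prime := Fact.out
  have hmemI : ∀ b, IsIntegral A b → b ∈ w := fun b hb => integral_mem w hA b hb
  let B := integralClosure A L
  have hBw : ∀ c : B, algebraMap B L c ∈ w := fun c => hmemI _ c.2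
  let Q : Ideal B := cent w hBw
  have hQ : Q.IsPrime := cent_isPrime w hBw
  have hmemQ : ∀ c : B, c ∈ Q ↔ w.valuation (c : L) < 1 := fun c => mem_cent w hBw c
  have hCB : CharP B p :=
    (RingHom.charP_iff (algebraMap B L) Subtype.val_injective p).mpr inferInstance
  have hunder : Q.under A = cent w hA := by
    ext a
    rw [Ideal.under_def, Ideal.mem_comap, hmemQ, mem_cent]
    rfl
  have hfin' : Finite (A ⧸ Q.under A) := by rw [hunder]; exact hfin
  have hdom : IsDomain (B ⧸ Q) := Ideal.Quotient.isDomain Q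
  have hCQ : CharP (B ⧸ Q) p := by
    have h1 : (p : B ⧸ Q) = 0 := by
      have h2 : (p : B) = 0 := CharP.cast_eq_zero B p
      have h3 := congrArg (Ideal.Quotient.mk Q) h2
      rwa [map_natCast, map_zero] at h3
    exact (CharP.charP_iff_prime_eq_zero hp).mpr h1
  have hER : ExpChar (B ⧸ Q) p := ExpChar.prime hp
  let φ : (B ⧸ Q) →+* (B ⧸ Q) := iterateFrobenius (B ⧸ Q) p m
  have hφ : ∀ x, φ x = x ^ p ^ m := fun x => iterateFrobenius_def p m x
  have hinj : Function.Injective φ := by
    intro x y hxy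
    rw [hφ, hφ] at hxy
    exact (iterateFrobenius_inj (B ⧸ Q) p m) (by rw [iterateFrobenius_def, iterateFrobenius_def]; exact hxy)
  have hsurj : Function.Surjective φ := by
    intro x
    have hint : IsIntegral (A ⧸ Q.under A) x := by
      obtain ⟨b, rfl⟩ := Ideal.Quotient.mk_surjective x
      have h1 : IsIntegral A b := isIntegral_algebraMap_iff (B := L) Subtype.val_injective |>.mp b.2
      have h2 : IsIntegral A (Ideal.Quotient.mk Q b) := h1.map (Ideal.Quotient.mkₐ A Q)
      exact h2.tower_top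
    let S := Algebra.adjoin (A ⧸ Q.under A) {x}
    have hSf : Module.Finite (A ⧸ Q.under A) S :=
      Module.Finite.iff_fg.mpr (IsIntegral.fg_adjoin_singleton hint)
    have hSfin : Finite S := Module.finite_of_finite (A ⧸ Q.under A)
    let ψ : S → S := fun y => y ^ p ^ m
    have hψ : Function.Injective ψ := by
      intro y z hyz
      apply Subtype.ext
      apply hinj
      rw [hφ, hφ]
      exact congrArg Subtype.val hyz
    obtain ⟨y, hy⟩ := (Finite.injective_iff_surjective.mp hψ) ⟨x, Algebra.self_mem_adjoin_singleton _ x⟩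
    exact ⟨y, by rw [hφ]; exact congrArg Subtype.val hy⟩
  let s : (B ⧸ Q) ≃+* (B ⧸ Q) := RingEquiv.ofBijective φ ⟨hinj, hsurj⟩
  have hs1 : ∀ b : B, s (Ideal.Quotient.mk Q b) = Ideal.Quotient.mk Q (b ^ p ^ m) := by
    intro b
    change φ _ = _
    rw [hφ, map_pow]
  obtain ⟨ν, hν⟩ := exists_lift (F := K) (L := L) (A := A) Q hQ s (by
    intro a
    rw [hs1, Ideal.Quotient.eq, hmemQ]
    have h1 := hfix a
    exact h1)
  have hνI : ∀ b : L, IsIntegral A b → IsIntegral A (ν b) := fun b hb =>
    hb.map (ν.restrictScalars A)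
  refine ⟨ν, frob_of_int (K := K) (A := A) w hA hne ν (p ^ m) (pow_pos hp.pos m).ne' ?_⟩
  intro b hb
  have h1 := hν ⟨b, hb⟩ ⟨ν b, hνI b hb⟩ rfl
  rw [hs1, Ideal.Quotient.eq, hmemQ] at h1
  exact h1

end Pool.Agent.H124R3.ZT
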