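import Mathlib

set_option autoImplicit false

namespace Pool.Agent.H124R3

open MvPolynomial

/-- Generic surjectivity of a dominant polynomial map (Chevalley + Nullstellensatz). -/
theorem generic_surj {σ τ : Type} [Finite σ] [Finite τ] (φ : τ → MvPolynomial σ ℂ)
    (hφ : ∀ F : MvPolynomial τ ℂ, aeval φ F = 0 → F = 0)
    (D : MvPolynomial σ ℂ) (hD : D ≠ 0) :
    ∃ P : MvPolynomial τ ℂ, P ≠ 0 ∧ ∀ v : τ → ℂ, eval v P ≠ 0 →
      ∃ u : σ → ℂ, (∀ j, eval u (φ j) = v j) ∧ eval u D ≠ 0 := by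
  classical
  let f : MvPolynomial τ ℂ →+* MvPolynomial σ ℂ := (aeval φ : MvPolynomial τ ℂ →ₐ[ℂ] MvPolynomial σ ℂ)
  have hinj : Function.Injective f := by
    rw [injective_iff_map_eq_zero]
    exact fun F hF => hφ F hF
  have hfp : f.FinitePresentation := by
    refine RingHom.FinitePresentation.of_finiteType.mp ?_
    have h1 : (algebraMap ℂ (MvPolynomial σ ℂ)).FiniteType := by
      rw [RingHom.finiteType_algebraMap]
      infer_instance
    have h2 : f.comp (algebraMap ℂ (MvPolynomial τ ℂ)) = algebraMap ℂ (MvPolynomial σ ℂ) := by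
      ext x
      simp [f]
    rw [← h2] at h1
    exact RingHom.FiniteType.of_comp_finiteType h1
  have hcon := PrimeSpectrum.isConstructible_comap_image hfp
    (PrimeSpectrum.isConstructible_basicOpen (f := D))
  obtain ⟨S, hS⟩ := PrimeSpectrum.exists_constructibleSetData_iff.mpr hcon
  have hbot : (⊥ : PrimeSpectrum (MvPolynomial τ ℂ)) ∈
      PrimeSpectrum.comap f '' (PrimeSpectrum.basicOpen D : Set _) := by
    refine ⟨⊥, ?_, ?_⟩
    · simpa using hD
    · apply PrimeSpectrum.ext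
      change Ideal.comap f ⊥ = ⊥
      exact Ideal.comap_bot_of_injective f hinj
  rw [← hS] at hbot
  simp only [PrimeSpectrum.ConstructibleSetData.toSet, Set.mem_iUnion] at hbot
  obtain ⟨E, hC, hCb⟩ := hbot
  obtain ⟨hg, hf⟩ := hCb
  have hg0 : ∀ i, E.g i = 0 := by
    intro i
    have := hg (Set.mem_range_self i)
    simpa using this
  have hf0 : E.f ≠ 0 := by
    intro h
    apply hf
    rw [PrimeSpectrum.mem_zeroLocus, Set.singleton_subset_iff, h]
    exact Ideal.zero_mem _
  refine ⟨E.f, hf0, fun v hv => ?_⟩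
  let m : PrimeSpectrum (MvPolynomial τ ℂ) :=
    ⟨RingHom.ker (eval v), RingHom.ker_isPrime _⟩
  have hm : m ∈ S.toSet := by
    simp only [PrimeSpectrum.ConstructibleSetData.toSet, Set.mem_iUnion]
    refine ⟨E, hC, ?_, ?_⟩
    · rw [PrimeSpectrum.mem_zeroLocus]
      rintro _ ⟨i, rfl⟩
      rw [hg0 i]
      exact Ideal.zero_mem _
    · rw [PrimeSpectrum.mem_zeroLocus, Set.singleton_subset_iff]
      intro h
      exact hv h
  rw [hS] at hm
  obtain ⟨q, hq, hqm⟩ := hm
  have hDq : D ∉ q.asIdeal := hq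
  have hmem : ∀ j, φ j - C (v j) ∈ q.asIdeal := by
    intro j
    have h1 : X j - C (v j) ∈ m.asIdeal := by
      change eval v _ = 0
      simp
    rw [← hqm] at h1
    have h2 : f (X j - C (v j)) ∈ q.asIdeal := h1
    simpa [f] using h2
  have := q.isPrime
  have hvan := MvPolynomial.IsPrime.vanishingIdeal_zeroLocus (k := ℂ) (K := ℂ) q.asIdeal
  rw [← hvan] at hDq
  rw [mem_vanishingIdeal_iff] at hDq
  push Not at hDq
  obtain ⟨u, hu, hDu⟩ := hDq
  refine ⟨u, fun j => ?_, ?_⟩
  · have := (mem_zeroLocus_iff.1 hu) _ (hmem j)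
    have h3 : eval u (φ j) - v j = 0 := by
      simpa [aeval_eq_eval] using this
    exact sub_eq_zero.1 h3
  · simpa [aeval_eq_eval] using hDu

end Pool.Agent.H124R3
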