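import Pool.Agent.H124R3.Local

set_option autoImplicit false

/-!
If the inertia group of a valuation ring `w` in an infinite Galois extension `L / K` is trivial, then
an automorphism which acts trivially modulo `w` on the integers of a finite subextension `M / K`
fixes `M`.
-/

namespace Pool.Agent.H124R3.ZT

open Pool.Agent.H639R3

theorem fixes_of_triv {K L A : Type} [Field K] [Field L] [Algebra K L] [IsGalois K L]
    [CommRing A] [IsDedekindDomain A] [Algebra A K] [IsFractionRing A K] [Algebra A L]
    [IsScalarTower A K L] (w : ValuationSubring L) (hA : ∀ a : A, algebraMap A L a ∈ w)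
    (hne : w.comap (algebraMap K L) ≠ ⊤) (M : IntermediateField K L) [FiniteDimensional K M]
    (hun : ∀ σ : L ≃ₐ[K] L, (∀ a, a ∈ w ↔ σ a ∈ w) → (∀ a ∈ w, w.valuation (σ a - a) < 1) → σ = 1)
    (ρ : L ≃ₐ[K] L) (hρ : ∀ r ∈ M, IsIntegral A r → w.valuation (ρ r - r) < 1) :
    ∀ a ∈ M, ρ a = a := by
  let _ : Algebra A M := ((algebraMap K M).comp (algebraMap A K)).toAlgebra
  have htowM : IsScalarTower A K M := .of_algebraMap_eq fun _ => rfl
  have htowML : IsScalarTower A M L := .of_algebraMap_eq fun a => by
    rw [IsScalarTower.algebraMap_apply A K L]; rfl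
  have hD : IsDedekindDomain (integralClosure A M) := integralClosure.isDedekindDomain A K (L := M)
  have hFr : IsFractionRing (integralClosure A M) M :=
    integralClosure.isFractionRing_of_finite_extension K M
  have hmemI : ∀ b, IsIntegral A b → b ∈ w := fun b hb => integral_mem w hA b hb
  have hne1 : ∀ O : ValuationSubring L, O.comap (algebraMap K L) ≠ ⊤ →
      O.comap (algebraMap M L) ≠ ⊤ := by
    intro O hO htop
    apply hO
    rw [eq_top_iff]
    intro y _
    have h1 : algebraMap K M y ∈ O.comap (algebraMap M L) := by rw [htop]; trivial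
    exact h1
  have hcompK : (w.comap ((ρ : L ≃ₐ[K] L) : L →+* L)).comap (algebraMap K L) =
      w.comap (algebraMap K L) := by
    ext y
    rw [ValuationSubring.mem_comap, ValuationSubring.mem_comap, ValuationSubring.mem_comap]
    change ρ (algebraMap K L y) ∈ w ↔ _
    rw [AlgEquiv.commutes]
  have hρI : ∀ b, IsIntegral A b → IsIntegral A (ρ b) := fun b hb =>
    hb.map (ρ.restrictScalars A)
  -- (a)
  have heq : w.comap (algebraMap M L) =
      (w.comap ((ρ : L ≃ₐ[K] L) : L →+* L)).comap (algebraMap M L) := by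
    apply eq_of_integral_nonunits (A := A) (F := K)
    · intro a
      rw [ValuationSubring.mem_comap, ← IsScalarTower.algebraMap_apply]
      exact hA a
    · intro a
      rw [ValuationSubring.mem_comap, ValuationSubring.mem_comap, ← IsScalarTower.algebraMap_apply]
      change ρ (algebraMap A L a) ∈ w
      rw [IsScalarTower.algebraMap_apply A K L, AlgEquiv.commutes,
        ← IsScalarTower.algebraMap_apply]
      exact hA a
    · exact hne1 w hne
    · apply hne1
      rw [hcompK]
      exact hne
    · intro c hc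
      have hcL : IsIntegral A (c : L) := by
        have : IsIntegral A (algebraMap M L c) := hc.algebraMap
        exact this
      rw [comap_val_lt_one, comap_val_lt_one, comap_val_lt_one]
      have h1 := hρ c c.2 hcL
      change w.valuation (c : L) < 1 ↔ w.valuation (ρ (c : L)) < 1
      constructor
      · intro h2
        have h3 : ρ (c : L) = (ρ (c : L) - c) + c := by ring
        rw [h3]
        exact (Valuation.map_add _ _ _).trans_lt (max_lt h1 h2)
      · intro h2
        have h3 : (c : L) = ρ (c : L) - (ρ (c : L) - c) := by ring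
        rw [h3]
        exact (Valuation.map_sub _ _ _).trans_lt (max_lt h2 h1)
  -- (b)
  have htowRL : IsScalarTower (integralClosure A M) M L := .of_algebraMap_eq fun _ => rfl
  have htowARL : IsScalarTower A (integralClosure A M) L := .of_algebraMap_eq fun a => by
    rw [IsScalarTower.algebraMap_apply A M L]; rfl
  have hRw : ∀ a : integralClosure A M, algebraMap (integralClosure A M) L a ∈ w := fun a =>
    hmemI _ (a.2.algebraMap)
  obtain ⟨σ, hσ⟩ := exists_aut (F := M) (L := L) (A := integralClosure A M) w
    (w.comap ((ρ : L ≃ₐ[K] L) : L →+* L)) hRw (hne1 w hne) heq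
  have hσ' : ∀ a, ρ a ∈ w ↔ σ a ∈ w := hσ
  set τ : L ≃ₐ[K] L := (σ.restrictScalars K).symm.trans ρ with hτ
  have hτa : ∀ a, τ a = ρ (σ.symm a) := fun a => rfl
  have hτw : ∀ a, τ a ∈ w ↔ a ∈ w := by
    intro a
    rw [hτa, hσ', AlgEquiv.apply_symm_apply]
  have hτv : ∀ a, w.valuation (τ a) < 1 ↔ w.valuation a < 1 := by
    intro a
    rw [val_lt_one_iff, val_lt_one_iff, ← map_inv₀, hτw, map_eq_zero_iff _ τ.injective]
  -- integrality over R is integrality over A
  have hintR : ∀ b : L, IsIntegral (integralClosure A M) b ↔ IsIntegral A b := by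
    intro b
    constructor
    · intro hb
      exact isIntegral_trans (R := A) (A := integralClosure A M) b hb
    · intro hb
      exact hb.tower_top
  have hτI : ∀ b : L, IsIntegral (integralClosure A M) b → IsIntegral (integralClosure A M) (τ b) := by
    intro b hb
    rw [hintR] at hb ⊢
    exact hb.map (τ.restrictScalars A)
  have hτI' : ∀ b : L, IsIntegral (integralClosure A M) b →
      IsIntegral (integralClosure A M) (τ.symm b) := by
    intro b hb
    rw [hintR] at hb ⊢
    exact hb.map (τ.symm.restrictScalars A)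
  let B := integralClosure (integralClosure A M) L
  have hBw : ∀ c : B, algebraMap B L c ∈ w := fun c => hmemI _ ((hintR _).1 c.2)
  let Q : Ideal B := cent w hBw
  have hQ : Q.IsPrime := cent_isPrime w hBw
  have hmemQ : ∀ c : B, c ∈ Q ↔ w.valuation (c : L) < 1 := fun c => mem_cent w hBw c
  let e : B ≃+* B :=
    { toFun := fun b => ⟨τ b, hτI b b.2⟩
      invFun := fun b => ⟨τ.symm b, hτI' b b.2⟩
      left_inv := fun b => Subtype.ext (τ.symm_apply_apply b)
      right_inv := fun b => Subtype.ext (τ.apply_symm_apply b)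
      map_mul' := fun a b => Subtype.ext (map_mul τ _ _)
      map_add' := fun a b => Subtype.ext (map_add τ _ _) }
  have hecoe : ∀ b : B, ((e b : B) : L) = τ b := fun b => rfl
  have heQ : Q = Q.map (e : B →+* B) := by
    have h1 : Q = Q.comap (e.symm : B →+* B) := by
      ext c
      rw [Ideal.mem_comap, hmemQ, hmemQ]
      have h2 := hτv (τ.symm c)
      rw [AlgEquiv.apply_symm_apply] at h2
      exact h2
    conv_lhs => rw [h1]
    exact (Ideal.comap_symm e).trans rfl
  let s : (B ⧸ Q) ≃+* (B ⧸ Q) := Ideal.quotientEquiv Q Q e heQ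
  have hs1 : ∀ b : B, s (Ideal.Quotient.mk Q b) = Ideal.Quotient.mk Q (e b) := fun b => rfl
  obtain ⟨ν, hν⟩ := exists_lift (F := M) (L := L) (A := integralClosure A M) Q hQ s (by
    intro a
    rw [hs1, Ideal.Quotient.eq, hmemQ]
    change w.valuation (τ ((algebraMap M L) (a : M)) - (algebraMap M L) (a : M)) < 1
    rw [hτa]
    have h2 : σ.symm ((algebraMap M L) (a : M)) = (algebraMap M L) (a : M) := AlgEquiv.commutes _ _
    rw [h2]
    exact hρ _ (a : M).2 a.2.algebraMap)
  have hνI : ∀ b : L, IsIntegral A b → IsIntegral A (ν b) := fun b hb =>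
    hb.map (ν.restrictScalars A)
  have hντ : ∀ b : L, IsIntegral A b → w.valuation (ν b - τ b) < 1 := by
    intro b hb
    have h1 := hν ⟨b, (hintR b).2 hb⟩ ⟨ν b, (hintR _).2 (hνI b hb)⟩ rfl
    rw [hs1, Ideal.Quotient.eq, hmemQ] at h1
    exact h1
  have hνv : ∀ b : L, IsIntegral A b → (w.valuation (ν b) < 1 ↔ w.valuation b < 1) := by
    intro b hb
    rw [← hτv b]
    have h1 := hντ b hb
    constructor
    · intro h2
      have h3 : τ b = ν b - (ν b - τ b) := by ring
      rw [h3]
      exact (Valuation.map_sub _ _ _).trans_lt (max_lt h2 h1)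
    · intro h2
      have h3 : ν b = (ν b - τ b) + τ b := by ring
      rw [h3]
      exact (Valuation.map_add _ _ _).trans_lt (max_lt h1 h2)
  set θ : L ≃ₐ[K] L := τ.trans (ν.restrictScalars K).symm with hθ
  have hθa : ∀ a, θ a = ν.symm (τ a) := fun a => rfl
  have hνsI : ∀ b : L, IsIntegral A b → IsIntegral A (ν.symm b) := fun b hb =>
    hb.map (ν.symm.restrictScalars A)
  have hτIA : ∀ b : L, IsIntegral A b → IsIntegral A (τ b) := fun b hb =>
    hb.map (τ.restrictScalars A)
  have hθint : ∀ b, IsIntegral A b → w.valuation (θ b - b) < 1 := by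
    intro b hb
    have h1 : θ b - b = ν.symm (τ b - ν b) := by
      rw [hθa, map_sub, AlgEquiv.symm_apply_apply]
    rw [h1]
    have h2 : IsIntegral A (τ b - ν b) := (hτIA b hb).sub (hνI b hb)
    have h3 := hνv (ν.symm (τ b - ν b)) (hνsI _ h2)
    rw [AlgEquiv.apply_symm_apply] at h3
    rw [← h3]
    have h4 := hντ b hb
    rwa [Valuation.map_sub_swap] at h4
  obtain ⟨h1, h2⟩ := triv_of_int (K := K) (A := A) w hA hne θ hθint
  have h3 := hun θ h1 h2
  intro a ha
  -- ρ a = τ (σ a) = ν (θ (σ a)) = ν (σ a) = a
  have h4 : σ a = a := σ.commutes ⟨a, ha⟩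
  have h5 : ν a = a := ν.commutes ⟨a, ha⟩
  have h6 : ρ a = τ a := by
    rw [hτa]
    have : σ.symm a = a := σ.symm.commutes ⟨a, ha⟩
    rw [this]
  have h7 : τ a = ν (θ a) := by rw [hθa, AlgEquiv.apply_symm_apply]
  rw [h6, h7, h3]
  exact h5

end Pool.Agent.H124R3.ZT
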