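import Pool.Agent.H124R3.Prof

set_option autoImplicit false

/-!
Valuation rings in infinite Galois extensions: localisation, inertia, Frobenius elements.
-/

namespace Pool.Agent.H124R3.ZT

open Pool.Agent.H639R3

section

variable {K L A : Type} [Field K] [Field L] [Algebra K L] [IsGalois K L]
    [CommRing A] [IsDedekindDomain A] [Algebra A K] [IsFractionRing A K] [Algebra A L]
    [IsScalarTower A K L]

omit [IsGalois K L] [IsDedekindDomain A] [IsFractionRing A K] in
theorem val_one_of (w : ValuationSubring L) {x : L} (h : x ∈ w) (h2 : ¬ w.valuation x < 1) :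
    w.valuation x = 1 :=
  le_antisymm ((w.valuation_le_one_iff _).mpr h) (not_lt.mp h2)

omit [IsGalois K L] [IsDedekindDomain A] [IsFractionRing A K] [IsScalarTower A K L] in
theorem int_mem (w : ValuationSubring L) (h : ∀ a : A, algebraMap A L a ∈ w) (z : L)
    (hz : IsIntegral A z) : z ∈ w := integral_mem w h z hz

/-- localisation -/
theorem exists_frac (w : ValuationSubring L) (hA : ∀ a : A, algebraMap A L a ∈ w)
    (hne : w.comap (algebraMap K L) ≠ ⊤) (z : L) (hz : z ∈ w) :
    ∃ b s : L, IsIntegral A b ∧ IsIntegral A s ∧ w.valuation s = 1 ∧ z * s = b := by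
  set M := IntermediateField.adjoin K {z} with hM
  have hfd : FiniteDimensional K M :=
    IntermediateField.adjoin.finiteDimensional (Algebra.IsIntegral.isIntegral z)
  have hzM : z ∈ M := IntermediateField.mem_adjoin_simple_self K z
  let _ : Algebra A M := ((algebraMap K M).comp (algebraMap A K)).toAlgebra
  have htowM : IsScalarTower A K M := .of_algebraMap_eq fun _ => rfl
  have htowML : IsScalarTower A M L := .of_algebraMap_eq fun a => by
    rw [IsScalarTower.algebraMap_apply A K L]; rfl
  have hD : IsDedekindDomain (integralClosure A M) := integralClosure.isDedekindDomain A K (L := M)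
  have hFr : IsFractionRing (integralClosure A M) M :=
    integralClosure.isFractionRing_of_finite_extension K M
  have hO : w.comap (algebraMap M L) ≠ ⊤ := by
    intro htop
    apply hne
    rw [eq_top_iff]
    intro y _
    have h1 : algebraMap K M y ∈ w.comap (algebraMap M L) := by rw [htop]; trivial
    exact h1
  have h0 : ∀ a : A, algebraMap A M a ∈ w.comap (algebraMap M L) := by
    intro a
    rw [ValuationSubring.mem_comap, ← IsScalarTower.algebraMap_apply]
    exact hA a
  have h1 : ∀ a : integralClosure A M, algebraMap (integralClosure A M) M a ∈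
      w.comap (algebraMap M L) := fun a =>
    integral_mem (A := A) (w.comap (algebraMap M L)) h0 (a : M) a.2
  obtain ⟨a, b, hb, hab⟩ := (mem_iff_of_cent (A := integralClosure A M)
    (w.comap (algebraMap M L)) h1 hO ⟨z, hzM⟩).mp hz
  refine ⟨algebraMap M L a, algebraMap M L b, ?_, ?_, ?_, ?_⟩
  · exact a.2.algebraMap
  · exact b.2.algebraMap
  · rw [mem_cent, comap_val_lt_one] at hb
    exact val_one_of w (h1 b) hb
  · have h2 := congrArg (algebraMap M L) hab
    rw [map_mul] at h2
    exact h2

/-- an automorphism which is trivial modulo the maximal ideal on the integral elements is trivial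
modulo the maximal ideal on the valuation ring -/
theorem triv_of_int (w : ValuationSubring L) (hA : ∀ a : A, algebraMap A L a ∈ w)
    (hne : w.comap (algebraMap K L) ≠ ⊤) (θ : L ≃ₐ[K] L)
    (h : ∀ b, IsIntegral A b → w.valuation (θ b - b) < 1) :
    (∀ a, a ∈ w ↔ θ a ∈ w) ∧ ∀ a ∈ w, w.valuation (θ a - a) < 1 := by
  have hmemI : ∀ b, IsIntegral A b → b ∈ w := fun b hb => integral_mem w hA b hb
  have hθI : ∀ b, IsIntegral A b → IsIntegral A (θ b) := fun b hb =>
    hb.map (θ.restrictScalars A)
  have key : ∀ a ∈ w, θ a ∈ w ∧ w.valuation (θ a - a) < 1 := by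
    intro a ha
    obtain ⟨b, s, hb, hs, hs1, hab⟩ := exists_frac (K := K) (A := A) w hA hne a ha
    have hs0 : s ≠ 0 := by
      rintro rfl
      rw [map_zero] at hs1
      exact zero_ne_one hs1
    have hθs : w.valuation (θ s) = 1 := by
      apply val_one_of w (hmemI _ (hθI _ hs))
      intro h1
      have h2 : w.valuation s < 1 := by
        have h3 : s = θ s - (θ s - s) := by ring
        rw [h3]
        exact (Valuation.map_sub _ _ _).trans_lt (max_lt h1 (h s hs))
      rw [hs1] at h2
      exact lt_irrefl _ h2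
    have hθs0 : θ s ≠ 0 := by
      intro h0
      rw [h0, map_zero] at hθs
      exact zero_ne_one hθs
    have hθab : θ a * θ s = θ b := by rw [← map_mul, hab]
    have h1 : θ a - a = ((θ b - b) * s - b * (θ s - s)) * (s * θ s)⁻¹ := by
      field_simp
      linear_combination s * hθab - (θ s) * hab
    constructor
    · have h2 : θ a = θ b * (θ s)⁻¹ := by
        rw [← hθab, mul_assoc, mul_inv_cancel₀ hθs0, mul_one]
      rw [← w.valuation_le_one_iff, h2, map_mul, map_inv₀, hθs, inv_one, mul_one]
      exact (w.valuation_le_one_iff _).mpr (hmemI _ (hθI _ hb))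
    · rw [h1, map_mul, map_inv₀, map_mul w.valuation s, hs1, hθs, one_mul, inv_one, mul_one]
      refine (Valuation.map_sub _ _ _).trans_lt (max_lt ?_ ?_)
      · rw [map_mul, hs1, mul_one]
        exact h b hb
      · rw [map_mul]
        calc w.valuation b * w.valuation (θ s - s) ≤ 1 * w.valuation (θ s - s) := by
              gcongr
              exact (w.valuation_le_one_iff _).mpr (hmemI _ hb)
          _ < 1 := by rw [one_mul]; exact h s hs
  refine ⟨fun a => ⟨fun ha => (key a ha).1, fun ha => ?_⟩, fun a ha => (key a ha).2⟩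
  by_contra hcon
  have ha0 : a ≠ 0 := by
    rintro rfl
    exact hcon w.zero_mem
  have h1 : a⁻¹ ∈ w := (w.mem_or_inv_mem a).resolve_left hcon
  obtain ⟨h2, h3⟩ := key _ h1
  have h4 : w.valuation a⁻¹ < 1 := by
    rw [val_lt_one_iff, inv_inv]
    exact Or.inr hcon
  have h5 : w.valuation (θ a⁻¹) < 1 := by
    have h6 : θ a⁻¹ = (θ a⁻¹ - a⁻¹) + a⁻¹ := by ring
    rw [h6]
    exact (Valuation.map_add _ _ _).trans_lt (max_lt h3 h4)
  have h7 : θ a * θ a⁻¹ = 1 := by rw [← map_mul, mul_inv_cancel₀ ha0, map_one]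
  have h8 := congrArg w.valuation h7
  rw [map_mul, map_one] at h8
  have h9 : w.valuation (θ a) * w.valuation (θ a⁻¹) < 1 := by
    calc w.valuation (θ a) * w.valuation (θ a⁻¹) ≤ 1 * w.valuation (θ a⁻¹) := by
          gcongr
          exact (w.valuation_le_one_iff _).mpr ha
      _ < 1 := by rw [one_mul]; exact h5
  rw [h8] at h9
  exact lt_irrefl _ h9

/-- the same for the Frobenius congruence -/
theorem frob_of_int (w : ValuationSubring L) (hA : ∀ a : A, algebraMap A L a ∈ w)
    (hne : w.comap (algebraMap K L) ≠ ⊤) (θ : L ≃ₐ[K] L) (N : ℕ) (hN0 : N ≠ 0)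
    (h : ∀ b, IsIntegral A b → w.valuation (θ b - b ^ N) < 1) :
    (∀ a, a ∈ w ↔ θ a ∈ w) ∧ ∀ a ∈ w, w.valuation (θ a - a ^ N) < 1 := by
  have hmemI : ∀ b, IsIntegral A b → b ∈ w := fun b hb => integral_mem w hA b hb
  have hθI : ∀ b, IsIntegral A b → IsIntegral A (θ b) := fun b hb =>
    hb.map (θ.restrictScalars A)
  have key : ∀ a ∈ w, θ a ∈ w ∧ w.valuation (θ a - a ^ N) < 1 := by
    intro a ha
    obtain ⟨b, s, hb, hs, hs1, hab⟩ := exists_frac (K := K) (A := A) w hA hne a ha
    have hs0 : s ≠ 0 := by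
      rintro rfl
      rw [map_zero] at hs1
      exact zero_ne_one hs1
    have hθs : w.valuation (θ s) = 1 := by
      apply val_one_of w (hmemI _ (hθI _ hs))
      intro h1
      have h2 : w.valuation (s ^ N) < 1 := by
        have h3 : s ^ N = θ s - (θ s - s ^ N) := by ring
        rw [h3]
        exact (Valuation.map_sub _ _ _).trans_lt (max_lt h1 (h s hs))
      rw [map_pow, hs1, one_pow] at h2
      exact lt_irrefl _ h2
    have hθs0 : θ s ≠ 0 := by
      intro h0
      rw [h0, map_zero] at hθs
      exact zero_ne_one hθs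
    have hθab : θ a * θ s = θ b := by rw [← map_mul, hab]
    have hab' : a ^ N * s ^ N = b ^ N := by rw [← mul_pow, hab]
    have hsN : s ^ N ≠ 0 := pow_ne_zero _ hs0
    have h1 : θ a - a ^ N = ((θ b - b ^ N) * s ^ N - b ^ N * (θ s - s ^ N)) * (s ^ N * θ s)⁻¹ := by
      have e1 : θ a = θ b * (θ s)⁻¹ := by rw [← hθab, mul_assoc, mul_inv_cancel₀ hθs0, mul_one]
      have e2 : a ^ N = b ^ N * (s ^ N)⁻¹ := by
        rw [← hab', mul_assoc, mul_inv_cancel₀ hsN, mul_one]
      rw [e1, e2]
      field_simp
      ring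
    constructor
    · have h2 : θ a = θ b * (θ s)⁻¹ := by
        rw [← hθab, mul_assoc, mul_inv_cancel₀ hθs0, mul_one]
      rw [← w.valuation_le_one_iff, h2, map_mul, map_inv₀, hθs, inv_one, mul_one]
      exact (w.valuation_le_one_iff _).mpr (hmemI _ (hθI _ hb))
    · rw [h1, map_mul, map_inv₀, map_mul w.valuation (s ^ N), map_pow, hs1, hθs, one_pow, one_mul,
        inv_one, mul_one]
      refine (Valuation.map_sub _ _ _).trans_lt (max_lt ?_ ?_)
      · rw [map_mul, map_pow, hs1, one_pow, mul_one]
        exact h b hb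
      · rw [map_mul]
        calc w.valuation (b ^ N) * w.valuation (θ s - s ^ N) ≤ 1 * w.valuation (θ s - s ^ N) := by
              gcongr
              exact (w.valuation_le_one_iff _).mpr (w.pow_mem (hmemI _ hb) N)
          _ < 1 := by rw [one_mul]; exact h s hs
  refine ⟨fun a => ⟨fun ha => (key a ha).1, fun ha => ?_⟩, fun a ha => (key a ha).2⟩
  by_contra hcon
  have ha0 : a ≠ 0 := by
    rintro rfl
    exact hcon w.zero_mem
  have h1 : a⁻¹ ∈ w := (w.mem_or_inv_mem a).resolve_left hcon
  obtain ⟨h2, h3⟩ := key _ h1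
  have h4 : w.valuation a⁻¹ < 1 := by
    rw [val_lt_one_iff, inv_inv]
    exact Or.inr hcon
  have h5 : w.valuation (θ a⁻¹) < 1 := by
    have h6 : θ a⁻¹ = (θ a⁻¹ - (a⁻¹) ^ N) + (a⁻¹) ^ N := by ring
    rw [h6]
    refine (Valuation.map_add _ _ _).trans_lt (max_lt h3 ?_)
    rw [map_pow]
    exact pow_lt_one' h4 hN0
  have h7 : θ a * θ a⁻¹ = 1 := by rw [← map_mul, mul_inv_cancel₀ ha0, map_one]
  have h8 := congrArg w.valuation h7
  rw [map_mul, map_one] at h8
  have h9 : w.valuation (θ a) * w.valuation (θ a⁻¹) < 1 := by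
    calc w.valuation (θ a) * w.valuation (θ a⁻¹) ≤ 1 * w.valuation (θ a⁻¹) := by
          gcongr
          exact (w.valuation_le_one_iff _).mpr ha
      _ < 1 := by rw [one_mul]; exact h5
  rw [h8] at h9
  exact lt_irrefl _ h9

end

end Pool.Agent.H124R3.ZT
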