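import Pool.Agent.H124R3.PartB
import Pool.Agent.H124R3.Gen
import Pool.Agent.H124R3.Jac

set_option autoImplicit false

namespace Pool.Agent.H124R3

open MvPolynomial

theorem mon_eq_monomial {n r : ℕ} (s : Sym (Fin (n + 1)) r) :
    mon s = monomial (Multiset.toFinsupp s.1) (1 : ℂ) := by
  unfold mon
  have h : s.1 = Finsupp.toMultiset (Multiset.toFinsupp s.1) := by simp
  conv_lhs => rw [h]
  rw [Finsupp.toMultiset_map, Finsupp.prod_toMultiset, monomial_eq, C_1, one_mul,
    Finsupp.prod_mapDomain_index (by simp) (by intros; rw [pow_add])]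

theorem toPoly_inj {n r : ℕ} (c : Sym (Fin (n + 1)) r → ℂ) (h : toPoly n r c = 0) : c = 0 := by
  classical
  ext s
  have h1 := congrArg (coeff (Multiset.toFinsupp s.1)) h
  rw [toPoly_apply, coeff_sum, Finset.sum_eq_single s] at h1
  · rw [coeff_smul, mon_eq_monomial, coeff_monomial, if_pos rfl] at h1
    simpa using h1
  · intro b _ hb
    rw [coeff_smul, mon_eq_monomial, coeff_monomial, if_neg, smul_zero]
    intro h2
    exact hb (Subtype.ext (Multiset.toFinsupp.injective h2))
  · simp

section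
variable (n r m : ℕ)

abbrev Vars := (Sym (Fin (n + 1)) r × Sym (Fin (n + 1)) r) ⊕ (Fin m × Fin (n + 1))

noncomputable def phi (q : Fin m × Sym (Fin (n + 1)) r) : MvPolynomial (Vars n r m) ℂ :=
  ∑ t, X (Sum.inl (q.2, t)) * rename (fun k => (Sum.inr (q.1, k) : Vars n r m)) (mon t)

noncomputable def DD : MvPolynomial (Vars n r m) ℂ :=
  (Matrix.of fun s t => (X (Sum.inl (s, t)) : MvPolynomial (Vars n r m) ℂ)).det *
    ∏ i, X (Sum.inr (i, 0))

open Classical in
noncomputable def base (p : Fin m → Fin (n + 1) → ℂ) : Vars n r m → ℂ :=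
  Sum.elim (fun st => if st.1 = st.2 then 1 else 0) (fun ik => p ik.1 ik.2)

end

theorem DD_ne_zero (n r m : ℕ) : DD n r m ≠ 0 := by
  classical
  intro h
  have h1 := congrArg (eval (base n r m (fun _ _ => 1))) h
  unfold DD at h1
  rw [map_mul, RingHom.map_det, map_prod, map_zero] at h1
  have h2 : (eval (base n r m (fun _ _ => 1))).mapMatrix
      (Matrix.of fun s t => (X (Sum.inl (s, t)) : MvPolynomial (Vars n r m) ℂ)) = 1 := by
    ext s t
    simp [base, Matrix.one_apply]
  rw [h2] at h1
  simp [base] at h1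

theorem pderiv_phi_inl {n r m : ℕ} (i : Fin m) (s s0 t0 : Sym (Fin (n + 1)) r) [DecidableEq (Sym (Fin (n + 1)) r)] :
    pderiv (Sum.inl (s0, t0) : Vars n r m) (phi n r m (i, s)) =
      if s = s0 then rename (fun k => (Sum.inr (i, k) : Vars n r m)) (mon t0) else 0 := by
  classical
  unfold phi
  have h0 : ∀ t : Sym (Fin (n + 1)) r, pderiv (Sum.inl (s0, t0) : Vars n r m)
      (rename (fun k => (Sum.inr (i, k) : Vars n r m)) (mon t)) = 0 := by
    intro t
    apply pderiv_eq_zero_of_notMem_vars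
    intro hmem
    have := vars_rename _ _ hmem
    simp at this
  simp only [map_sum, pderiv_mul, h0, mul_zero, add_zero]
  by_cases hs : s = s0
  · rw [if_pos hs, Finset.sum_eq_single t0]
    · rw [hs]
      simp
    · intro b _ hb
      rw [pderiv_X_of_ne, zero_mul]
      intro h
      apply hb
      simpa using congrArg Prod.snd (Sum.inl.inj h)
    · simp
  · rw [if_neg hs]
    refine Finset.sum_eq_zero fun t _ => ?_
    rw [pderiv_X_of_ne, zero_mul]
    intro h
    exact hs (by simpa using congrArg Prod.fst (Sum.inl.inj h))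

theorem pderiv_phi_inr {n r m : ℕ} (p : Fin m → Fin (n + 1) → ℂ) (i i0 : Fin m)
    (k : Fin (n + 1)) (s : Sym (Fin (n + 1)) r) :
    eval (base n r m p) (pderiv (Sum.inr (i0, k) : Vars n r m) (phi n r m (i, s))) =
      if i = i0 then eval (p i) (pderiv k (mon s)) else 0 := by
  classical
  unfold phi
  have h0 : ∀ t : Sym (Fin (n + 1)) r, pderiv (Sum.inr (i0, k) : Vars n r m)
      (X (Sum.inl (s, t)) : MvPolynomial (Vars n r m) ℂ) = 0 := by
    intro t
    apply pderiv_X_of_ne
    simp
  simp only [map_sum, pderiv_mul, h0, zero_mul, zero_add]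
  by_cases hi : i = i0
  · subst hi
    rw [if_pos rfl]
    have hinj : Function.Injective (fun k => (Sum.inr (i, k) : Vars n r m)) := by
      intro a b hab
      simpa using congrArg Prod.snd (Sum.inr.inj hab)
    have h1 : ∀ t : Sym (Fin (n + 1)) r, pderiv (Sum.inr (i, k) : Vars n r m)
        (rename (fun k => (Sum.inr (i, k) : Vars n r m)) (mon t)) =
        rename (fun k => (Sum.inr (i, k) : Vars n r m)) (pderiv k (mon t)) :=
      fun t => pderiv_rename hinj k (mon t)
    simp only [h1, map_mul, eval_X, eval_rename]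
    rw [Finset.sum_eq_single s]
    · have : (base n r m p ∘ fun k => (Sum.inr (i, k) : Vars n r m)) = p i := by
        ext k
        simp [base]
      rw [this]
      simp [base]
    · intro b _ hb
      simp [base, Ne.symm hb]
    · simp
  · rw [if_neg hi]
    refine Finset.sum_eq_zero fun t _ => ?_
    have h1 : pderiv (Sum.inr (i0, k) : Vars n r m)
        (rename (fun k => (Sum.inr (i, k) : Vars n r m)) (mon t)) = 0 := by
      apply pderiv_eq_zero_of_notMem_vars
      intro hmem
      have := vars_rename _ _ hmem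
      simp only [Finset.mem_image] at this
      obtain ⟨a, _, ha⟩ := this
      exact hi (by simpa using congrArg Prod.fst (Sum.inr.inj ha))
    rw [h1, mul_zero, map_zero]

theorem jac_cond {n r : ℕ} (hr : 1 ≤ r) :
    ∃ u0 : Vars n r (Nat.choose (n + r) r + n + 1) → ℂ,
      ∀ v : Fin (Nat.choose (n + r) r + n + 1) × Sym (Fin (n + 1)) r → ℂ,
      (∀ q, ∑ a, v a * eval u0 (pderiv q (phi n r _ a)) = 0) → v = 0 := by
  classical
  set m := Nat.choose (n + r) r + n + 1 with hm
  have hcard : Fintype.card (Fin m) = Fintype.card (Idx n r ⊕ Fin (n + 1)) := by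
    rw [Fintype.card_sum, card_idx, Fintype.card_fin, Fintype.card_fin, hm]
    ring
  obtain ⟨e⟩ := Fintype.card_eq.1 hcard
  let xs : Fin (r + n) → ℂ := fun a => (a : ℕ)
  let cs : Fin (n + 1) → ℂ := fun j => -((j : ℕ) + 1 : ℂ)
  have hx : Function.Injective xs := by
    intro a b hab
    have hab' : ((a : ℕ) : ℂ) = ((b : ℕ) : ℂ) := hab
    have : (a : ℕ) = b := by exact_mod_cast hab'
    exact Fin.ext this
  have hc : Function.Injective cs := by
    intro a b hab
    simp only [cs, neg_inj, add_left_inj] at hab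
    have : (a : ℕ) = b := by exact_mod_cast hab
    exact Fin.ext this
  have hxc : ∀ a j, xs a ≠ cs j := by
    intro a j h
    simp only [xs, cs] at h
    have h1 : ((a : ℕ) : ℂ) + ((j : ℕ) + 1) = 0 := by rw [h]; ring
    have h2 : ((a : ℕ) + ((j : ℕ) + 1) : ℕ) = 0 := by exact_mod_cast h1
    omega
  let p : Fin m → Fin (n + 1) → ℂ := fun i =>
    Sum.elim (fun I => pt xs cs I) (fun j => Pi.single j 1) (e i)
  refine ⟨base n r m p, fun v hv => ?_⟩
  have h1 : ∀ s0 t0 : Sym (Fin (n + 1)) r, ∑ i, v (i, s0) * eval (p i) (mon t0) = 0 := by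
    intro s0 t0
    have := hv (Sum.inl (s0, t0))
    rw [Fintype.sum_prod_type] at this
    rw [← this]
    refine Finset.sum_congr rfl fun i _ => ?_
    rw [Finset.sum_eq_single s0]
    · rw [pderiv_phi_inl, if_pos rfl, eval_rename]
      congr 2
    · intro b _ hb
      rw [pderiv_phi_inl, if_neg hb, map_zero, mul_zero]
    · simp
  have h2 : ∀ i0 k, ∑ s, v (i0, s) * eval (p i0) (pderiv k (mon s)) = 0 := by
    intro i0 k
    have := hv (Sum.inr (i0, k))
    rw [Fintype.sum_prod_type, Finset.sum_eq_single i0] at this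
    · rw [← this]
      refine Finset.sum_congr rfl fun s _ => ?_
      rw [pderiv_phi_inr, if_pos rfl]
    · intro b _ hb
      refine Finset.sum_eq_zero fun s _ => ?_
      rw [pderiv_phi_inr, if_neg hb, mul_zero]
    · simp
  let G : Fin m → MvPolynomial (Fin (n + 1)) ℂ := fun i => toPoly n r (fun s => v (i, s))
  have hG : ∀ i, (G i).IsHomogeneous r := fun i => toPoly_hom _
  have h3 : ∀ F : MvPolynomial (Fin (n + 1)) ℂ, F.IsHomogeneous r →
      ∑ i, C (eval (p i) F) * G i = 0 := by
    intro F hF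
    obtain ⟨f, rfl⟩ := mem_range_toPoly hF
    have h4 : ∀ i, C (eval (p i) (toPoly n r f)) * G i =
        ∑ s, ∑ t, (f t * (v (i, s) * eval (p i) (mon t))) • mon s := by
      intro i
      simp only [G]
      rw [← smul_eq_C_mul, toPoly_apply, toPoly_apply, map_sum, Finset.smul_sum]
      refine Finset.sum_congr rfl fun s _ => ?_
      rw [smul_smul, Finset.sum_mul, Finset.sum_smul]
      refine Finset.sum_congr rfl fun t _ => ?_
      rw [smul_eval]
      congr 1
      ring
    simp only [h4]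
    rw [Finset.sum_comm]
    refine Finset.sum_eq_zero fun s _ => ?_
    rw [Finset.sum_comm]
    refine Finset.sum_eq_zero fun t _ => ?_
    rw [← Finset.sum_smul, ← Finset.mul_sum, h1, mul_zero, zero_smul]
  have h5 : ∀ i k, eval (p i) (pderiv k (G i)) = 0 := by
    intro i k
    simp only [G]
    rw [toPoly_apply, map_sum, map_sum, ← h2 i k]
    refine Finset.sum_congr rfl fun s _ => ?_
    rw [Derivation.map_smul, smul_eval]
  have hp1 : ∀ I, p (e.symm (Sum.inl I)) = pt xs cs I := by
    intro I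
    simp [p]
  have hp2 : ∀ j, p (e.symm (Sum.inr j)) = Pi.single j 1 := by
    intro j
    simp [p]
  obtain ⟨h6, h7⟩ := config_zero xs cs hr hc hx hxc (fun I => G (e.symm (Sum.inl I)))
    (fun j => G (e.symm (Sum.inr j))) (fun j => hG _) (by
      intro F hF
      rw [← h3 F hF, ← Equiv.sum_comp e.symm, Fintype.sum_sum_type]
      simp only [hp1, hp2]) (by
      intro I k
      have := h5 (e.symm (Sum.inl I)) k
      rwa [hp1] at this)
  have h8 : ∀ i, G i = 0 := by
    intro i
    obtain ⟨y, rfl⟩ := e.symm.surjective i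
    rcases y with I | j
    · exact h6 I
    · exact h7 j
  ext ⟨i, s⟩
  exact congrFun (toPoly_inj _ (h8 i)) s

theorem veronese_interpolation (n r : ℕ) (_hn : 1 ≤ n) (hr : 1 ≤ r) :
    ∃ P : MvPolynomial (Fin (Nat.choose (n + r) r + n + 1) × Sym (Fin (n + 1)) r) ℂ,
      P ≠ 0 ∧
      ∀ v : Fin (Nat.choose (n + r) r + n + 1) → Sym (Fin (n + 1)) r → ℂ,
        MvPolynomial.eval (fun p => v p.1 p.2) P ≠ 0 →
        ∃ g : (Sym (Fin (n + 1)) r → ℂ) ≃ₗ[ℂ] (Sym (Fin (n + 1)) r → ℂ),
          ∀ i, ∃ x : Fin (n + 1) → ℂ, x ≠ 0 ∧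
            ∃ c : ℂ, c ≠ 0 ∧ v i = c • g (fun s => (s.1.map x).prod) := by
  classical
  obtain ⟨u0, hu0⟩ := jac_cond (n := n) hr
  obtain ⟨P, hP, hPv⟩ := generic_surj (phi n r (Nat.choose (n + r) r + n + 1))
    (fun F hF => jacobian_dominant_at _ u0 hu0 F hF) (DD n r _) (DD_ne_zero n r _)
  refine ⟨P, hP, fun v hv => ?_⟩
  obtain ⟨u, hu, hD⟩ := hPv _ hv
  let A : Matrix (Sym (Fin (n + 1)) r) (Sym (Fin (n + 1)) r) ℂ :=
    Matrix.of fun s t => u (Sum.inl (s, t))
  unfold DD at hD
  rw [map_mul, RingHom.map_det, map_prod] at hD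
  have hA : (eval u).mapMatrix
      (Matrix.of fun s t => (X (Sum.inl (s, t)) : MvPolynomial (Vars n r _) ℂ)) = A := by
    ext s t
    simp [A]
  rw [hA] at hD
  have hdet : IsUnit A.det := isUnit_iff_ne_zero.2 (left_ne_zero_of_mul hD)
  have hx : ∀ i, u (Sum.inr (i, 0)) ≠ 0 := by
    intro i
    have := Finset.prod_ne_zero_iff.1 (right_ne_zero_of_mul hD) i (Finset.mem_univ i)
    simpa using this
  refine ⟨Matrix.toLinearEquiv' A (A.invertibleOfIsUnitDet hdet), fun i => ?_⟩
  refine ⟨fun k => u (Sum.inr (i, k)), ?_, 1, one_ne_zero, ?_⟩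
  · intro h
    exact hx i (congrFun h 0)
  · rw [one_smul]
    ext s
    have h1 := hu (i, s)
    simp only [phi, map_sum, map_mul, eval_X, eval_rename, eval_mon] at h1
    rw [← h1]
    rfl

end Pool.Agent.H124R3
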