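import Pool.Agent.H39R3.PB.Basic

/-!
# Palindromes in base `b`, task T4: moment `2 b` of an off-centre block (two-dimensional large
sieve), port of `Pool.Agent.H831R2.PalT4` (base 10) to a general base.
-/

set_option autoImplicit false

namespace Pool.Agent.H124R3.PBT4

open Finset Pool.Agent.Helper112 Pool.Agent.H39R3.PB

/-- coefficients of `(1 + x + ... + x^(b-1))^b` -/
noncomputable def w (b s : ℕ) : ℕ := ((∑ i ∈ range b, (Polynomial.X : Polynomial ℕ) ^ i) ^ b).coeff s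

lemma natDegree_le (b : ℕ) :
    ((∑ i ∈ range b, (Polynomial.X : Polynomial ℕ) ^ i) ^ b).natDegree ≤ b * (b - 1) := by
  refine Polynomial.natDegree_pow_le.trans (Nat.mul_le_mul_left b ?_)
  apply Polynomial.natDegree_sum_le_of_forall_le
  intro i hi
  rw [mem_range] at hi
  exact (Polynomial.natDegree_X_pow_le i).trans (by omega)

lemma pow_b (b : ℕ) (z : ℂ) :
    (∑ m ∈ range b, z ^ m) ^ b = ∑ s ∈ range (b * (b - 1) + 1), (w b s : ℂ) * z ^ s := by
  have h1 : Polynomial.aeval z ((∑ i ∈ range b, (Polynomial.X : Polynomial ℕ) ^ i) ^ b) =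
      (∑ m ∈ range b, z ^ m) ^ b := by
    simp only [map_pow, map_sum, Polynomial.aeval_X]
  rw [← h1, Polynomial.aeval_eq_sum_range' (Nat.lt_succ_of_le (natDegree_le b))]
  apply sum_congr rfl
  intro s _
  rw [nsmul_eq_mul]
  rfl

lemma E_le {b : ℕ} (hb : 2 ≤ b) : ∑ s ∈ range (b * (b - 1) + 1), (w b s : ℝ) ^ 2 ≤
    ∑ s ∈ range (b * b), (w b s : ℝ) ^ 2 := by
  apply sum_le_sum_of_subset_of_nonneg
  · intro s hs
    rw [mem_range] at hs ⊢
    obtain ⟨c, rfl⟩ := Nat.exists_eq_add_of_le hb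
    have : (2 + c) * (2 + c - 1) + (2 + c) = (2 + c) * (2 + c) := by
      rw [show 2 + c - 1 = 1 + c by omega]; ring
    omega
  · intro s _ _
    positivity

/-! ### injectivity -/

lemma digits_inj {b : ℤ} (hb : 2 ≤ b) : ∀ (J : ℕ) (z : ℕ → ℤ), (∀ j < J, |z j| ≤ b * (b - 1)) →
    ∑ j ∈ range J, z j * b ^ j = 0 → ∑ j ∈ range J, z j * b ^ (J - 1 - j) = 0 →
    ∀ j < J, z j = 0 := by
  intro J
  have hb0 : 0 < b := by omega
  induction J with
  | zero =>
    intro z _ _ _ j hj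
    omega
  | succ J ih =>
    intro z hz h1 h2
    have hbound : ∀ K ≤ J, |∑ j ∈ range K, z j * b ^ j| ≤ b * b ^ K - b := by
      intro K
      induction K with
      | zero => intro _; simp
      | succ K ihK =>
        intro hK
        rw [sum_range_succ]
        have h3 := ihK (by omega)
        have h4 := hz K (by omega)
        have h5 : |z K * b ^ K| ≤ b * (b - 1) * b ^ K := by
          rw [abs_mul, abs_of_pos (by positivity : (0 : ℤ) < b ^ K)]
          exact mul_le_mul_of_nonneg_right h4 (by positivity)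
        calc |∑ j ∈ range K, z j * b ^ j + z K * b ^ K|
            ≤ |∑ j ∈ range K, z j * b ^ j| + |z K * b ^ K| := abs_add_le _ _
          _ ≤ (b * b ^ K - b) + b * (b - 1) * b ^ K := add_le_add h3 h5
          _ = b * b ^ (K + 1) - b := by ring
    have h2' : b * ∑ j ∈ range J, z j * b ^ (J - 1 - j) + z J = 0 := by
      rw [← h2, sum_range_succ, mul_sum]
      congr 1
      · apply sum_congr rfl
        intro j hj
        rw [mem_range] at hj
        rw [show J + 1 - 1 - j = (J - 1 - j) + 1 by omega, pow_succ]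
        ring
      · simp
    have h1' : ∑ j ∈ range J, z j * b ^ j + z J * b ^ J = 0 := by
      rw [← h1, sum_range_succ]
    have h3 := hbound J le_rfl
    have h4 : |z J| * b ^ J ≤ b * b ^ J - b := by
      have h5 : z J * b ^ J = - ∑ j ∈ range J, z j * b ^ j := by linarith
      calc |z J| * b ^ J = |z J * b ^ J| := by
            rw [abs_mul, abs_of_pos (by positivity : (0 : ℤ) < b ^ J)]
        _ = |∑ j ∈ range J, z j * b ^ j| := by rw [h5, abs_neg]
        _ ≤ _ := h3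
    have hp : (0 : ℤ) < b ^ J := by positivity
    have h5 : |z J| < b := by
      by_contra hcon
      push Not at hcon
      nlinarith
    have h6 : z J = 0 := by
      apply Int.eq_zero_of_abs_lt_dvd _ h5
      exact ⟨-∑ j ∈ range J, z j * b ^ (J - 1 - j), by linarith⟩
    rw [h6] at h1' h2'
    have h8 : ∑ j ∈ range J, z j * b ^ (J - 1 - j) = 0 := by
      have : b * ∑ j ∈ range J, z j * b ^ (J - 1 - j) = 0 := by linarith
      exact (mul_eq_zero.1 this).resolve_left hb0.ne'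
    have h7 := ih z (fun j hj => hz j (by omega)) (by linarith) h8
    intro j hj
    rcases Nat.lt_succ_iff_lt_or_eq.mp hj with h | h
    · exact h7 j h
    · rw [h]; exact h6

/-! ### two-dimensional large sieve -/

lemma two_dim {ι : Type*} [DecidableEq ι] (P : Finset ι) (X Y : ι → ℕ) (W : ι → ℝ) (B F H : ℕ)
    (hX : ∀ p ∈ P, X p < B) (hY : ∀ p ∈ P, Y p < B)
    (hinj : ∀ p ∈ P, ∀ p' ∈ P, X p = X p' → Y p = Y p' → p = p') :
    ∑ f ∈ Icc 1 F, ∑ a ∈ (range f).filter (fun a => a.Coprime f),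
      ‖∑ p ∈ P, (W p : ℂ) * ee (((Y p + H * X p : ℕ) : ℝ) * ((a : ℝ) / f))‖ ^ 2 ≤
      B * (6 * (B + (F : ℝ) ^ 2)) * ∑ p ∈ P, W p ^ 2 := by
  -- coefficients
  set c : ℕ → ℕ → ℂ := fun x n => ∑ p ∈ P.filter (fun p => X p = x ∧ Y p + 1 = n), (W p : ℂ) with hc
  have h1 : ∀ f a : ℕ,
      ‖∑ p ∈ P, (W p : ℂ) * ee (((Y p + H * X p : ℕ) : ℝ) * ((a : ℝ) / f))‖ ^ 2 ≤
        B * ∑ x ∈ range B, ‖∑ n ∈ Icc 1 B, c x n * ee (n * a / f)‖ ^ 2 := by
    intro f a
    have e1 : ∑ p ∈ P, (W p : ℂ) * ee (((Y p + H * X p : ℕ) : ℝ) * ((a : ℝ) / f)) =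
        ∑ x ∈ range B, ee (((H * x : ℕ) : ℝ) * ((a : ℝ) / f)) * ee (-((a : ℝ) / f)) *
          ∑ n ∈ Icc 1 B, c x n * ee (n * a / f) := by
      rw [← sum_fiberwise_of_maps_to (s := P) (t := range B) (g := X)
        (fun p hp => mem_range.mpr (hX p hp))]
      apply sum_congr rfl
      intro x _
      rw [← sum_fiberwise_of_maps_to (s := P.filter (fun p => X p = x)) (t := Icc 1 B)
        (g := fun p => Y p + 1) (fun p hp => by
          rw [mem_filter] at hp
          rw [mem_Icc]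
          have := hY p hp.1
          omega), mul_sum]
      apply sum_congr rfl
      intro n _
      rw [hc, filter_filter]
      simp only
      rw [sum_mul, mul_sum]
      apply sum_congr rfl
      intro p hp
      rw [mem_filter] at hp
      obtain ⟨_, hx, hn⟩ := hp
      have e2 : ee (((Y p + H * X p : ℕ) : ℝ) * ((a : ℝ) / f)) =
          ee (((H * x : ℕ) : ℝ) * ((a : ℝ) / f)) * ee (-((a : ℝ) / f)) * ee (n * a / f) := by
        rw [← ls_ee_add, ← ls_ee_add]
        congr 1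
        rw [← hx, ← hn]
        push_cast
        ring
      rw [e2]
      ring
    rw [e1]
    calc ‖∑ x ∈ range B, ee (((H * x : ℕ) : ℝ) * ((a : ℝ) / f)) * ee (-((a : ℝ) / f)) *
          ∑ n ∈ Icc 1 B, c x n * ee (n * a / f)‖ ^ 2
        ≤ (∑ x ∈ range B, ‖∑ n ∈ Icc 1 B, c x n * ee (n * a / f)‖) ^ 2 := by
          apply pow_le_pow_left₀ (norm_nonneg _)
          refine (norm_sum_le _ _).trans (sum_le_sum fun x _ => ?_)
          rw [norm_mul, norm_mul, ls_norm_ee, ls_norm_ee, one_mul, one_mul]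
      _ ≤ _ := by
          have := sq_sum_le_card_mul_sum_sq (s := range B)
            (f := fun x => ‖∑ n ∈ Icc 1 B, c x n * ee (n * a / f)‖)
          rwa [card_range] at this
  calc ∑ f ∈ Icc 1 F, ∑ a ∈ (range f).filter (fun a => a.Coprime f),
      ‖∑ p ∈ P, (W p : ℂ) * ee (((Y p + H * X p : ℕ) : ℝ) * ((a : ℝ) / f))‖ ^ 2
      ≤ ∑ f ∈ Icc 1 F, ∑ a ∈ (range f).filter (fun a => a.Coprime f),
        B * ∑ x ∈ range B, ‖∑ n ∈ Icc 1 B, c x n * ee (n * a / f)‖ ^ 2 :=
        sum_le_sum fun f _ => sum_le_sum fun a _ => h1 f a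
    _ = B * ∑ x ∈ range B, ∑ f ∈ Icc 1 F, ∑ a ∈ (range f).filter (fun a => a.Coprime f),
        ‖∑ n ∈ Icc 1 B, c x n * ee (n * a / f)‖ ^ 2 := by
        simp_rw [← mul_sum]
        congr 1
        rw [sum_comm]
        apply sum_congr rfl
        intro f _
        rw [sum_comm]
    _ ≤ B * ∑ x ∈ range B, (6 * (B + (F : ℝ) ^ 2) * ∑ n ∈ Icc 1 B, ‖c x n‖ ^ 2) := by
        gcongr with x _
        exact additive_large_sieve B F (c x)
    _ = B * (6 * (B + (F : ℝ) ^ 2)) * ∑ x ∈ range B, ∑ n ∈ Icc 1 B, ‖c x n‖ ^ 2 := by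
        rw [← mul_sum]; ring
    _ = B * (6 * (B + (F : ℝ) ^ 2)) * ∑ p ∈ P, W p ^ 2 := by
        congr 1
        rw [← sum_fiberwise_of_maps_to (s := P) (t := range B) (g := X)
          (fun p hp => mem_range.mpr (hX p hp))]
        apply sum_congr rfl
        intro x _
        rw [← sum_fiberwise_of_maps_to (s := P.filter (fun p => X p = x)) (t := Icc 1 B)
          (g := fun p => Y p + 1) (fun p hp => by
            rw [mem_filter] at hp
            rw [mem_Icc]
            have := hY p hp.1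
            omega)]
        apply sum_congr rfl
        intro n _
        rw [hc, filter_filter]
        simp only
        rcases (P.filter (fun p => X p = x ∧ Y p + 1 = n)).eq_empty_or_nonempty with h0 | ⟨p, hp⟩
        · rw [h0]; simp
        · have hs : P.filter (fun p => X p = x ∧ Y p + 1 = n) = {p} := by
            rw [eq_singleton_iff_unique_mem]
            refine ⟨hp, fun p' hp' => ?_⟩
            rw [mem_filter] at hp hp'
            exact hinj p' hp'.1 p hp.1 (by omega) (by omega)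
          rw [hs, sum_singleton, sum_singleton, Complex.norm_real, Real.norm_eq_abs, sq_abs]

/-! ### the product formula -/

/-- the exponent set -/
def PE (b J : ℕ) : Finset (Fin J → ℕ) := Fintype.piFinset fun _ => range (b * (b - 1) + 1)

/-- first digit sum -/
def XX (b J : ℕ) (p : Fin J → ℕ) : ℕ := ∑ j : Fin J, p j * b ^ (j : ℕ)

/-- reversed digit sum -/
def YY (b J : ℕ) (p : Fin J → ℕ) : ℕ := ∑ j : Fin J, p j * b ^ (J - 1 - (j : ℕ))

/-- weights -/
noncomputable def WW (b J : ℕ) (p : Fin J → ℕ) : ℝ := ∏ j : Fin J, (w b (p j) : ℝ)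

lemma ee_sum {ι : Type*} (s : Finset ι) (f : ι → ℝ) : ee (∑ j ∈ s, f j) = ∏ j ∈ s, ee (f j) := by
  classical
  induction s using Finset.induction_on with
  | empty => simp [ls_ee_zero]
  | insert a s ha ih => rw [sum_insert ha, prod_insert ha, ls_ee_add, ih]

lemma ph_pow (b : ℕ) (β : ℝ) : ph b β ^ (2 * b) =
    ‖∑ s ∈ range (b * (b - 1) + 1), (w b s : ℂ) * ee β ^ s‖ ^ 2 / (b : ℝ) ^ (2 * b) := by
  rw [← pow_b, norm_pow, ph, div_pow]
  have : ∑ m ∈ range b, ee (m * β) = ∑ m ∈ range b, ee β ^ m :=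
    sum_congr rfl fun m _ => ls_ee_nat_mul m β
  rw [this, ← pow_mul, mul_comm 2 b]

lemma Ps_pow (b A J : ℕ) (hA : 1 ≤ A) (α : ℝ) :
    Ps b (A + J - 1) A J α ^ (2 * b) =
      ‖∑ p ∈ PE b J, (WW b J p : ℂ) *
        ee (((YY b J p + b ^ (2 * A + J - 1) * XX b J p : ℕ) : ℝ) * α)‖ ^ 2 /
        (b : ℝ) ^ (2 * b * J) := by
  set β : Fin J → ℝ := fun j => (fr b (A + J - 1) (A + (j : ℕ)) : ℝ) * α with hβ
  have h1 : Ps b (A + J - 1) A J α ^ (2 * b) = ∏ j : Fin J, ph b (β j) ^ (2 * b) := by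
    rw [prod_pow, Ps, prod_range]
  have h2 : ∏ j : Fin J, (∑ s ∈ range (b * (b - 1) + 1), (w b s : ℂ) * ee (β j) ^ s) =
      ∑ p ∈ PE b J, (WW b J p : ℂ) *
        ee (((YY b J p + b ^ (2 * A + J - 1) * XX b J p : ℕ) : ℝ) * α) := by
    rw [prod_univ_sum]
    apply sum_congr rfl
    intro p _
    rw [prod_mul_distrib, WW]
    push_cast
    congr 1
    have h3 : ∏ j : Fin J, ee (β j) ^ p j = ee (∑ j : Fin J, (p j : ℝ) * β j) := by
      rw [ee_sum]
      exact prod_congr rfl fun j _ => (ls_ee_nat_mul _ _).symm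
    rw [h3]
    congr 1
    rw [YY, XX]
    push_cast
    rw [mul_sum, ← sum_add_distrib, sum_mul]
    apply sum_congr rfl
    intro j _
    have hj := j.isLt
    have h4 : fr b (A + J - 1) (A + (j : ℕ)) = b ^ (J - 1 - (j : ℕ)) +
        b ^ (2 * A + J - 1) * b ^ (j : ℕ) := by
      unfold fr
      rw [if_neg (by omega), ← pow_add, add_comm]
      congr 2 <;> omega
    rw [hβ]
    simp only
    rw [h4]
    push_cast
    ring
  rw [h1, ← h2, norm_prod, ← prod_pow]
  have h5 : ∀ j : Fin J, ph b (β j) ^ (2 * b) =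
      ‖∑ s ∈ range (b * (b - 1) + 1), (w b s : ℂ) * ee (β j) ^ s‖ ^ 2 / (b : ℝ) ^ (2 * b) :=
    fun j => ph_pow b _
  simp_rw [h5]
  rw [prod_div_distrib, prod_const, card_univ, Fintype.card_fin, ← pow_mul]

lemma sum_sq_WW {b : ℕ} (hb : 2 ≤ b) (J : ℕ) : ∑ p ∈ PE b J, WW b J p ^ 2 ≤
    (∑ s ∈ range (b * b), (w b s : ℝ) ^ 2) ^ J := by
  have h1 : ∑ p ∈ PE b J, WW b J p ^ 2 =
      ∏ _j : Fin J, ∑ s ∈ range (b * (b - 1) + 1), (w b s : ℝ) ^ 2 := by
    rw [prod_univ_sum]
    apply sum_congr rfl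
    intro p _
    rw [WW, ← prod_pow]
  rw [h1, prod_const, card_univ, Fintype.card_fin]
  exact pow_le_pow_left₀ (sum_nonneg fun _ _ => by positivity) (E_le hb) J

lemma sumD {b : ℕ} (hb : 2 ≤ b) (J : ℕ) : ∑ j ∈ range J, b * (b - 1) * b ^ j + b = b * b ^ J := by
  obtain ⟨c, rfl⟩ := Nat.exists_eq_add_of_le hb
  rw [show 2 + c - 1 = 1 + c by omega]
  induction J with
  | zero => simp
  | succ J ih =>
    rw [sum_range_succ, add_right_comm, ih, pow_succ]
    ring

lemma mem_PE {b J : ℕ} {p : Fin J → ℕ} (hp : p ∈ PE b J) (j : Fin J) : p j ≤ b * (b - 1) := by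
  have := Fintype.mem_piFinset.mp hp j
  rw [mem_range] at this
  omega

lemma XX_lt {b : ℕ} (hb : 2 ≤ b) (J : ℕ) (p : Fin J → ℕ) (hp : p ∈ PE b J) :
    XX b J p < b * b ^ J := by
  have h1 : XX b J p ≤ ∑ j ∈ range J, b * (b - 1) * b ^ j := by
    rw [XX, ← Fin.sum_univ_eq_sum_range (fun j => b * (b - 1) * b ^ j)]
    exact sum_le_sum fun j _ => Nat.mul_le_mul_right _ (mem_PE hp j)
  have := sumD hb J
  omega

lemma YY_lt {b : ℕ} (hb : 2 ≤ b) (J : ℕ) (p : Fin J → ℕ) (hp : p ∈ PE b J) :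
    YY b J p < b * b ^ J := by
  have h1 : YY b J p ≤ ∑ j ∈ range J, b * (b - 1) * b ^ (J - 1 - j) := by
    rw [YY, ← Fin.sum_univ_eq_sum_range (fun j => b * (b - 1) * b ^ (J - 1 - j))]
    exact sum_le_sum fun j _ => Nat.mul_le_mul_right _ (mem_PE hp j)
  rw [sum_range_reflect (fun j => b * (b - 1) * b ^ j) J] at h1
  have := sumD hb J
  omega

lemma XY_inj {b : ℕ} (hb : 2 ≤ b) (J : ℕ) (p : Fin J → ℕ) (hp : p ∈ PE b J) (p' : Fin J → ℕ)
    (hp' : p' ∈ PE b J) (h1 : XX b J p = XX b J p') (h2 : YY b J p = YY b J p') : p = p' := by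
  set z : ℕ → ℤ := fun j => if h : j < J then (p ⟨j, h⟩ : ℤ) - p' ⟨j, h⟩ else 0 with hz
  have hzj : ∀ j : Fin J, z j = (p j : ℤ) - p' j := fun j => by
    rw [hz]
    simp only
    rw [dif_pos j.isLt]
  have e1 : ∑ j ∈ range J, z j * (b : ℤ) ^ j = (XX b J p : ℤ) - XX b J p' := by
    rw [← Fin.sum_univ_eq_sum_range (fun j => z j * (b : ℤ) ^ j), XX, XX]
    push_cast
    rw [← sum_sub_distrib]
    exact sum_congr rfl fun j _ => by rw [hzj]; ring
  have e2 : ∑ j ∈ range J, z j * (b : ℤ) ^ (J - 1 - j) = (YY b J p : ℤ) - YY b J p' := by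
    rw [← Fin.sum_univ_eq_sum_range (fun j => z j * (b : ℤ) ^ (J - 1 - j)), YY, YY]
    push_cast
    rw [← sum_sub_distrib]
    exact sum_congr rfl fun j _ => by rw [hzj]; ring
  have hD : ((b * (b - 1) : ℕ) : ℤ) = (b : ℤ) * ((b : ℤ) - 1) := by
    rw [Nat.cast_mul, Nat.cast_sub (by omega)]
    rfl
  have h3 := digits_inj (b := (b : ℤ)) (by exact_mod_cast hb) J z (fun j hj => by
    have := hzj ⟨j, hj⟩
    simp only at this
    rw [this, abs_le, ← hD]
    have ha := mem_PE hp ⟨j, hj⟩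
    have hb := mem_PE hp' ⟨j, hj⟩
    constructor <;> omega) (by rw [e1, h1]; ring) (by rw [e2, h2]; ring)
  funext j
  have := h3 j j.isLt
  rw [hzj] at this
  omega

/-- T4: moment `2 b` of an off-centre block -/
theorem taskT4 : TaskT4 := by
  intro b hb L A J Q hA hAJ hQ h1 _
  set M := A + J - 1 with hM
  have hb0 : (0 : ℝ) < b := by
    have : 0 < b := by omega
    exact_mod_cast this
  -- dilation
  have hdil : pts b Q (fun α => Ps b L A J α ^ (2 * b)) = pts b Q (fun α => Ps b M A J α ^ (2 * b)) := by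
    unfold pts
    apply sum_congr rfl
    intro q hq
    rw [mem_filter] at hq
    rw [← dilate (coprime_b hq.2) (L - M) (fun α => Ps b M A J α ^ (2 * b))
      (fun x n => by rw [Ps_add_int])]
    apply sum_congr rfl
    intro a _
    show Ps b L A J ((a : ℝ) / q) ^ (2 * b) = _
    rw [Ps_scale (L := L) (M := M) (A := A) (J := J) (by omega) (by omega)]
  rw [hdil]
  set E : ℝ := ∑ s ∈ range (b * b), (w b s : ℝ) ^ 2 with hE
  have hE0 : 0 ≤ E := sum_nonneg fun _ _ => by positivity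
  have hmain : pts b Q (fun α => Ps b M A J α ^ (2 * b)) ≤
      (((b * b ^ J : ℕ) : ℝ) * (6 * (((b * b ^ J : ℕ) : ℝ) + ((2 * Q : ℕ) : ℝ) ^ 2)) *
        E ^ J) / (b : ℝ) ^ (2 * b * J) := by
    unfold pts
    simp only
    simp_rw [hM, Ps_pow b A J hA, ← sum_div]
    apply div_le_div_of_nonneg_right _ (by positivity)
    have htd := two_dim (PE b J) (XX b J) (YY b J) (WW b J) (b * b ^ J) (2 * Q)
      (b ^ (2 * A + J - 1)) (XX_lt hb J) (YY_lt hb J) (XY_inj hb J)
    refine le_trans ?_ (htd.trans ?_)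
    · apply sum_le_sum_of_subset_of_nonneg
      · intro q hq
        rw [mem_filter, mem_Ico] at hq
        rw [mem_Icc]
        omega
      · intro f _ _
        exact sum_nonneg fun a _ => by positivity
    · exact mul_le_mul_of_nonneg_left (sum_sq_WW hb J) (by positivity)
  refine hmain.trans ?_
  have hQ2 : ((Q : ℝ)) ^ 2 ≤ (b : ℝ) ^ J := by exact_mod_cast h1
  have hT : (0 : ℝ) < (b : ℝ) ^ J := by positivity
  have hPP : PP b = E / (b : ℝ) ^ (2 * b) := rfl
  calc (((b * b ^ J : ℕ) : ℝ) * (6 * (((b * b ^ J : ℕ) : ℝ) + ((2 * Q : ℕ) : ℝ) ^ 2)) *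
        E ^ J) / (b : ℝ) ^ (2 * b * J)
      ≤ (b * (b : ℝ) ^ J * (6 * ((b + 4) * (b : ℝ) ^ J)) * E ^ J) / (b : ℝ) ^ (2 * b * J) := by
        apply div_le_div_of_nonneg_right _ (by positivity)
        apply mul_le_mul_of_nonneg_right _ (by positivity)
        push_cast
        apply mul_le_mul_of_nonneg_left _ (by positivity)
        nlinarith
    _ = 6 * b * (b + 4) * ((b : ℝ) ^ 2 * PP b) ^ J := by
        rw [hPP, mul_pow, div_pow, ← pow_mul, ← pow_mul]
        field_simp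
        ring

end Pool.Agent.H124R3.PBT4
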