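import Pool.Agent.H862R3.Prim.Stmts

/-!
Project PRIMVAR (MP_6f5fa7_al), task M1: Maschke for an invariant section killed by a prime
coprime to the order of the acting group.
-/

set_option autoImplicit false

namespace Pool.Agent.H124R3.PV

open Pool.Agent.H862R3.Prim

theorem exists_projV {V : Type} [AddCommGroup V] (q : ℕ) [Fact q.Prime] [Module (ZMod q) V]
    (R' : AddSubgroup V) : ∃ g : V →+ V, (∀ v, g v ∈ R') ∧ ∀ v ∈ R', g v = v := by
  obtain ⟨g, hg⟩ := LinearMap.exists_extend (LinearMap.id :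
    (AddSubgroup.toZModSubmodule q R') →ₗ[ZMod q] (AddSubgroup.toZModSubmodule q R'))
  refine ⟨(Submodule.subtype _).toAddMonoidHom.comp g.toAddMonoidHom, ?_, ?_⟩
  · intro v
    exact (g v).2
  · intro v hv
    have h2 := LinearMap.congr_fun hg ⟨v, hv⟩
    exact congrArg Subtype.val h2

/-- Projection onto `R / Y` of the elementary abelian section `X / Y`. -/
theorem exists_proj {A : Type} [AddCommGroup A] (q : ℕ) (hq : q.Prime) (X R Y : AddSubgroup A)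
    (hRX : R ≤ X) (hqX : ∀ x ∈ X, q • x ∈ Y) :
    ∃ f0 : X →+ A ⧸ Y, (∀ x, ∃ r ∈ R, f0 x = QuotientAddGroup.mk r) ∧
      ∀ (r : A) (hr : r ∈ R), f0 ⟨r, hRX hr⟩ = QuotientAddGroup.mk r := by
  have : Fact q.Prime := ⟨hq⟩
  have hV : ∀ v : X ⧸ (Y.addSubgroupOf X), q • v = 0 := by
    intro v
    induction v using QuotientAddGroup.induction_on with
    | H x =>
      rw [← QuotientAddGroup.mk_nsmul, QuotientAddGroup.eq_zero_iff, AddSubgroup.mem_addSubgroupOf]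
      simpa using hqX x x.2
  obtain ⟨g, hg1, hg2⟩ := @exists_projV (X ⧸ (Y.addSubgroupOf X)) _ q _
    (AddCommGroup.zmodModule hV) ((R.addSubgroupOf X).map (QuotientAddGroup.mk' _))
  let ι : X ⧸ (Y.addSubgroupOf X) →+ A ⧸ Y :=
    QuotientAddGroup.map (Y.addSubgroupOf X) Y X.subtype (fun x hx => hx)
  refine ⟨ι.comp (g.comp (QuotientAddGroup.mk' _)), ?_, ?_⟩
  · intro x
    obtain ⟨r, hr, hr2⟩ := hg1 (QuotientAddGroup.mk' _ x)
    refine ⟨r, hr, ?_⟩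
    change ι (g (QuotientAddGroup.mk' _ x) : X ⧸ (Y.addSubgroupOf X)) = _
    rw [← hr2]
    rfl
  · intro r hr
    change ι (g (QuotientAddGroup.mk' _ ⟨r, hRX hr⟩) : X ⧸ (Y.addSubgroupOf X)) = _
    rw [hg2 _ ⟨⟨r, hRX hr⟩, hr, rfl⟩]
    rfl

theorem taskM1 : TaskM1 := by
  intro A K _ _ _ _ _ q hq hcop X R Y hX hR hY hYR hRX hqX
  classical
  have := Fintype.ofFinite K
  obtain ⟨f0, hf1, hf2⟩ := exists_proj q hq X R Y hRX hqX
  obtain ⟨m, -, hm⟩ := Nat.exists_mul_mod_eq_one_of_coprime hcop.symm hq.one_lt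
  let ρ : K → (A ⧸ Y →+ A ⧸ Y) := fun k =>
    QuotientAddGroup.map Y Y (DistribSMul.toAddMonoidHom A k) (fun x hx => hY k x hx)
  have ρmk : ∀ (k : K) (a : A), ρ k (QuotientAddGroup.mk a) = QuotientAddGroup.mk (k • a) :=
    fun k a => rfl
  have ρρ : ∀ (k l : K) (v : A ⧸ Y), ρ k (ρ l v) = ρ (k * l) v := by
    intro k l v
    induction v using QuotientAddGroup.induction_on with
    | H a => rw [ρmk, ρmk, ρmk, mul_smul]
  let F : X → A ⧸ Y := fun x => m • ∑ k : K, ρ k (f0 ⟨k⁻¹ • (x : A), hX k⁻¹ x x.2⟩)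
  have Fadd : ∀ x y : X, F (x + y) = F x + F y := by
    intro x y
    have h1 : ∀ k : K, (⟨k⁻¹ • ((x + y : X) : A), hX k⁻¹ _ (x + y).2⟩ : X) =
        ⟨k⁻¹ • (x : A), hX k⁻¹ x x.2⟩ + ⟨k⁻¹ • (y : A), hX k⁻¹ y y.2⟩ := by
      intro k
      apply Subtype.ext
      change k⁻¹ • ((x : A) + (y : A)) = k⁻¹ • (x : A) + k⁻¹ • (y : A)
      rw [smul_add]
    simp only [F, h1, map_add, Finset.sum_add_distrib, smul_add]
  let F' : X →+ A ⧸ Y := AddMonoidHom.mk' F Fadd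
  have Feq : ∀ (x : X) (l : K), F' ⟨l • (x : A), hX l x x.2⟩ = ρ l (F' x) := by
    intro x l
    change m • ∑ k : K, ρ k (f0 ⟨k⁻¹ • (l • (x : A)), _⟩) = ρ l (m • ∑ k : K, ρ k (f0 ⟨k⁻¹ • (x : A), _⟩))
    rw [map_nsmul, map_sum]
    congr 1
    refine (Fintype.sum_equiv (Equiv.mulLeft l) _ _ ?_).symm
    intro k
    rw [ρρ]
    simp only [Equiv.coe_mulLeft]
    congr 2
    apply Subtype.ext
    change k⁻¹ • (x : A) = (l * k)⁻¹ • (l • (x : A))
    rw [smul_smul, mul_inv_rev, inv_mul_cancel_right]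
  have FR : ∀ x : X, ∃ r ∈ R, F' x = QuotientAddGroup.mk r := by
    intro x
    have h1 : ∀ k : K, ∃ r ∈ R, ρ k (f0 ⟨k⁻¹ • (x : A), hX k⁻¹ x x.2⟩) = QuotientAddGroup.mk r := by
      intro k
      obtain ⟨r, hr, h⟩ := hf1 ⟨k⁻¹ • (x : A), hX k⁻¹ x x.2⟩
      exact ⟨k • r, hR k r hr, by rw [h, ρmk]⟩
    choose r hr h using h1
    refine ⟨m • ∑ k : K, r k, R.nsmul_mem (R.sum_mem fun k _ => hr k) m, ?_⟩
    change m • ∑ k : K, ρ k (f0 ⟨k⁻¹ • (x : A), _⟩) = _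
    simp only [h]
    change _ = QuotientAddGroup.mk' Y _
    rw [map_nsmul, map_sum]
    rfl
  have Fid : ∀ (r : A) (hr : r ∈ R), F' ⟨r, hRX hr⟩ = QuotientAddGroup.mk r := by
    intro r hr
    change m • ∑ k : K, ρ k (f0 ⟨k⁻¹ • r, _⟩) = _
    have h1 : ∀ k : K, ρ k (f0 ⟨k⁻¹ • r, hX k⁻¹ r (hRX hr)⟩) = QuotientAddGroup.mk r := by
      intro k
      rw [hf2 (k⁻¹ • r) (hR k⁻¹ r hr), ρmk, smul_inv_smul]
    simp only [h1]
    rw [Finset.sum_const, Finset.card_univ, ← Nat.card_eq_fintype_card, smul_smul]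
    have h2 : m * Nat.card K = q * (Nat.card K * m / q) + 1 := by
      have := Nat.div_add_mod (Nat.card K * m) q
      rw [hm] at this
      rw [mul_comm m]
      exact this.symm
    have h3 : q • (QuotientAddGroup.mk r : A ⧸ Y) = 0 := by
      rw [← QuotientAddGroup.mk_nsmul, QuotientAddGroup.eq_zero_iff]
      exact hqX r (hRX hr)
    rw [h2, add_smul, one_smul, mul_comm q, mul_smul, h3, smul_zero, zero_add]
  refine ⟨(F'.ker).map X.subtype, ?_, ?_, ?_⟩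
  · rintro k _ ⟨x, hx, rfl⟩
    refine ⟨⟨k • (x : A), hX k x x.2⟩, ?_, rfl⟩
    change F' _ = 0
    rw [Feq]
    have : F' x = 0 := hx
    rw [this, map_zero]
  · apply le_antisymm
    · apply sup_le _ hRX
      rintro _ ⟨x, hx, rfl⟩
      exact x.2
    · intro x hx
      obtain ⟨r, hr, h⟩ := FR ⟨x, hx⟩
      have h1 : (⟨x, hx⟩ : X) - ⟨r, hRX hr⟩ ∈ F'.ker := by
        rw [AddMonoidHom.mem_ker, map_sub, h, Fid r hr, sub_self]
      rw [AddSubgroup.mem_sup]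
      exact ⟨x - r, ⟨_, h1, rfl⟩, r, hr, sub_add_cancel x r⟩
  · apply le_antisymm
    · rintro _ ⟨⟨x, hx, rfl⟩, hr⟩
      have h1 : F' x = 0 := hx
      have h2 := Fid x hr
      have h3 : (⟨(x : A), hRX hr⟩ : X) = x := rfl
      rw [h3, h1] at h2
      exact (QuotientAddGroup.eq_zero_iff (x : A)).1 h2.symm
    · intro y hy
      refine ⟨⟨⟨y, hRX (hYR hy)⟩, ?_, rfl⟩, hYR hy⟩
      change F' _ = 0
      rw [Fid y (hYR hy)]
      exact (QuotientAddGroup.eq_zero_iff y).2 hy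

end Pool.Agent.H124R3.PV
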