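import Mathlib

set_option autoImplicit false

namespace Pool.Agent.H124R3

open MvPolynomial

/-- the monomial of `s` -/
noncomputable def mon {n r : ℕ} (s : Sym (Fin (n + 1)) r) : MvPolynomial (Fin (n + 1)) ℂ :=
  (s.1.map X).prod

/-- the form with coefficient vector `c` -/
noncomputable def toPoly (n r : ℕ) :
    (Sym (Fin (n + 1)) r → ℂ) →ₗ[ℂ] MvPolynomial (Fin (n + 1)) ℂ :=
  Fintype.linearCombination ℂ mon

theorem toPoly_apply {n r : ℕ} (c : Sym (Fin (n + 1)) r → ℂ) :
    toPoly n r c = ∑ s, c s • mon s := Fintype.linearCombination_apply _ _ _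

theorem eval_mon {n r : ℕ} (x : Fin (n + 1) → ℂ) (s : Sym (Fin (n + 1)) r) :
    eval x (mon s) = (s.1.map x).prod := by
  unfold mon
  rw [map_multiset_prod, Multiset.map_map]
  congr 1
  apply Multiset.map_congr rfl
  intro i _
  simp

theorem mon_hom {n r : ℕ} (s : Sym (Fin (n + 1)) r) : (mon s).IsHomogeneous r := by
  obtain ⟨m, hm⟩ := s
  unfold mon
  subst hm
  simp only
  induction m using Multiset.induction_on with
  | empty => simpa using isHomogeneous_one _ _
  | cons a m ih =>
    rw [Multiset.map_cons, Multiset.prod_cons, Multiset.card_cons]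
    have h := (isHomogeneous_X ℂ a).mul ih
    rwa [Nat.add_comm 1 (Multiset.card m)] at h

theorem toPoly_hom {n r : ℕ} (c : Sym (Fin (n + 1)) r → ℂ) : (toPoly n r c).IsHomogeneous r := by
  rw [toPoly_apply]
  apply IsHomogeneous.sum
  intro s _
  exact (homogeneousSubmodule (Fin (n + 1)) ℂ r).smul_mem _ (mon_hom s)

theorem mem_range_toPoly {n r : ℕ} {Q : MvPolynomial (Fin (n + 1)) ℂ} (hQ : Q.IsHomogeneous r) :
    ∃ c, toPoly n r c = Q := by
  classical
  have key : Q ∈ LinearMap.range (toPoly n r) := by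
    rw [← support_sum_monomial_coeff Q]
    refine Submodule.sum_mem _ fun d hd => ?_
    have hdeg : d.degree = r := by
      have := hQ (mem_support_iff.1 hd)
      rw [← this, Finsupp.degree_eq_weight_one]
      rfl
    have hcard : Multiset.card (Finsupp.toMultiset d) = r := by
      rw [Finsupp.card_toMultiset, ← hdeg]
      rfl
    let s : Sym (Fin (n + 1)) r := ⟨Finsupp.toMultiset d, hcard⟩
    have h1 : mon s = monomial d 1 := by
      unfold mon
      simp only [s]
      rw [Finsupp.toMultiset_map, Finsupp.prod_toMultiset, monomial_eq, C_1, one_mul,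
        Finsupp.prod_mapDomain_index (by simp) (by intros; rw [pow_add])]
    have h2 : monomial d (coeff d Q) = (coeff d Q) • mon s := by
      rw [h1, smul_monomial, smul_eq_mul, mul_one]
    rw [h2]
    apply Submodule.smul_mem
    refine ⟨Pi.single s 1, ?_⟩
    rw [toPoly_apply, Finset.sum_eq_single s]
    · simp
    · intro b _ hb
      simp [Pi.single_eq_of_ne hb]
    · simp
  exact key

/-- Key lemma on families of forms. -/
theorem forms_zero {n r : ℕ} (hr : 1 ≤ r) (G : Fin (n + 1) → MvPolynomial (Fin (n + 1)) ℂ)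
    (hG : ∀ j, (G j).IsHomogeneous r)
    (h : ∀ k, ∑ j, X j * pderiv k (G j) = 0) : ∀ k, G k = 0 := by
  classical
  have comm : ∀ (i j : Fin (n + 1)) (Q : MvPolynomial (Fin (n + 1)) ℂ),
      pderiv i (pderiv j Q) = pderiv j (pderiv i Q) := by
    intro i j Q
    have hD : ⁅(pderiv i : Derivation ℂ (MvPolynomial (Fin (n + 1)) ℂ) _),
        (pderiv j : Derivation ℂ (MvPolynomial (Fin (n + 1)) ℂ) _)⁆ = 0 := by
      apply MvPolynomial.derivation_ext
      intro k
      rw [Derivation.commutator_apply, pderiv_X, pderiv_X]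
      have h1 : ∀ (a b c : Fin (n + 1)), pderiv a ((Pi.single b (1 : MvPolynomial (Fin (n+1)) ℂ) : Fin (n+1) → MvPolynomial (Fin (n+1)) ℂ) c) = 0 := by
        intro a b c
        by_cases hbc : c = b
        · subst hbc
          simp
        · simp [Pi.single_eq_of_ne hbc]
      rw [h1, h1]
      simp
    have := congrArg (fun D => D Q) hD
    simp only [Derivation.commutator_apply, Derivation.zero_apply] at this
    exact sub_eq_zero.1 this
  let Φ : MvPolynomial (Fin (n + 1)) ℂ := ∑ j, X j * G j
  have hΦ : ∀ k, pderiv k Φ = G k := by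
    intro k
    simp only [Φ, map_sum, pderiv_mul, Finset.sum_add_distrib]
    rw [h k, add_zero, Finset.sum_eq_single k]
    · simp
    · intro b _ hb
      rw [pderiv_X_of_ne hb, zero_mul]
    · simp
  intro k
  have he := (hG k).sum_X_mul_pderiv
  have h2 : ∀ j, pderiv j (G k) = pderiv k (G j) := by
    intro j
    rw [← hΦ k, ← hΦ j, comm]
  simp only [h2] at he
  rw [h k] at he
  have h3 : (r : MvPolynomial (Fin (n + 1)) ℂ) * G k = 0 := by
    rw [← nsmul_eq_mul, ← he]
  rcases mul_eq_zero.1 h3 with h4 | h4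
  · have : (r : MvPolynomial (Fin (n + 1)) ℂ) = C (r : ℂ) := by simp
    rw [this, C_eq_zero] at h4
    have : r = 0 := by exact_mod_cast h4
    omega
  · exact h4

end Pool.Agent.H124R3
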