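import Pool.Agent.H124R3.PartA

set_option autoImplicit false

namespace Pool.Agent.H124R3

open MvPolynomial

abbrev Idx (n r : ℕ) := {I : Finset (Fin (r + n)) // I.card = n}

theorem card_idx (n r : ℕ) : Fintype.card (Idx n r) = Nat.choose (n + r) r := by
  rw [Fintype.card_finset_len, Fintype.card_fin, Nat.add_comm r n]
  exact (Nat.choose_symm_add).symm ▸ rfl

theorem card_sym (n r : ℕ) : Fintype.card (Sym (Fin (n + 1)) r) = Nat.choose (n + r) r := by
  rw [Sym.card_sym_eq_choose, Fintype.card_fin]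
  congr 1
  omega

section
variable {n r : ℕ} (xs : Fin (r + n) → ℂ) (cs : Fin (n + 1) → ℂ)

/-- the star configuration point attached to `I`, in the coordinates given by the `cs` -/
noncomputable def pt (I : Idx n r) : Fin (n + 1) → ℂ := fun j => ∏ i ∈ I.1, (cs j - xs i)

noncomputable def LL (j : Fin (n + 1)) (a : Fin (r + n)) : ℂ :=
  (Lagrange.basis Finset.univ cs j).eval (xs a)

noncomputable def hform (a : Fin (r + n)) : MvPolynomial (Fin (n + 1)) ℂ :=
  ∑ j, C (LL xs cs j a) * X j

noncomputable def FF (I : Idx n r) : MvPolynomial (Fin (n + 1)) ℂ :=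
  ∏ a ∈ I.1ᶜ, hform xs cs a

theorem eval_hform_pt (hc : Function.Injective cs) (I : Idx n r) (a : Fin (r + n)) :
    eval (pt xs cs I) (hform xs cs a) = ∏ i ∈ I.1, (xs a - xs i) := by
  classical
  let Q : Polynomial ℂ := ∏ i ∈ I.1, (Polynomial.X - Polynomial.C (xs i))
  have hdeg : Q.degree < (Finset.univ : Finset (Fin (n + 1))).card := by
    simp only [Q]
    rw [Polynomial.degree_prod]
    simp only [Polynomial.degree_X_sub_C, Finset.sum_const, I.2, nsmul_eq_mul, mul_one,
      Finset.card_univ, Fintype.card_fin]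
    exact_mod_cast Nat.lt_succ_self n
  have hQ : Q = Lagrange.interpolate Finset.univ cs (fun j => Q.eval (cs j)) :=
    Lagrange.eq_interpolate_of_eval_eq _ hc.injOn hdeg (fun i _ => rfl)
  have h1 : Q.eval (xs a) = ∏ i ∈ I.1, (xs a - xs i) := by
    simp [Q, Polynomial.eval_prod]
  rw [← h1, hQ, Lagrange.interpolate_apply, Polynomial.eval_finsetSum]
  unfold hform
  rw [map_sum]
  refine Finset.sum_congr rfl fun j _ => ?_
  rw [map_mul, eval_C, eval_X, Polynomial.eval_mul, Polynomial.eval_C, mul_comm]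
  congr 1
  simp [pt, Q, Polynomial.eval_prod]

theorem eval_hform_single (a : Fin (r + n)) (j : Fin (n + 1)) :
    eval (Pi.single j 1) (hform xs cs a) = LL xs cs j a := by
  classical
  unfold hform
  rw [map_sum, Finset.sum_eq_single j]
  · simp
  · intro b _ hb
    simp [Pi.single_eq_of_ne hb]
  · simp

theorem FF_hom (I : Idx n r) : (FF xs cs I).IsHomogeneous r := by
  classical
  have h : (FF xs cs I).IsHomogeneous (∑ a ∈ I.1ᶜ, 1) := by
    apply IsHomogeneous.prod
    intro a _
    apply IsHomogeneous.sum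
    intro j _
    have := (isHomogeneous_C (Fin (n + 1)) (LL xs cs j a)).mul (isHomogeneous_X ℂ j)
    simpa using this
  have h2 : ∑ a ∈ I.1ᶜ, 1 = r := by
    rw [Finset.sum_const, Finset.card_compl, Fintype.card_fin, I.2]
    simp
  rwa [h2] at h

theorem FF_pt_self (hc : Function.Injective cs) (hx : Function.Injective xs) (I : Idx n r) :
    eval (pt xs cs I) (FF xs cs I) ≠ 0 := by
  classical
  unfold FF
  rw [map_prod]
  refine Finset.prod_ne_zero_iff.2 fun a ha => ?_
  rw [eval_hform_pt xs cs hc]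
  refine Finset.prod_ne_zero_iff.2 fun i hi => ?_
  rw [Finset.mem_compl] at ha
  intro h
  have := hx (sub_eq_zero.1 h)
  subst this
  exact ha hi

theorem FF_pt_ne (hc : Function.Injective cs) (I J : Idx n r) (hIJ : J ≠ I) :
    eval (pt xs cs J) (FF xs cs I) = 0 := by
  classical
  have hex : ∃ a ∈ J.1, a ∉ I.1 := by
    by_contra hcon
    push Not at hcon
    have hsub : J.1 ⊆ I.1 := fun a ha => hcon a ha
    have := Finset.eq_of_subset_of_card_le hsub (by rw [I.2, J.2])
    exact hIJ (Subtype.ext this)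
  obtain ⟨a, haJ, haI⟩ := hex
  unfold FF
  rw [map_prod]
  refine Finset.prod_eq_zero (Finset.mem_compl.2 haI) ?_
  rw [eval_hform_pt xs cs hc]
  exact Finset.prod_eq_zero haJ (sub_self _)

/-- constant attached to the `j`-th vertex -/
noncomputable def al (j : Fin (n + 1)) : ℂ :=
  Lagrange.nodalWeight Finset.univ cs j ^ r * (∏ a : Fin (r + n), (xs a - cs j)⁻¹) * (-1) ^ n

noncomputable def be (I : Idx n r) : ℂ :=
  ∏ a ∈ I.1ᶜ, (Lagrange.nodal Finset.univ cs).eval (xs a)

theorem al_ne (hc : Function.Injective cs) (hxc : ∀ a j, xs a ≠ cs j) (j : Fin (n + 1)) :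
    al xs cs j ≠ 0 := by
  unfold al
  refine mul_ne_zero (mul_ne_zero (pow_ne_zero _ ?_) ?_) (pow_ne_zero _ (by norm_num))
  · exact Lagrange.nodalWeight_ne_zero hc.injOn (Finset.mem_univ j)
  · exact Finset.prod_ne_zero_iff.2 fun a _ => inv_ne_zero (sub_ne_zero.2 (hxc a j))

theorem be_ne (hxc : ∀ a j, xs a ≠ cs j) (I : Idx n r) : be xs cs I ≠ 0 := by
  unfold be
  refine Finset.prod_ne_zero_iff.2 fun a _ => ?_
  rw [Lagrange.eval_nodal]
  exact Finset.prod_ne_zero_iff.2 fun j _ => sub_ne_zero.2 (hxc a j)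

theorem FF_single (hxc : ∀ a j, xs a ≠ cs j) (I : Idx n r) (j : Fin (n + 1)) :
    eval (Pi.single j 1) (FF xs cs I) = be xs cs I * (al xs cs j * pt xs cs I j) := by
  classical
  unfold FF
  rw [map_prod]
  simp only [eval_hform_single]
  have h1 : ∀ a, LL xs cs j a = (Lagrange.nodal Finset.univ cs).eval (xs a) *
      (Lagrange.nodalWeight Finset.univ cs j * (xs a - cs j)⁻¹) := fun a =>
    Lagrange.eval_basis_not_at_node (Finset.mem_univ j) (hxc a j)
  simp only [h1]
  rw [Finset.prod_mul_distrib, Finset.prod_mul_distrib]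
  have h2 : (I.1ᶜ).card = r := by
    rw [Finset.card_compl, Fintype.card_fin, I.2]
    simp
  rw [Finset.prod_const, h2]
  have h3 : ∏ a ∈ I.1ᶜ, (xs a - cs j)⁻¹ =
      (∏ a : Fin (r + n), (xs a - cs j)⁻¹) * ((-1) ^ n * pt xs cs I j) := by
    have h4 := Finset.prod_mul_prod_compl I.1 (fun a => (xs a - cs j)⁻¹)
    rw [← h4]
    have h5 : (-1) ^ n * pt xs cs I j = ∏ a ∈ I.1, (xs a - cs j) := by
      unfold pt
      have : ∀ a ∈ I.1, (xs a - cs j) = (-1) * (cs j - xs a) := fun a _ => by ring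
      rw [Finset.prod_congr rfl this, Finset.prod_mul_distrib, Finset.prod_const, I.2]
    have h6 : ∏ a ∈ I.1, (xs a - cs j) ≠ 0 :=
      Finset.prod_ne_zero_iff.2 fun a _ => sub_ne_zero.2 (hxc a j)
    have h7 : ∏ a ∈ I.1, (xs a - cs j)⁻¹ = (∏ a ∈ I.1, (xs a - cs j))⁻¹ :=
      Finset.prod_inv_distrib (f := fun a => xs a - cs j)
    rw [h5, h7, mul_right_comm, inv_mul_cancel₀ h6, one_mul]
  rw [h3]
  unfold be al
  ring

theorem unisolvent (hc : Function.Injective cs) (hx : Function.Injective xs)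
    (Q : MvPolynomial (Fin (n + 1)) ℂ) (hQ : Q.IsHomogeneous r)
    (h0 : ∀ I : Idx n r, eval (pt xs cs I) Q = 0) : Q = 0 := by
  classical
  let ev : (Sym (Fin (n + 1)) r → ℂ) →ₗ[ℂ] (Idx n r → ℂ) :=
    LinearMap.pi fun I => (aeval (pt xs cs I)).toLinearMap ∘ₗ (toPoly n r)
  have hev : ∀ c I, ev c I = eval (pt xs cs I) (toPoly n r c) := by
    intro c I
    simp [ev, aeval_eq_eval]
  have hsurj : Function.Surjective ev := by
    rw [← LinearMap.range_eq_top, eq_top_iff, ← (Pi.basisFun ℂ (Idx n r)).span_eq,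
      Submodule.span_le]
    rintro _ ⟨I, rfl⟩
    obtain ⟨c, hcc⟩ := mem_range_toPoly (FF_hom xs cs I)
    refine ⟨(eval (pt xs cs I) (FF xs cs I))⁻¹ • c, ?_⟩
    ext J
    rw [map_smul, Pi.smul_apply, hev, hcc]
    by_cases hJ : J = I
    · subst hJ
      simp [FF_pt_self xs cs hc hx J]
    · rw [FF_pt_ne xs cs hc I J hJ]
      simp [Pi.single_eq_of_ne hJ]
  have hfr : Module.finrank ℂ (Sym (Fin (n + 1)) r → ℂ) = Module.finrank ℂ (Idx n r → ℂ) := by
    rw [Module.finrank_fintype_fun_eq_card, Module.finrank_fintype_fun_eq_card, card_idx, card_sym]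
  have hinj : Function.Injective ev :=
    (LinearMap.injective_iff_surjective_of_finrank_eq_finrank hfr).2 hsurj
  obtain ⟨c, hcc⟩ := mem_range_toPoly hQ
  have : ev c = 0 := by
    ext I
    rw [hev, hcc, h0]
    rfl
  have hc0 : c = 0 := hinj (by rw [this, map_zero])
  rw [← hcc, hc0, map_zero]

/-- The differential has no cokernel at the special configuration. -/
theorem config_zero (hr : 1 ≤ r) (hc : Function.Injective cs) (hx : Function.Injective xs)
    (hxc : ∀ a j, xs a ≠ cs j)
    (G : Idx n r → MvPolynomial (Fin (n + 1)) ℂ) (G' : Fin (n + 1) → MvPolynomial (Fin (n + 1)) ℂ)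
    (hG' : ∀ j, (G' j).IsHomogeneous r)
    (h1 : ∀ F : MvPolynomial (Fin (n + 1)) ℂ, F.IsHomogeneous r →
      ∑ I, C (eval (pt xs cs I) F) * G I + ∑ j, C (eval (Pi.single j 1) F) * G' j = 0)
    (h2 : ∀ I k, eval (pt xs cs I) (pderiv k (G I)) = 0) :
    (∀ I, G I = 0) ∧ ∀ j, G' j = 0 := by
  classical
  have h3 : ∀ I, C (eval (pt xs cs I) (FF xs cs I)) * G I +
      ∑ j, C (eval (Pi.single j 1) (FF xs cs I)) * G' j = 0 := by
    intro I
    rw [← h1 _ (FF_hom xs cs I)]
    congr 1
    rw [Finset.sum_eq_single I]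
    · intro J _ hJ
      rw [FF_pt_ne xs cs hc I J hJ, C_0, zero_mul]
    · simp
  let G2 : Fin (n + 1) → MvPolynomial (Fin (n + 1)) ℂ := fun j => C (al xs cs j) * G' j
  have hG2 : ∀ j, (G2 j).IsHomogeneous r := by
    intro j
    have := (isHomogeneous_C (Fin (n + 1)) (al xs cs j)).mul (hG' j)
    simpa using this
  have h4 : ∀ I k, eval (pt xs cs I) (∑ j, X j * pderiv k (G2 j)) = 0 := by
    intro I k
    have h5 := congrArg (fun Q => eval (pt xs cs I) (pderiv k Q)) (h3 I)
    simp only [map_add, map_sum, map_zero, pderiv_C_mul, map_mul, eval_C, h2, mul_zero,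
      zero_add] at h5
    simp only [map_sum, map_mul, eval_X, G2, pderiv_C_mul, eval_C]
    have h6 : be xs cs I * ∑ j, pt xs cs I j * (al xs cs j * eval (pt xs cs I) (pderiv k (G' j))) = 0 := by
      rw [← h5, Finset.mul_sum]
      refine Finset.sum_congr rfl fun j _ => ?_
      rw [FF_single xs cs hxc]
      ring
    exact (mul_eq_zero.1 h6).resolve_left (be_ne xs cs hxc I)
  have h7 : ∀ k, ∑ j, X j * pderiv k (G2 j) = 0 := by
    intro k
    apply unisolvent xs cs hc hx
    · apply IsHomogeneous.sum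
      intro j _
      have := (isHomogeneous_X ℂ j).mul ((hG2 j).pderiv (i := k))
      rwa [Nat.add_sub_cancel' hr] at this
    · intro I
      exact h4 I k
  have h8 := forms_zero hr G2 hG2 h7
  have h9 : ∀ j, G' j = 0 := by
    intro j
    have := h8 j
    simp only [G2] at this
    rcases mul_eq_zero.1 this with h | h
    · exact absurd (C_eq_zero.1 h) (al_ne xs cs hc hxc j)
    · exact h
  refine ⟨fun I => ?_, h9⟩
  have := h3 I
  simp only [h9, mul_zero, Finset.sum_const_zero, add_zero] at this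
  rcases mul_eq_zero.1 this with h | h
  · exact absurd (C_eq_zero.1 h) (FF_pt_self xs cs hc hx I)
  · exact h

end

end Pool.Agent.H124R3
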