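import Pool.Agent.H525R3.FFp.Riemann
import Pool.Agent.H510R3.ZT.C0

set_option autoImplicit false

/-!
A separating function with prescribed set of poles.
-/

open IntermediateField

namespace Pool.Agent.H124R3.ZT

open Pool.Agent.H525R3.FFp

variable {k F : Type} [Field k] [Field F] [Algebra k F]

theorem reg_sub {v : FF.Place k F} {a b : F} (ha : v.Reg a) (hb : v.Reg b) : v.Reg (a - b) := by
  rw [sub_eq_add_neg]
  exact v.reg_add ha (v.reg_neg hb)

theorem exists_pole_at [Finite k] [FF.IsFF k F] (v : FF.Place k F) :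
    ∃ f : F, ¬ v.Reg f ∧ ∀ v' : FF.Place k F, v' ≠ v → v'.Reg f := by
  classical
  obtain ⟨γ, N, h1, -⟩ := riemann (k := k) (K := F)
  have hdeg := deg_pos v
  obtain ⟨m, hm⟩ : ∃ m : ℕ, ell (0 : FF.Place k F →₀ ℤ) + γ < m := by
    refine ⟨(ell (0 : FF.Place k F →₀ ℤ) + γ).toNat + 1, ?_⟩
    push_cast
    omega
  have h2 := h1 (Finsupp.single v (m : ℤ))
  rw [ddeg_single] at h2
  have h3 : (m : ℤ) * 1 ≤ m * v.deg := by
    apply mul_le_mul_of_nonneg_left _ (by positivity)
    exact_mod_cast hdeg
  have h4 : ell (0 : FF.Place k F →₀ ℤ) < ell (Finsupp.single v (m : ℤ)) := by omega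
  have h5 : ¬ (LL (Finsupp.single v (m : ℤ)) ≤ LL (0 : FF.Place k F →₀ ℤ)) := by
    intro hle
    have := Submodule.finrank_mono hle
    unfold ell at h4
    omega
  rw [SetLike.not_le_iff_exists] at h5
  obtain ⟨f, hf1, hf2⟩ := h5
  have hf0 : f ≠ 0 := by
    rintro rfl
    exact hf2 (Submodule.zero_mem _)
  have hf3 := (mem_LL.1 hf1).resolve_left hf0
  have hreg : ∀ v' : FF.Place k F, v' ≠ v → v'.Reg f := by
    intro v' hv'
    have := hf3 v'
    rw [Finsupp.single_eq_of_ne hv'] at this
    exact Or.inr (by omega)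
  refine ⟨f, ?_, hreg⟩
  intro hr
  apply hf2
  rw [mem_LL]
  right
  intro P
  rw [Finsupp.coe_zero, Pi.zero_apply, neg_zero]
  by_cases hP : P = v
  · subst hP
    exact (P.reg_iff hf0).1 hr
  · exact (P.reg_iff hf0).1 (hreg P hP)

theorem exists_poles [Finite k] [FF.IsFF k F] (T : Finset (FF.Place k F)) :
    ∃ f : F, ∀ v : FF.Place k F, ¬ v.Reg f ↔ v ∈ T := by
  classical
  induction T using Finset.induction_on with
  | empty => exact ⟨0, fun v => by simp [v.reg_zero]⟩
  | insert v T hv ih =>
    obtain ⟨f, hf⟩ := ih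
    obtain ⟨g, hg1, hg2⟩ := exists_pole_at v
    refine ⟨f + g, fun x => ?_⟩
    rw [Finset.mem_insert]
    constructor
    · intro h
      by_contra hcon
      push Not at hcon
      apply h
      refine x.reg_add ?_ (hg2 x hcon.1)
      by_contra h2
      exact hcon.2 ((hf x).1 h2)
    · rintro (rfl | hx) hr
      · have h2 : x.Reg f := by
          by_contra h3
          exact hv ((hf x).1 h3)
        apply hg1
        have h4 := reg_sub hr h2
        rwa [add_sub_cancel_left] at h4
      · have hxv : x ≠ v := by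
          rintro rfl
          exact hv hx
        apply (hf x).2 hx
        have h4 := reg_sub hr (hg2 x hxv)
        rwa [add_sub_cancel_right] at h4

theorem ord_neg_iff (v : FF.Place k F) (f : F) : ¬ v.Reg f ↔ v.ord f < 0 := by
  constructor
  · intro h
    by_contra hcon
    push Not at hcon
    by_cases hf : f = 0
    · exact h (Or.inl hf)
    · exact h (Or.inr hcon)
  · intro h hr
    rcases hr with rfl | hr
    · rw [v.ord_zero] at h
      exact lt_irrefl _ h
    · omega

theorem exists_sep_poles [Finite k] [FF.IsFF k F] (T : Finset (FF.Place k F)) (hT : T.Nonempty) :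
    ∃ y : F, Transcendental k y ∧ Algebra.IsSeparable k⟮y⟯ F ∧
      ∀ v : FF.Place k F, ¬ v.Reg y ↔ v ∈ T := by
  obtain ⟨v0, hv0⟩ := hT
  obtain ⟨p, hp⟩ := CharP.exists k
  have hprime : p.Prime := CharP.char_is_prime k p
  have hfact : Fact p.Prime := ⟨hprime⟩
  suffices H : ∀ N : ℕ, ∀ y : F, (∀ v : FF.Place k F, ¬ v.Reg y ↔ v ∈ T) →
      (v0.ord y).natAbs = N → ∃ y : F, Transcendental k y ∧ Algebra.IsSeparable k⟮y⟯ F ∧
      ∀ v : FF.Place k F, ¬ v.Reg y ↔ v ∈ T by
    obtain ⟨y, hy⟩ := exists_poles T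
    exact H _ y hy rfl
  intro N
  induction N using Nat.strong_induction_on with
  | _ N ih =>
    intro y hy hN
    have h1 := (ord_neg_iff v0 y).1 ((hy v0).2 hv0)
    have htr : Transcendental k y := v0.transcendental_of_ord_ne (by omega)
    by_cases hs : Algebra.IsSeparable k⟮y⟯ F
    · exact ⟨y, htr, hs, hy⟩
    · obtain ⟨g, hg⟩ := Pool.Agent.H510R3.ZT.taskC0 p k F y htr hs
      have h2 : ∀ v : FF.Place k F, v.ord y = p * v.ord g := by
        intro v
        rw [← hg, v.ord_pow]
      have hp2 := hprime.two_le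
      refine ih (v0.ord g).natAbs ?_ g ?_ rfl
      · have h3 := h2 v0
        rw [← hN, h3, Int.natAbs_mul, Int.natAbs_natCast]
        have h4 : 0 < (v0.ord g).natAbs := by
          rw [Int.natAbs_pos]
          intro h0
          rw [h0, mul_zero] at h3
          omega
        nlinarith
      · intro v
        rw [← hy v, ord_neg_iff, ord_neg_iff, h2 v]
        have hp0 : (0 : ℤ) < p := by exact_mod_cast hprime.pos
        constructor
        · intro h; exact mul_neg_of_pos_of_neg hp0 h
        · intro h; exact (pos_iff_neg_of_mul_neg h).1 hp0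

end Pool.Agent.H124R3.ZT
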