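import Pool.Agent.H639R3.Z.Gal

set_option autoImplicit false

/-!
Lifting automorphisms of residue rings to a (possibly infinite) Galois group.
-/

namespace Pool.Agent.H124R3.ZT

open Pool.Agent.H639R3

theorem exists_lift {F L A : Type} [Field F] [Field L] [Algebra F L] [IsGalois F L]
    [CommRing A] [IsDedekindDomain A] [Algebra A F] [IsFractionRing A F] [Algebra A L]
    [IsScalarTower A F L] (Q : Ideal (integralClosure A L)) (hQ : Q.IsPrime)
    (s : (integralClosure A L ⧸ Q) ≃+* (integralClosure A L ⧸ Q))
    (hs : ∀ a : A, s (Ideal.Quotient.mk Q (algebraMap A (integralClosure A L) a)) =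
      Ideal.Quotient.mk Q (algebraMap A (integralClosure A L) a)) :
    ∃ ν : L ≃ₐ[F] L, ∀ b c : integralClosure A L, ν (b : L) = c →
      Ideal.Quotient.mk Q c = s (Ideal.Quotient.mk Q b) := by
  have halgA : Algebra.IsAlgebraic A L :=
    (IsFractionRing.comap_isAlgebraic_iff (A := A) (K := F) (C := L)).mpr inferInstance
  have hinjAL : Function.Injective (algebraMap A L) := by
    rw [IsScalarTower.algebraMap_eq A F L]
    exact (algebraMap F L).injective.comp (IsFractionRing.injective A F)
  have htf : IsDomain (integralClosure A L) := inferInstance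
  have hFr : IsFractionRing (integralClosure A L) L :=
    integralClosure.isFractionRing_of_algebraic (fun x hx => hinjAL (by rw [hx, map_zero]))
  let _ : MulSemiringAction (L ≃ₐ[F] L) (integralClosure A L) :=
    IsIntegralClosure.MulSemiringAction A F L (integralClosure A L)
  have hsmul : ∀ (σ : L ≃ₐ[F] L) (c : integralClosure A L), ((σ • c : integralClosure A L) : L) =
      σ c := fun σ c => algebraMap_galRestrict_apply A σ c
  let _ : TopologicalSpace (integralClosure A L) := ⊥
  have hdisc : DiscreteTopology (integralClosure A L) := ⟨rfl⟩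
  have hcont : ContinuousSMul (L ≃ₐ[F] L) (integralClosure A L) := by
    refine (continuousSMul_iff_stabilizer_isOpen (M := L ≃ₐ[F] L)
      (X := integralClosure A L)).mpr fun c => ?_
    have h1 := stabilizer_isOpen_of_isIntegral (K := F) (L := L) (c : L)
    convert h1 using 1
    ext σ
    simp only [SetLike.mem_coe, MulAction.mem_stabilizer_iff]
    constructor
    · intro h2
      have h3 := congrArg (fun z : integralClosure A L => (z : L)) h2
      simp only [hsmul] at h3
      exact h3
    · intro h2
      apply Subtype.ext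
      rw [hsmul]
      exact h2
  have hcomm : SMulCommClass (L ≃ₐ[F] L) A (integralClosure A L) := by
    constructor
    intro σ a c
    apply Subtype.ext
    rw [hsmul]
    change σ (a • (c : L)) = a • ((σ • c : integralClosure A L) : L)
    rw [hsmul, Algebra.smul_def, Algebra.smul_def, map_mul]
    congr 1
    rw [IsScalarTower.algebraMap_apply A F L, AlgEquiv.commutes]
  have hinv : Algebra.IsInvariant A (integralClosure A L) (L ≃ₐ[F] L) := by
    refine ⟨fun b hb => ?_⟩
    have hb2 : ∀ σ : L ≃ₐ[F] L, σ (b : L) = b := fun σ => by rw [← hsmul, hb σ]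
    obtain ⟨y, hy⟩ := (InfiniteGalois.mem_range_algebraMap_iff_fixed (k := F) (K := L) (b : L)).mpr hb2
    have hy2 : IsIntegral A y := by
      have := b.2
      rw [mem_integralClosure_iff, ← hy] at this
      exact (isIntegral_algebraMap_iff (algebraMap F L).injective).mp this
    obtain ⟨a, ha⟩ := IsIntegrallyClosed.isIntegral_iff.mp hy2
    refine ⟨a, ?_⟩
    apply Subtype.ext
    change algebraMap A L a = (b : L)
    rw [← hy, ← ha, ← IsScalarTower.algebraMap_apply]
  let σ : (integralClosure A L ⧸ Q) ≃ₐ[A ⧸ Q.under A] (integralClosure A L ⧸ Q) :=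
    AlgEquiv.ofRingEquiv (f := s) (by
      intro x
      obtain ⟨a, rfl⟩ := Ideal.Quotient.mk_surjective x
      exact hs a)
  obtain ⟨ν, hν⟩ := Ideal.Quotient.stabilizerHom_surjective_of_profinite
    (G := L ≃ₐ[F] L) (Q.under A) Q σ
  refine ⟨ν.1, ?_⟩
  intro b c hbc
  have h1 := DFunLike.congr_fun hν (Ideal.Quotient.mk Q b)
  have h2 : c = ν.1 • b := by
    apply Subtype.ext
    rw [hsmul]
    exact hbc.symm
  rw [h2]
  exact h1

end Pool.Agent.H124R3.ZT
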