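import Pool.Agent.H889R3.RQ.Stmts

/-!
Project H889-RQ, task A4: simulation of bounded polynomials by decision trees.
-/

set_option autoImplicit false

namespace Pool.Agent.H124R3.RQ

open Finset Pool.Agent.H572R2 Pool.Agent.H572R4.QA Pool.Agent.H889R3.RQ

theorem num_bound (C0 d η L : ℝ) (hC : 0 < C0) (hd : 1 ≤ d) (hη : 0 < η) (hη1 : η ≤ 1)
    (hL : 1 / 2 ≤ L) :
    2 * d / ((η / 72 / (4 * d)) ^ (C0 * L) * η) + 1 ≤ (4 * d / η) ^ ((5 * C0 + 2) * L) := by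
  have hd0 : 0 < d := by linarith
  obtain ⟨y, hy⟩ : ∃ y : ℝ, y = 4 * d / η := ⟨_, rfl⟩
  have hy4 : 4 ≤ y := by
    rw [hy, le_div_iff₀ hη]; nlinarith
  have hy0 : 0 < y := by linarith
  rw [← hy]
  have e1 : η / 72 / (4 * d) = (72 * y)⁻¹ := by
    rw [hy]; field_simp
  have hL0 : 0 ≤ C0 * L := by positivity
  have e2 : (η / 72 / (4 * d)) ^ (C0 * L) = ((72 * y) ^ (C0 * L))⁻¹ := by
    rw [e1, Real.inv_rpow (by positivity)]
  have e3 : 2 * d / ((η / 72 / (4 * d)) ^ (C0 * L) * η) = y / 2 * (72 * y) ^ (C0 * L) := by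
    rw [e2, hy]
    have : 0 < (72 * (4 * d / η)) ^ (C0 * L) := by positivity
    field_simp
    ring
  have h72 : (72 * y) ≤ y ^ 5 := by
    have : (256 : ℝ) ≤ y ^ 4 := by
      calc (256:ℝ) = 4 ^ 4 := by norm_num
        _ ≤ y ^ 4 := by gcongr
    calc 72 * y ≤ y ^ 4 * y := by
          apply mul_le_mul_of_nonneg_right _ hy0.le
          linarith
      _ = y ^ 5 := by ring
  have h1 : (72 * y) ^ (C0 * L) ≤ y ^ (5 * (C0 * L)) := by
    calc (72 * y) ^ (C0 * L) ≤ (y ^ 5) ^ (C0 * L) :=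
          Real.rpow_le_rpow (by positivity) h72 hL0
      _ = y ^ (5 * (C0 * L)) := by
          rw [Real.rpow_mul hy0.le]
          norm_num
  have h2 : 1 ≤ y ^ (5 * (C0 * L)) := Real.one_le_rpow (by linarith) (by positivity)
  rw [e3]
  calc y / 2 * (72 * y) ^ (C0 * L) + 1 ≤ y / 2 * y ^ (5 * (C0 * L)) + 1 := by
        have := mul_le_mul_of_nonneg_left h1 (by positivity : 0 ≤ y / 2)
        linarith
    _ ≤ y * y ^ (5 * (C0 * L)) := by nlinarith
    _ = y ^ (1 + 5 * (C0 * L)) := by rw [Real.rpow_add hy0, Real.rpow_one]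
    _ ≤ y ^ ((5 * C0 + 2) * L) := by
        apply Real.rpow_le_rpow_of_exponent_le (by linarith)
        nlinarith

theorem a4 (h2 : St_A2) (h3 : St_A3) : St_A4 := by
  obtain ⟨C0, hC0, hmain⟩ := main03
  refine ⟨5 * C0 + 2, by positivity, ?_⟩
  intro N d f η hd hf0 hf1 hdeg hη hη1
  have hd1 : (1:ℝ) ≤ d := by exact_mod_cast hd
  have hd0 : (0:ℝ) < d := by linarith
  have hL : (1:ℝ) / 2 ≤ Real.log (2 * d) := by
    have h1 : Real.log 2 ≤ Real.log (2 * d) := Real.log_le_log (by norm_num) (by linarith)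
    have h2 := Real.log_two_gt_d9
    linarith
  obtain ⟨τ, hτ⟩ : ∃ τ : ℝ, τ = (η / 72 / (4 * d)) ^ (C0 * Real.log (2 * d)) := ⟨_, rfl⟩
  have hτ0 : 0 < τ := by rw [hτ]; positivity
  have h4 := h3 N {g | (∀ x, 0 ≤ g x) ∧ (∀ x, g x ≤ 1) ∧ DegLe d g} τ (η / 72) hτ0 (by positivity)
    (by
      rintro g ⟨g0, g1, g2⟩ j b
      exact ⟨fun x => g0 _, fun x => g1 _, e2_degLe_update d g g2 j b⟩)
    (by
      rintro g ⟨g0, g1, g2⟩ hj
      by_contra hv
      push Not at hv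
      have hv0 : 0 < var g := lt_trans (by positivity) hv
      obtain ⟨i, hi⟩ := hmain N d g hd (fun x => by rw [abs_le]; constructor <;> linarith [g0 x, g1 x])
        g2 hv0
      have h5 := hj i
      have h6 : τ ≤ (var g / (4 * d)) ^ (C0 * Real.log (2 * d)) := by
        rw [hτ]
        apply Real.rpow_le_rpow (by positivity) _ (by positivity)
        gcongr
      unfold inf2 at h5
      linarith)
    (⌈2 * d / (τ * η)⌉₊) f ⟨hf0, hf1, hdeg⟩
  refine ⟨sim τ ⌈2 * d / (τ * η)⌉₊ f, ?_, ?_⟩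
  · have h5 : ((sim τ ⌈2 * d / (τ * η)⌉₊ f).depth : ℝ) ≤ (⌈2 * d / (τ * η)⌉₊ : ℝ) := by
      exact_mod_cast h4.1
    have h6 : (⌈2 * d / (τ * η)⌉₊ : ℝ) ≤ 2 * d / (τ * η) + 1 :=
      (Nat.ceil_lt_add_one (by positivity)).le
    refine (h5.trans h6).trans ?_
    rw [hτ]
    exact num_bound C0 d η (Real.log (2 * d)) hC0 hd1 hη hη1 hL
  · have h5 : 2 * d / (τ * η) ≤ (⌈2 * d / (τ * η)⌉₊ : ℝ) := Nat.le_ceil _
    have h6 := h4.2
    have h7 := h2 N d f (fun x => by rw [abs_le]; constructor <;> linarith [hf0 x, hf1 x]) hdeg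
    have h8 : 2 * d ≤ (⌈2 * d / (τ * η)⌉₊ : ℝ) * τ * η := by
      rw [div_le_iff₀ (by positivity)] at h5
      linarith
    by_contra hc
    push Not at hc
    have h9 : η / 2 < EE (bad f (sim τ ⌈2 * d / (τ * η)⌉₊ f)) - 36 * (η / 72) := by linarith
    have h10 : 0 < (⌈2 * d / (τ * η)⌉₊ : ℝ) * τ := by
      by_contra hn
      push Not at hn
      nlinarith
    have h11 := mul_lt_mul_of_pos_left h9 h10
    linarith

end Pool.Agent.H124R3.RQ
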