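import Pool.Agent.H124R3.PolesT
import Pool.Agent.H124R3.Local
import Pool.Agent.H639R3.Z.Ext
import Pool.Agent.H387R3.ZT.Stmts

set_option autoImplicit false

/-!
Project ZT, TaskA.
-/

open IntermediateField

namespace Pool.Agent.H124R3.ZT

open Pool.Agent.H639R3 Pool.Agent.H387R3.ZT

/-- Trace one in a finite Galois extension unramified over a Dedekind domain. -/
theorem trace_one {K L A : Type} [Field K] [Field L] [Algebra K L] [FiniteDimensional K L]
    [IsGalois K L] [CommRing A] [IsDedekindDomain A] [Algebra A K] [IsFractionRing A K]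
    [Algebra A L] [IsScalarTower A K L] (hAf : ¬ IsField A)
    (hun : ∀ w : ValuationSubring L, (∀ a : A, algebraMap A L a ∈ w) →
      w.comap (algebraMap K L) ≠ ⊤ → ∀ σ : L ≃ₐ[K] L,
        (∀ a ∈ w, w.valuation (σ a - a) < 1) → σ = 1) :
    ∃ b : L, IsIntegral A b ∧ Algebra.trace K L b = 1 := by
  classical
  have htr : ∀ b : L, IsIntegral A b → ∃ a : A, algebraMap A K a = Algebra.trace K L b := fun b hb =>
    IsIntegrallyClosed.isIntegral_iff.mp (Algebra.isIntegral_trace (L := K) hb)
  let J : Ideal A :=
    { carrier := {a | ∃ b : L, IsIntegral A b ∧ Algebra.trace K L b = algebraMap A K a}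
      add_mem' := by
        rintro a a' ⟨b, hb, h⟩ ⟨b', hb', h'⟩
        exact ⟨b + b', hb.add hb', by rw [map_add, map_add, h, h']⟩
      zero_mem' := ⟨0, isIntegral_zero, by rw [map_zero, map_zero]⟩
      smul_mem' := by
        rintro c a ⟨b, hb, h⟩
        refine ⟨algebraMap A L c * b, isIntegral_algebraMap.mul hb, ?_⟩
        rw [IsScalarTower.algebraMap_apply A K L, ← Algebra.smul_def, LinearMap.map_smul, h,
          smul_eq_mul, smul_eq_mul, map_mul] }
  by_cases hJ : J = ⊤
  · have h1 : (1 : A) ∈ J := by rw [hJ]; trivial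
    obtain ⟨b, hb, h⟩ := h1
    exact ⟨b, hb, by rw [h, map_one]⟩
  exfalso
  obtain ⟨m, hm, hJm⟩ := Ideal.exists_le_maximal J hJ
  have hm0 : m ≠ ⊥ := Ring.ne_bot_of_isMaximal_of_not_isField hm hAf
  obtain ⟨O, hO, hOtop, hcent⟩ := exists_of_height_one (F := K)
    (⟨m, hm.isPrime, hm0⟩ : IsDedekindDomain.HeightOneSpectrum A)
  obtain ⟨w, hw⟩ := exists_extension (L := L) O
  have hAw : ∀ a : A, algebraMap A L a ∈ w := by
    intro a
    rw [IsScalarTower.algebraMap_apply A K L, ← ValuationSubring.mem_comap, hw]
    exact hO a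
  have hwtop : w.comap (algebraMap K L) ≠ ⊤ := by rw [hw]; exact hOtop
  have hmemI : ∀ b, IsIntegral A b → b ∈ w := fun b hb => integral_mem w hAw b hb
  have hsum : ∀ b : L, IsIntegral A b → w.valuation (∑ σ : L ≃ₐ[K] L, σ b) < 1 := by
    intro b hb
    obtain ⟨a, ha⟩ := htr b hb
    have h1 : a ∈ J := ⟨b, hb, ha.symm⟩
    have h2 : a ∈ cent O hO := by rw [hcent]; exact hJm h1
    rw [mem_cent, ha, ← hw, comap_val_lt_one, trace_eq_sum_automorphisms] at h2
    exact h2
  let R := integralClosure A L
  have hσR : ∀ (σ : L ≃ₐ[K] L) (r : R), σ (r : L) ∈ w := fun σ r =>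
    hmemI _ (r.2.map (σ.restrictScalars A))
  let φ : (L ≃ₐ[K] L) → (R →* IsLocalRing.ResidueField w) := fun σ =>
    { toFun := fun r => IsLocalRing.residue w ⟨σ (r : L), hσR σ r⟩
      map_one' := by
        have : (⟨σ ((1 : R) : L), hσR σ 1⟩ : w) = 1 := by
          apply Subtype.ext
          change σ ((1 : R) : L) = 1
          rw [OneMemClass.coe_one, map_one]
        rw [this, map_one]
      map_mul' := by
        intro a b
        rw [← map_mul]
        congr 1
        apply Subtype.ext
        change σ ((a * b : R) : L) = σ a * σ b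
        rw [MulMemClass.coe_mul, map_mul] }
  have hφ : ∀ σ r, φ σ r = IsLocalRing.residue w ⟨σ (r : L), hσR σ r⟩ := fun σ r => rfl
  have hinj : Function.Injective φ := by
    intro σ τ h
    have h1 : ∀ r, IsIntegral A r → w.valuation (σ r - τ r) < 1 := by
      intro r hr
      have h2 := DFunLike.congr_fun h (⟨r, hr⟩ : R)
      rw [hφ, hφ, ← sub_eq_zero, ← map_sub, IsLocalRing.residue_eq_zero_iff,
        w.valuation_lt_one_iff] at h2
      exact h2
    have h2 := hun (w.comap ((τ : L ≃ₐ[K] L) : L →+* L)) (by
        intro a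
        rw [ValuationSubring.mem_comap]
        change τ (algebraMap A L a) ∈ w
        rw [IsScalarTower.algebraMap_apply A K L, AlgEquiv.commutes,
          ← IsScalarTower.algebraMap_apply]
        exact hAw a) (by
        intro htop
        apply hwtop
        rw [eq_top_iff]
        intro y _
        have h3 : y ∈ (w.comap ((τ : L ≃ₐ[K] L) : L →+* L)).comap (algebraMap K L) := by
          rw [htop]; trivial
        rw [ValuationSubring.mem_comap, ValuationSubring.mem_comap] at h3
        change τ (algebraMap K L y) ∈ w at h3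
        rw [AlgEquiv.commutes] at h3
        exact h3) (σ.trans τ.symm) (by
        apply (triv_of_int (K := K) (A := A) _ _ _ _ _).2
        · intro a
          rw [ValuationSubring.mem_comap]
          change τ (algebraMap A L a) ∈ w
          rw [IsScalarTower.algebraMap_apply A K L, AlgEquiv.commutes,
            ← IsScalarTower.algebraMap_apply]
          exact hAw a
        · intro htop
          apply hwtop
          rw [eq_top_iff]
          intro y _
          have h3 : y ∈ (w.comap ((τ : L ≃ₐ[K] L) : L →+* L)).comap (algebraMap K L) := by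
            rw [htop]; trivial
          rw [ValuationSubring.mem_comap, ValuationSubring.mem_comap] at h3
          change τ (algebraMap K L y) ∈ w at h3
          rw [AlgEquiv.commutes] at h3
          exact h3
        · intro b hb
          rw [comap_val_lt_one]
          change w.valuation (τ (τ.symm (σ b) - b)) < 1
          rw [map_sub, AlgEquiv.apply_symm_apply]
          exact h1 b hb)
    ext x
    have h3 := DFunLike.congr_fun h2 x
    change τ.symm (σ x) = x at h3
    rw [← h3, AlgEquiv.apply_symm_apply, h3]
  have hli := (linearIndependent_monoidHom R (IsLocalRing.ResidueField w)).comp φ hinj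
  rw [Fintype.linearIndependent_iff] at hli
  have h0 := hli (fun _ => 1) (by
    funext r
    rw [Finset.sum_apply]
    simp only [Function.comp_apply, Pi.smul_apply, one_smul, Pi.zero_apply]
    have h1 : ∑ σ : L ≃ₐ[K] L, (φ σ) r = IsLocalRing.residue w
        (∑ σ : L ≃ₐ[K] L, (⟨σ (r : L), hσR σ r⟩ : w)) := by
      rw [map_sum]
      rfl
    rw [h1, IsLocalRing.residue_eq_zero_iff, w.valuation_lt_one_iff]
    have h2 := hsum r r.2
    convert h2 using 2
    push_cast
    rfl) 1
  exact one_ne_zero h0

theorem taskA : TaskA := by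
  intro k F K _ _ _ _ _ _ _ _ _ T hT hunr
  obtain ⟨y, hy, hsep, hpoles⟩ := exists_sep_poles T hT
  have hfin : FiniteDimensional k⟮y⟯ F := FF.IsFF.finite hy
  obtain ⟨A, hded, hfrac, hft, hyA, hnf, hA⟩ := exists_affine y hy hfin hsep
  have htow : IsScalarTower k A F := inferInstance
  have htow2 : IsScalarTower A F K := .of_algebraMap_eq fun _ => rfl
  obtain ⟨b, hb, htr⟩ := trace_one (K := F) (L := K) (A := A) hnf (by
    intro w hw htop σ hσ
    -- the valuation ring below `w` is a place
    let h1 : ∀ a : A, algebraMap A F a ∈ w.comap (algebraMap F K) := hw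
    have hc := cent_ne_bot (A := A) (w.comap (algebraMap F K)) h1 htop
    let P : IsDedekindDomain.HeightOneSpectrum A :=
      ⟨cent (w.comap (algebraMap F K)) h1, cent_isPrime _ _, hc⟩
    let v : FF.Place k F := FF.placeOf (k := k) (L := F) P
    have hv : v.O = w.comap (algebraMap F K) := by
      ext z
      rw [mem_iff_of_cent (w.comap (algebraMap F K)) h1 htop z]
      have h2 : z ∈ v.O ↔ P.valuation F z ≤ 1 := by
        by_cases hz : z = 0
        · subst hz
          simp
        · rw [← FF.placeOf_nonneg (k := k) (L := F) P hz]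
          exact FF.Place.reg_iff _ hz
      rw [h2]
      constructor
      · intro h3
        obtain ⟨n, d, hnd⟩ := IsDedekindDomain.HeightOneSpectrum.exists_primeCompl_mul_eq_of_integer
          P z h3
        exact ⟨n, d, d.2, hnd⟩
      · rintro ⟨a, b, hb, hab⟩
        have h3 : P.valuation F (algebraMap A F b) = 1 := by
          rw [IsDedekindDomain.HeightOneSpectrum.valuation_eq_one_iff_notMem]
          exact hb
        have h4 := congrArg (P.valuation F) hab
        rw [map_mul, h3, mul_one] at h4
        rw [h4]
        exact P.valuation_le_one a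
    have hvT : v ∉ T := by
      intro h2
      apply (hpoles v).2 h2
      have h3 : y ∈ v.O := by
        rw [hv]
        exact h1 ⟨y, hyA⟩
      exact h3
    exact hunr v hvT w hv.symm σ hσ)
  refine ⟨b, htr, ?_⟩
  intro v hv W hW
  have hyv : y ∈ v.O := by
    by_contra h
    exact hv ((hpoles v).1 h)
  have h1 : ∀ a ∈ A, a ∈ v.O := hA v.O (fun a => v.reg_const a) hyv
  refine integral_mem (A := A) W ?_ b hb
  intro a
  have h2 := h1 a a.2
  rw [← hW] at h2
  exact h2

end Pool.Agent.H124R3.ZT
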