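import Pool.Agent.H124R3.FrobEx
import Pool.Agent.H525R3.FFp.Bridge
import Pool.Agent.H387R3.ZT.Stmts

set_option autoImplicit false

/-!
Project ZT, TaskFrob and TaskUnr.
-/

open IntermediateField

namespace Pool.Agent.H124R3.ZT

open Pool.Agent.H639R3 Pool.Agent.H387R3.ZT

/-- a Dedekind domain inside the valuation ring of a place -/
theorem exists_ded {k F : Type} [Field k] [Finite k] [Field F] [Algebra k F]
    (h : H707R3.IsCurveFunctionField k F) (v : H707R3.Place k F) :
    ∃ A : Subalgebra k F, IsDedekindDomain A ∧ IsFractionRing A F ∧ ∀ a ∈ A, a ∈ v.ring := by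
  obtain ⟨t, D, D', _, hD⟩ := H707R3.exists_two_models h
  rcases hD v with h1 | h1
  · exact ⟨D.B, D.ded, D.frac, h1⟩
  · exact ⟨D'.B, D'.ded, D'.frac, h1⟩

theorem taskUnr : TaskUnr := by
  intro p _ k F E _ _ _ _ _ _ _ _ _ h K _ _ v v' hv' hun W hW σ hσ
  have := h.galois
  obtain ⟨A, hded, hfrac, hA⟩ := exists_ded h.base v
  have htow2 : IsScalarTower A F E := .of_algebraMap_eq fun _ => rfl
  obtain ⟨w, hw⟩ := exists_extension (L := E) W
  have hwF : w.comap (algebraMap F E) = v.ring := by
    rw [← hv', ← hW, ← hw]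
    rfl
  have hAw : ∀ a : A, algebraMap A E a ∈ w := by
    intro a
    have h1 := hA a a.2
    rw [← hwF] at h1
    exact h1
  have hne : w.comap (algebraMap F E) ≠ ⊤ := by rw [hwF]; exact v.ne_top
  let ρ : E ≃ₐ[F] E := σ.liftNormal E
  have hρ : ∀ a : K, ρ (a : E) = (σ a : E) := fun a => σ.liftNormal_commutes E a
  have key := fixes_of_triv (K := F) (L := E) (A := A) w hAw hne K
    (fun τ _ h2 => hun w hwF τ h2) ρ (by
      intro r hr hrA
      have h1 : r ∈ w := integral_mem w hAw r hrA
      have h2 : (⟨r, hr⟩ : K) ∈ W := by rw [← hw]; exact h1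
      have h3 := hσ _ h2
      rw [← hw, comap_val_lt_one] at h3
      rw [hρ ⟨r, hr⟩]
      exact h3)
  ext x
  have h1 := key x x.2
  rw [hρ] at h1
  exact h1

theorem taskFrob : TaskFrob := by
  intro p _ k F E _ _ _ _ _ _ _ _ _ h v
  have := h.galois
  have hp : p.Prime := Fact.out
  obtain ⟨A, hded, hfrac, hA⟩ := exists_ded h.base v
  have htow2 : IsScalarTower A F E := .of_algebraMap_eq fun _ => rfl
  obtain ⟨w, hw⟩ := exists_extension (L := E) v.ring
  have hAw : ∀ a : A, algebraMap A E a ∈ w := by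
    intro a
    have h1 := hA a a.2
    rw [← hw] at h1
    exact h1
  have hne : w.comap (algebraMap F E) ≠ ⊤ := by rw [hw]; exact v.ne_top
  obtain ⟨hκ, hcard, hdeg⟩ := H707R3.card_residue' h.base v
  have hCE : CharP E p := charP_of_injective_algebraMap (algebraMap k E).injective p
  obtain ⟨m, hm⟩ : ∃ m : ℕ, Nat.card v.κ = p ^ m := by
    have : Fintype v.κ := Fintype.ofFinite _
    have h1 : CharP v.κ p := charP_of_injective_ringHom v.resHom.injective p
    obtain ⟨n, -, hn⟩ := FiniteField.card v.κ p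
    exact ⟨n, by rw [Nat.card_eq_fintype_card, hn]⟩
  have hres : ∀ a : A, (a : F) ∈ v.ring := fun a => hA a a.2
  have hval : ∀ x : F, v.ring.valuation x < 1 ↔ w.valuation (algebraMap F E x) < 1 := by
    intro x
    rw [← hw, comap_val_lt_one]
  have hfix : ∀ a : A, w.valuation ((algebraMap A E a) ^ p ^ m - algebraMap A E a) < 1 := by
    intro a
    have : Fintype v.κ := Fintype.ofFinite _
    have h1 : IsLocalRing.residue v.ring ((⟨a, hres a⟩ : v.ring) ^ p ^ m - ⟨a, hres a⟩) = 0 := by
      rw [map_sub, map_pow, sub_eq_zero, ← hm, Nat.card_eq_fintype_card]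
      exact FiniteField.pow_card _
    rw [H707R3.residue_eq_zero_iff, hval] at h1
    convert h1 using 2
    change _ = algebraMap F E ((a : F) ^ p ^ m - (a : F))
    rw [map_sub, map_pow]
    rfl
  have hfin : Finite (A ⧸ cent w hAw) := by
    let f : A →+* v.κ := (IsLocalRing.residue v.ring).comp
      ((algebraMap A F).codRestrict v.ring.toSubring hres)
    have hker : ∀ a : A, a ∈ cent w hAw ↔ f a = 0 := by
      intro a
      rw [mem_cent]
      change _ ↔ IsLocalRing.residue v.ring _ = 0
      rw [H707R3.residue_eq_zero_iff, hval]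
      rfl
    let g : (A ⧸ cent w hAw) →+* v.κ := Ideal.Quotient.lift _ f (fun a ha => (hker a).1 ha)
    have hg : Function.Injective g := by
      rw [injective_iff_map_eq_zero]
      intro x hx
      obtain ⟨a, rfl⟩ := Ideal.Quotient.mk_surjective x
      rw [Ideal.Quotient.lift_mk] at hx
      rw [Ideal.Quotient.eq_zero_iff_mem]
      exact (hker a).2 hx
    exact Finite.of_injective g hg
  obtain ⟨σ, -, hσ⟩ := exists_frob_at (K := F) (A := A) w hAw hne p m hfix hfin
  have hex : ∃ σ : E ≃ₐ[F] E, v.IsFrob σ := by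
    refine ⟨σ, w, hw, ?_⟩
    intro a ha
    rw [hm]
    exact hσ a ha
  exact Classical.epsilon_spec hex

end Pool.Agent.H124R3.ZT
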